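import Pool.Agent.Lib.MP_a325a5_ag.MU.AN.Uniq
import Pool.Agent.Lib.MP_a325a5_ag.MU.AN.Cpx
import Pool.Agent.Lib.MP_a325a5_ag.MU.AN.Tr
import Pool.Agent.Lib.MP_a325a5_ag.MU.AN.Surj

/-! An affine map which is not the identity is not a modular correspondence. -/

set_option autoImplicit false

namespace Pool.Agent.Lib.MP_a325a5_ag.PM

open Polynomial UpperHalfPlane ModularForm EisensteinSeries MatrixGroups MU
open scoped Manifold

private theorem aff_mdiff_jInv : MDiff jInv := by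
  have h4 : MDiff (fun τ => (E₄ : ModularForm 𝒮ℒ 4) τ) := (E₄ : ModularForm 𝒮ℒ 4).holo'
  exact (h4.pow 3).div CuspForm.discriminant.holo' discriminant_ne_zero

private theorem aff_triple {N : ℕ} (hN : 1 ≤ N) {t : ℕ × ℕ × ℕ} (ht : t ∈ triples N) :
    1 ≤ t.1 ∧ 1 ≤ t.2.2 := by
  rw [triples, Finset.mem_filter] at ht
  obtain ⟨-, h1, -, -⟩ := ht
  constructor
  · rcases Nat.eq_zero_or_pos t.1 with h | h
    · rw [h, zero_mul] at h1; omega
    · exact h
  · rcases Nat.eq_zero_or_pos t.2.2 with h | h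
    · rw [h, mul_zero] at h1; omega
    · exact h

private theorem aff_im_pos {N : ℕ} (hN : 1 ≤ N) {t : ℕ × ℕ × ℕ} (ht : t ∈ triples N) {z : ℂ}
    (hz : 0 < z.im) : 0 < (((t.1 : ℂ) * z + t.2.1) / t.2.2).im := by
  obtain ⟨h1, h2⟩ := aff_triple hN ht
  have h3 : (0 : ℝ) < t.1 := by exact_mod_cast h1
  have h4 : (0 : ℝ) < t.2.2 := by exact_mod_cast h2
  rw [Complex.div_natCast_im]
  simp only [Complex.add_im, Complex.mul_im, Complex.natCast_re, Complex.natCast_im, zero_mul,
    add_zero]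
  positivity

private theorem aff_mdiff {N : ℕ} (hN : 1 ≤ N) {t : ℕ × ℕ × ℕ} (ht : t ∈ triples N) {f : ℍ → ℂ}
    (hf : MDiff f) : MDiff (fun τ => f (tpt t τ)) := by
  rw [UpperHalfPlane.mdifferentiable_iff] at hf ⊢
  set φ : ℂ → ℂ := fun z => ((t.1 : ℂ) * z + t.2.1) / t.2.2 with hφ
  have hφd : Differentiable ℂ φ := by
    rw [hφ]
    fun_prop
  have h1 : Set.MapsTo φ upperHalfPlaneSet upperHalfPlaneSet := fun z hz => aff_im_pos hN ht hz
  refine (hf.comp hφd.differentiableOn h1).congr fun z hz => ?_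
  simp only [Function.comp_apply]
  congr 1
  rw [tpt, ofComplex_apply_of_im_pos hz]

/-- A holomorphic function on `ℍ` which vanishes at the points `i (1 + 1 / n)` for infinitely many
`n` is zero. -/
private theorem aff_ident {f : ℍ → ℂ} (hf : MDiff f) (p : ℕ → ℍ)
    (hp : ∀ n : ℕ, ((p n : ℍ) : ℂ) = Complex.I * (1 + 1 / ((n : ℂ) + 1)))
    (h : ∃ᶠ n in Filter.atTop, f (p n) = 0) (τ : ℍ) : f τ = 0 := by
  rw [UpperHalfPlane.mdifferentiable_iff] at hf
  have hopen : IsOpen upperHalfPlaneSet := isOpen_upperHalfPlaneSet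
  have hA : AnalyticOnNhd ℂ (f ∘ ofComplex) upperHalfPlaneSet := hf.analyticOnNhd hopen
  have hconn : IsPreconnected upperHalfPlaneSet := (convex_halfSpace_im_gt 0).isPreconnected
  have hI : Complex.I ∈ upperHalfPlaneSet := by
    show (0 : ℝ) < Complex.I.im
    simp
  have hlim : Filter.Tendsto (fun n : ℕ => ((p n : ℍ) : ℂ)) Filter.atTop (nhds Complex.I) := by
    have h1 : Filter.Tendsto (fun n : ℕ => Complex.I * (1 + 1 / ((n : ℂ) + 1))) Filter.atTop
        (nhds (Complex.I * (1 + 0))) :=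
      Filter.Tendsto.const_mul _ (tendsto_const_nhds.add tendsto_one_div_add_atTop_nhds_zero_nat)
    rw [add_zero, mul_one] at h1
    exact h1.congr fun n => (hp n).symm
  have hne : ∀ n, ((p n : ℍ) : ℂ) ≠ Complex.I := by
    intro n hn
    rw [hp] at hn
    have h1 : Complex.I * (1 / ((n : ℂ) + 1)) = 0 := by linear_combination hn
    have h2 : ((n : ℂ) + 1) ≠ 0 := by exact_mod_cast Nat.succ_ne_zero n
    exact mul_ne_zero Complex.I_ne_zero (one_div_ne_zero h2) h1
  have hfr : ∃ᶠ z in nhdsWithin Complex.I {Complex.I}ᶜ, (f ∘ ofComplex) z = 0 := by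
    have h1 : Filter.Tendsto (fun n : ℕ => ((p n : ℍ) : ℂ)) Filter.atTop
        (nhdsWithin Complex.I {Complex.I}ᶜ) :=
      tendsto_nhdsWithin_iff.2 ⟨hlim, Filter.Eventually.of_forall hne⟩
    refine h1.frequently (h.mono fun n hn => ?_)
    simp only [Function.comp_apply, ofComplex_apply]
    exact hn
  have h0 := hA.eqOn_zero_of_preconnected_of_frequently_eq_zero hconn hI hfr
  have h1 := h0 τ.im_pos
  simpa only [Function.comp_apply, ofComplex_apply, Pi.zero_apply] using h1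

/-- `jInv (N γ τ)` is `jInv (tpt t τ)`, the same `γ` for all `τ`. -/
private theorem aff_transit {N : ℕ} (hN : 1 ≤ N) {t : ℕ × ℕ × ℕ} (ht : t ∈ triples N) :
    ∃ γ : SL(2, ℤ), ∀ τ : ℍ, jInv (tpt (N, 0, 1) (γ • τ)) = jInv (tpt t τ) := by
  obtain ⟨γ, δ, h⟩ := exists_transit hN ht
  have hN0 : (N, 0, 1) ∈ triples N := by
    simp only [triples, Finset.mem_filter, Finset.mem_product, Finset.mem_range]
    refine ⟨⟨by omega, by omega, by omega⟩, by omega, by omega, ?_⟩
    simp
  refine ⟨γ, fun τ => ?_⟩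
  have h1 : Act (tm (N, 0, 1) * γ.1) τ (tpt (N, 0, 1) (γ • τ)) :=
    (act_sl γ τ).mul (act_tpt hN hN0 (γ • τ))
  have h2 : Act (δ.1 * tm t) τ (δ • tpt t τ) :=
    (act_tpt hN ht τ).mul (act_sl δ (tpt t τ))
  rw [h] at h1
  have h3 : (δ.1 * tm t).det ≠ 0 := by
    rw [Matrix.det_mul, det_tm ht, δ.2, one_mul]
    exact_mod_cast (by omega : N ≠ 0)
  rw [Act.unique h3 h1 h2, jInv_sl]

/-- The values `jInv (tpt t τ)` are distinct if `τ` is not quadratic. -/
private theorem aff_inj {N : ℕ} (hN : 1 ≤ N) {τ : ℍ} (hq : ¬ Quad τ) {t t' : ℕ × ℕ × ℕ}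
    (ht : t ∈ triples N) (ht' : t' ∈ triples N) (h : jInv (tpt t τ) = jInv (tpt t' τ)) :
    t = t' := by
  have hd : ∀ s ∈ triples N, 0 < (tm s).det := by
    intro s hs
    rw [det_tm hs]
    exact_mod_cast hN
  obtain ⟨γ, hγ⟩ := act_inj (prim_tm ht) (prim_tm ht') (hd t ht) (hd t' ht') hq
    (act_tpt hN ht τ) (act_tpt hN ht' τ) h
  exact triple_unique hN ht ht' γ hγ

/-- The points `i (1 + 1 / (n + 1))`. -/
private noncomputable def affP (n : ℕ) : ℍ :=
  ⟨Complex.I * (1 + 1 / ((n : ℂ) + 1)), by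
    have h1 : (1 + 1 / ((n : ℂ) + 1) : ℂ) = ((1 + 1 / ((n : ℝ) + 1) : ℝ) : ℂ) := by
      push_cast
      rfl
    rw [h1, Complex.mul_im, Complex.ofReal_re, Complex.ofReal_im, Complex.I_im, mul_zero, one_mul,
      zero_add]
    positivity⟩

/-- The affine map `x ↦ α x + β` is not a modular correspondence: the case of the complex
numbers. -/
theorem phi_affine_C {N : ℕ} (hN : 1 ≤ N) {α β : ℂ}
    (h : ∀ x : ℂ, phi N x (α * x + β) = 0) : α = 1 ∧ β = 0 := by
  classical
  -- one triple for infinitely many of the points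
  obtain ⟨t, ht, hfr⟩ : ∃ t ∈ triples N, ∃ᶠ n in Filter.atTop,
      α * jInv (affP n) + β - jInv (tpt t (affP n)) = 0 := by
    by_contra hcon
    push Not at hcon
    have h1 : ∀ t ∈ triples N, ∀ᶠ n in Filter.atTop,
        ¬ (α * jInv (affP n) + β - jInv (tpt t (affP n)) = 0) := fun t ht => hcon t ht
    obtain ⟨n, hn⟩ := ((Filter.eventually_all_finset (triples N)).2 h1).exists
    obtain ⟨t, ht, h2⟩ := (phi_jInv hN (affP n) _).1 (h (jInv (affP n)))
    exact hn t ht (sub_eq_zero.2 h2)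
  have hf : MDiff (fun τ => α * jInv τ + β - jInv (tpt t τ)) :=
    ((mdifferentiable_const.mul aff_mdiff_jInv).add mdifferentiable_const).sub
      (aff_mdiff hN ht aff_mdiff_jInv)
  have hall : ∀ τ : ℍ, α * jInv τ + β = jInv (tpt t τ) := fun τ =>
    sub_eq_zero.1 (aff_ident hf affP (fun n => rfl) hfr τ)
  -- all triples
  obtain ⟨γ, hγ⟩ := aff_transit hN ht
  have hN1 : ∀ τ : ℍ, jInv (tpt (N, 0, 1) τ) = α * jInv τ + β := by
    intro τ
    have h1 := hγ (γ⁻¹ • τ)
    rw [smul_inv_smul, ← hall, jInv_sl] at h1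
    exact h1
  have hany : ∀ t' ∈ triples N, ∀ τ : ℍ, jInv (tpt t' τ) = α * jInv τ + β := by
    intro t' ht' τ
    obtain ⟨γ', hγ'⟩ := aff_transit hN ht'
    rw [← hγ' τ, hN1, jInv_sl]
  have h01 : (N, 0, 1) ∈ triples N := by
    simp only [triples, Finset.mem_filter, Finset.mem_product, Finset.mem_range]
    refine ⟨⟨by omega, by omega, by omega⟩, by omega, by omega, ?_⟩
    simp
  have h10 : (1, 0, N) ∈ triples N := by
    simp only [triples, Finset.mem_filter, Finset.mem_product, Finset.mem_range]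
    refine ⟨⟨by omega, by omega, by omega⟩, by omega, by omega, ?_⟩
    simp
  obtain ⟨τ₀, hτ₀⟩ := exists_not_quad
  have h2 := aff_inj hN hτ₀ h01 h10 (by rw [hany _ h01, hany _ h10])
  have h3 : N = 1 := (Prod.ext_iff.1 h2).1
  subst h3
  have h4 : ∀ τ : ℍ, jInv τ = α * jInv τ + β := by
    intro τ
    have h5 := hN1 τ
    have h6 : tpt (1, 0, 1) τ = τ := by
      rw [tpt]
      simp
    rwa [h6] at h5
  obtain ⟨τ₁, h5⟩ := jInv_surj 0
  obtain ⟨τ₂, h6⟩ := jInv_surj 1
  have h7 := h4 τ₁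
  have h8 := h4 τ₂
  rw [h5, mul_zero, zero_add] at h7
  rw [h6, ← h7, add_zero, mul_one] at h8
  exact ⟨h8.symm, h7.symm⟩

/-- The affine map `x ↦ α x + β` is not a modular correspondence. -/
theorem phi_affine {k L : Type} [Field k] [CharZero k] [Field L] [CharZero L] [Algebra k L]
    {N : ℕ} (hN : 1 ≤ N) {α β : k} {t : L} (ht : Transcendental k t)
    (h : phi N t (algebraMap k L α * t + algebraMap k L β) = 0) : α = 1 ∧ β = 0 := by
  classical
  obtain ⟨K, g, hK⟩ := exists_embedding k {α, β}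
  set α' : K := ⟨α, hK α (by simp)⟩ with hα'
  set β' : K := ⟨β, hK β (by simp)⟩ with hβ'
  have hp : ∀ {F : Type} [Field F] [CharZero F] (f : K →+* F) (x : F),
      ((modPoly N).eval₂ (Polynomial.mapRingHom (Rat.castHom K)) (C α' * X + C β')).eval₂ f x =
        phi N x (f α' * x + f β') := by
    intro F _ _ f x
    have h1 : ∀ q : K[X], q.eval₂ f x = eval₂RingHom f x q := fun q => rfl
    rw [h1, Polynomial.hom_eval₂, phi]
    congr 1
    · apply Polynomial.ringHom_ext
      · intro a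
        simp
      · simp
    · simp
  have h0 : (modPoly N).eval₂ (Polynomial.mapRingHom (Rat.castHom K)) (C α' * X + C β') = 0 := by
    by_contra hne
    have h1 : Transcendental K t := ht.restrictScalars (R := K) (algebraMap K k).injective
    apply h1
    refine ⟨_, hne, ?_⟩
    rw [aeval_def, hp]
    exact h
  have h1 := phi_affine_C hN (α := g α') (β := g β') fun x => by
    rw [← hp g x, h0, eval₂_zero]
  have h2 : α' = 1 := g.injective (by rw [h1.1, map_one])
  have h3 : β' = 0 := g.injective (by rw [h1.2, map_zero])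
  exact ⟨congrArg Subtype.val h2, congrArg Subtype.val h3⟩

end Pool.Agent.Lib.MP_a325a5_ag.PM
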