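import Pool.Agent.Lib.MP_a325a5_ag.PM.Defs
import Pool.Agent.Lib.MP_a325a5_ag.MU.EDefs

/-! The encoding of a system of equations by the equation `x y = z + w`.

Data `y_i`, `i ∈ I`.  New variables `a_i`, `b_i` (`i ∈ I`), `s_b` (`b ∈ B`), `u_t` (`t` a term of a
relation).  `z_i = a_i y_i - b_i`.  `S` is a system of relations in the elements `a_i`, `b_i`, `z_i`.
For every term `t = (b, l)`, with factors `f_1, ..., f_n`, the wires `u_t f_1 ⋯ f_m`, `m = 0, ..., n`,
the partial sum `s_(b, l) = s_b + part_l` and `e_t = u_t s_lo`, where `s_hi = s_lo + f_1 ⋯ f_n`,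
`{lo, hi} = {l, l + 1}` according to the sign of the term.  Gates: `a_i y_i = b_i + z_i`,
`(u f_1 ⋯ f_m) f_(m + 1) = u f_1 ⋯ f_(m + 1) + 0`, `u s_lo = e + 0`, `u s_hi = e + u f_1 ⋯ f_n`. -/

set_option autoImplicit false

namespace Pool.Agent.Lib.MP_a325a5_ag.PM

open MvPolynomial UM UL MU

section ring

variable {J : Type} [Fintype J] (S : Sys J) {A : Type} [CommRing A] (v : J → A)

/-- The term `l` of the relation `b` without its sign. -/
def mon (t : Σ b : S.B, Fin (S.m b + 1)) : A := ∏ j, v j ^ S.α t.1 t.2 j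

/-- The partial sum of the signed terms before `l`. -/
def prt (b : S.B) (l : Fin (S.m b + 1)) : A :=
  ∑ l' ∈ Finset.univ.filter (fun l' => l' < l), ((S.ε b l' : ℤ) : A) * mon S v ⟨b, l'⟩

/-- The value of the relation `b`. -/
def rl (b : S.B) : A := ∑ l, ((S.ε b l : ℤ) : A) * mon S v ⟨b, l⟩

end ring

variable {I : Type} [Fintype I] (S : Sys (Fin 3 × I))

/-- The terms of all relations. -/
abbrev TI : Type := Σ b : S.B, Fin (S.m b + 1)

/-- The number of factors of a term. -/
noncomputable def dg (t : TI S) : ℕ := Fintype.card (Σ j : Fin 3 × I, Fin (S.α t.1 t.2 j))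

/-- The factors of a term. -/
noncomputable def fac (t : TI S) (i : Fin (dg S t)) : Fin 3 × I :=
  ((Fintype.equivFin (Σ j : Fin 3 × I, Fin (S.α t.1 t.2 j))).symm i).1

/-- The gates. -/
abbrev DI : Type := I ⊕ (Σ t : TI S, Fin (dg S t) ⊕ Fin 2)

/-- The wires: `y_i`; `a_i`, `b_i`, `z_i`; `s_(b, l)`; `u f_1 ⋯ f_m` and (`none`) `e`. -/
abbrev WI : Type := (I ⊕ (Fin 3 × I)) ⊕ (TI S ⊕ (Σ t : TI S, Option (Fin (dg S t + 1))))

/-- The new variables `a_i`, `b_i`, `s_b`, `u_t`. -/
abbrev UI : Type := (Fin 2 × I) ⊕ (S.B ⊕ TI S)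

/-- `lo`: the end of the term with the smaller partial sum. -/
def lo (t : TI S) : TI S := ⟨t.1, if S.ε t.1 t.2 = 1 then t.2 else t.2 + 1⟩

/-- `hi`: the other end of the term. -/
def hi (t : TI S) : TI S := ⟨t.1, if S.ε t.1 t.2 = 1 then t.2 + 1 else t.2⟩

/-- The wires at the gates; `none` is the constant `0`. -/
noncomputable def net : Fin 4 × DI S → Option (WI S)
  | (0, Sum.inl i) => some (Sum.inl (Sum.inr (0, i)))
  | (1, Sum.inl i) => some (Sum.inl (Sum.inl i))
  | (2, Sum.inl i) => some (Sum.inl (Sum.inr (1, i)))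
  | (3, Sum.inl i) => some (Sum.inl (Sum.inr (2, i)))
  | (0, Sum.inr ⟨t, Sum.inl m⟩) => some (Sum.inr (Sum.inr ⟨t, some m.castSucc⟩))
  | (1, Sum.inr ⟨t, Sum.inl m⟩) => some (Sum.inl (Sum.inr (fac S t m)))
  | (2, Sum.inr ⟨t, Sum.inl m⟩) => some (Sum.inr (Sum.inr ⟨t, some m.succ⟩))
  | (3, Sum.inr ⟨_, Sum.inl _⟩) => none
  | (0, Sum.inr ⟨t, Sum.inr _⟩) => some (Sum.inr (Sum.inr ⟨t, some 0⟩))
  | (1, Sum.inr ⟨t, Sum.inr 0⟩) => some (Sum.inr (Sum.inl (lo S t)))
  | (1, Sum.inr ⟨t, Sum.inr 1⟩) => some (Sum.inr (Sum.inl (hi S t)))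
  | (2, Sum.inr ⟨t, Sum.inr _⟩) => some (Sum.inr (Sum.inr ⟨t, none⟩))
  | (3, Sum.inr ⟨_, Sum.inr 0⟩) => none
  | (3, Sum.inr ⟨t, Sum.inr 1⟩) => some (Sum.inr (Sum.inr ⟨t, some (Fin.last _)⟩))

section values

variable {A : Type} [CommRing A]

/-- The elements `a_i`, `b_i`, `z_i = a_i y_i - b_i`. -/
def fv (y : I → A) (c : Fin 2 × I → A) (j : Fin 3 × I) : A :=
  ![c (0, j.2), c (1, j.2), c (0, j.2) * y j.2 - c (1, j.2)] j.1

/-- The values of the wires, for the data `y` and the values `c` of the new variables. -/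
noncomputable def val (y : I → A) (c : UI S → A) : WI S → A
  | Sum.inl (Sum.inl i) => y i
  | Sum.inl (Sum.inr j) => fv y (fun q => c (Sum.inl q)) j
  | Sum.inr (Sum.inl t) => c (Sum.inr (Sum.inl t.1)) +
      prt S (fv y fun q => c (Sum.inl q)) t.1 t.2
  | Sum.inr (Sum.inr ⟨t, some m⟩) => c (Sum.inr (Sum.inr t)) *
      ∏ i ∈ Finset.univ.filter (fun i : Fin (dg S t) => i.castSucc < m),
        fv y (fun q => c (Sum.inl q)) (fac S t i)
  | Sum.inr (Sum.inr ⟨t, none⟩) => c (Sum.inr (Sum.inr t)) * (c (Sum.inr (Sum.inl t.1)) +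
      prt S (fv y fun q => c (Sum.inl q)) t.1 (lo S t).2)

/-- The coordinates of the configuration. -/
noncomputable def cfg (y : I → A) (c : UI S → A) (p : Fin 4 × DI S) : A :=
  (net S p).elim 0 (val S y c)

end values

section generic

variable {E : Type} [Field E]

omit [Fintype I] in
theorem fv_rvar_ne_zero (y : I → E) (j : Fin 3 × I) :
    fv (fun i => rcst (Fin 2 × I) (y i)) (rvar E) j ≠ 0 := by
  obtain ⟨j, i⟩ := j
  fin_cases j
  · exact rvar_ne_zero _
  · exact rvar_ne_zero _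
  · show rvar E (0, i) * rcst (Fin 2 × I) (y i) - rvar E (1, i) ≠ 0
    unfold rvar rcst
    rw [← map_mul, ← map_sub]
    intro h
    rw [map_eq_zero_iff _ (IsFractionRing.injective (MvPolynomial (Fin 2 × I) E)
      (RatFun (Fin 2 × I) E))] at h
    have h1 := congrArg (eval (fun q : Fin 2 × I => ((q.1 : ℕ) : E))) h
    rw [map_sub, map_mul, eval_X, eval_X, eval_C, map_zero] at h1
    simp at h1

/-- The units `a_i`, `b_i`, `z_i` of the field `E(a, b)`. -/
noncomputable def fyu (y : I → E) (j : Fin 3 × I) : (RatFun (Fin 2 × I) E)ˣ :=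
  Units.mk0 _ (fv_rvar_ne_zero y j)

/-- The generic configuration over `y`, a point of `Y(1)^(4 D)` over the field `E(a, b, s, u)`. -/
noncomputable def thp (y : I → E) : Pt (RatFun (UI S) E) (Fin 4 × DI S) Empty :=
  (cfg S (fun i => rcst (UI S) (y i)) (rvar E), Empty.elim)

/-- The value of a wire of the generic configuration. -/
noncomputable def gval (y : I → E) (w : WI S) : RatFun (UI S) E :=
  val S (fun i => rcst (UI S) (y i)) (rvar E) w

end generic

/-- The affine coordinates of `x` and the constants `c`. -/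
def fam {K L : Type} [Field K] [Field L] [Algebra K L] {α : Type} {e : ℕ} (c : Fin e → K)
    (x : Pt L α Empty) : α ⊕ Fin e → L :=
  Sum.elim x.1 fun j => algebraMap K L (c j)

/-- Two further facts on the modular polynomials. -/
structure ModAx2 : Prop where
  /-- `Φ_1(X, Y)` vanishes only on the diagonal -/
  one : ∀ (L : Type) [Field L] [CharZero L] (x y : L), phi 1 x y = 0 → x = y
  /-- no affine map except the identity is a modular correspondence -/
  aff : ∀ (L M : Type) [Field L] [CharZero L] [Field M] [CharZero M] [Algebra L M] (t : M),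
    Transcendental L t → ∀ a b : L, a ≠ 0 →
      Isog t (algebraMap L M a * t + algebraMap L M b) → a = 1 ∧ b = 0

end Pool.Agent.Lib.MP_a325a5_ag.PM
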