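import Pool.Agent.Lib.MP_a325a5_ag.PM.Aff
import Pool.Agent.Lib.MP_a325a5_ag.PM.EDefs

/-! The two additional facts on the modular polynomials. -/

set_option autoImplicit false

namespace Pool.Agent.Lib.MP_a325a5_ag.PM

open UpperHalfPlane MU

private theorem ax2_one_C (x y : ℂ) (h : phi 1 x y = 0) : x = y := by
  obtain ⟨τ, rfl⟩ := jInv_surj x
  obtain ⟨t, ht, rfl⟩ := (phi_jInv le_rfl τ y).1 h
  obtain ⟨a, b, d⟩ := t
  obtain ⟨h1, h2, -⟩ := (mem_triples le_rfl).1 ht
  simp only at h1 h2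
  have ha : a = 1 := Nat.eq_one_of_mul_eq_one_right h1
  have hd : d = 1 := Nat.eq_one_of_mul_eq_one_left h1
  have hb : b = 0 := by omega
  subst ha hd hb
  rw [tpt]
  simp

/-- `Φ_1(X, Y)` vanishes only on the diagonal. -/
theorem phi_one (L : Type) [Field L] [CharZero L] (x y : L) (hxy : phi 1 x y = 0) : x = y := by
  classical
  obtain ⟨K, g, hK⟩ := exists_embedding L {x, y}
  have h1 : phi 1 (⟨x, hK x (by simp)⟩ : K) ⟨y, hK y (by simp)⟩ = 0 := by
    apply (algebraMap K L).injective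
    rw [← phi_map, map_zero]
    exact hxy
  have h2 := ax2_one_C (g ⟨x, hK x (by simp)⟩) (g ⟨y, hK y (by simp)⟩) (by
    rw [phi_map, h1, map_zero])
  exact congrArg Subtype.val (g.injective h2)

/-- The two facts. -/
theorem modAx2 : ModAx2 where
  one := phi_one
  aff L M _ _ _ _ _ t ht a b _ h := by
    obtain ⟨N, hN, h⟩ := h
    exact phi_affine hN ht h

end Pool.Agent.Lib.MP_a325a5_ag.PM
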