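import Pool.Agent.Lib.MP_a325a5_ag.PM.Val
import Pool.Agent.Lib.MP_a325a5_ag.UM.CoeffsM

/-! Elimination of the new variables of the configuration. -/

set_option autoImplicit false

namespace Pool.Agent.Lib.MP_a325a5_ag.PM

open MvPolynomial UM UL MU

section

variable {I : Type} {U : Type} {k : Type} [Field k]

/-- the evaluation at the data `y` and the variables `U` -/
private noncomputable def cf_ev {E : Type} [Field E] [Algebra k E] (U : Type) (y : I → E) :
    MvPolynomial U (MvPolynomial I k) →+* RatFun U E :=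
  (algebraMap (MvPolynomial U E) (RatFun U E)).comp
    (MvPolynomial.map ((aeval y : MvPolynomial I k →ₐ[k] E) : MvPolynomial I k →+* E))

private theorem cf_ev_X {E : Type} [Field E] [Algebra k E] (y : I → E) (u : U) :
    cf_ev (k := k) U y (X u) = rvar E u := by
  unfold cf_ev rvar
  rw [RingHom.comp_apply, MvPolynomial.map_X]

private theorem cf_ev_C {E : Type} [Field E] [Algebra k E] (y : I → E) (h : MvPolynomial I k) :
    cf_ev (k := k) U y (C h) = rcst U (aeval y h) := by
  unfold cf_ev rcst
  rw [RingHom.comp_apply, MvPolynomial.map_C]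
  rfl

private theorem cf_ev_ne {E : Type} [Field E] [Algebra k E] (y : I → E)
    (H : MvPolynomial U (MvPolynomial I k)) :
    cf_ev (k := k) U y H ≠ 0 ↔ ∃ m, aeval y (coeff m H) ≠ 0 := by
  unfold cf_ev
  rw [RingHom.comp_apply]
  have h5 : Function.Injective (algebraMap (MvPolynomial U E) (RatFun U E)) :=
    IsFractionRing.injective _ _
  rw [Ne, map_eq_zero_iff _ h5, ← Ne, MvPolynomial.ne_zero_iff]
  refine exists_congr fun m => ?_
  rw [MvPolynomial.coeff_map]
  rfl

end

/-- The condition `G ≠ 0` at the generic configuration over `y`, as a condition on `y`. -/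
theorem exists_coeffs {I : Type} [Fintype I] (S : Sys (Fin 3 × I)) {k : Type} [Field k]
    (G : MvPolynomial ((Fin 4 × DI S) ⊕ Empty) k) :
    ∃ 𝒯 : Set (MvPolynomial I k), ∀ (E : Type) [Field E] [Algebra k E] (y : I → E),
      G ∉ aloc k (co (thp S y)) ↔ ∃ g ∈ 𝒯, aeval y g ≠ 0 := by
  let uv : (Fin 4 × DI S) ⊕ Empty → MvPolynomial (UI S) (MvPolynomial I k) :=
    Sum.elim (cfg S (fun i => C (X i)) fun u => X u) Empty.elim
  refine ⟨{g | ∃ m, g = coeff m (aeval uv G)}, fun E _ _ y => ?_⟩
  have e2 : aeval (co (thp S y)) G = cf_ev (k := k) (UI S) y (aeval uv G) := by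
    have h2 : cf_ev (k := k) (UI S) y (aeval uv G) =
        eval₂Hom ((cf_ev (k := k) (UI S) y).comp
          (algebraMap k (MvPolynomial (UI S) (MvPolynomial I k))))
          (fun j => cf_ev (k := k) (UI S) y (uv j)) G := by
      rw [MvPolynomial.map_aeval]
    have h3 : (cf_ev (k := k) (UI S) y).comp
        (algebraMap k (MvPolynomial (UI S) (MvPolynomial I k))) =
        algebraMap k (RatFun (UI S) E) := by
      ext a
      rw [RingHom.comp_apply]
      have e1 : algebraMap k (MvPolynomial (UI S) (MvPolynomial I k)) a = C (C a) := rfl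
      rw [e1, cf_ev_C, MvPolynomial.algHom_C]
      rw [IsScalarTower.algebraMap_apply k E (RatFun (UI S) E)]
      rfl
    have h4 : (fun j => cf_ev (k := k) (UI S) y (uv j)) = co (thp S y) := by
      funext j
      rcases j with p | p
      · show cf_ev (k := k) (UI S) y (cfg S (fun i => C (X i)) (fun u => X u) p) =
          cfg S (fun i => rcst (UI S) (y i)) (rvar E) p
        rw [cfg_map]
        congr 1
        · funext i
          rw [cf_ev_C, aeval_X]
        · funext u
          exact cf_ev_X y u
      · exact p.elim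
    rw [h2, h3, h4]
    rfl
  rw [mem_aloc, e2, ← Ne, cf_ev_ne]
  constructor
  · rintro ⟨m, hm⟩
    exact ⟨_, ⟨m, rfl⟩, hm⟩
  · rintro ⟨_, ⟨m, rfl⟩, hm⟩
    exact ⟨m, hm⟩

end Pool.Agent.Lib.MP_a325a5_ag.PM
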