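import Pool.Agent.Lib.MP_a325a5_ag.PM.Defs
import Pool.Agent.Lib.MP_a325a5_ag.MU.YCls
import Pool.Agent.Lib.MP_a325a5_ag.UM.LocSet
import Pool.Agent.Lib.MP_a325a5_ag.UM.TDloc
import Pool.Agent.Lib.MP_a325a5_ag.UL.Line

/-! The variety `V^D`.

The generic point is `(x_e, y_e, z_e, x_e y_e - z_e)` with independent variables `x_e`, `y_e`, `z_e`.
No coordinate is CM and no two coordinates are isogenous: otherwise this holds at every point of
`V^D` (specialisation), but some point has one coordinate `0` and the other one transcendental. -/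

set_option autoImplicit false

namespace Pool.Agent.Lib.MP_a325a5_ag.PM

open MvPolynomial UM UL MU

section

variable {k : Type} [Field k] {D : Type}

/-- The polynomial map `(x, y, z) ↦ (x, y, z, x y - z)`. -/
private noncomputable def qdP (k : Type) [Field k] (D : Type) :
    (Fin 4 × D) ⊕ Empty → MvPolynomial (Fin 3 × D) k :=
  Sum.elim (fun p => ![X (0, p.2), X (1, p.2), X (2, p.2),
    X (0, p.2) * X (1, p.2) - X (2, p.2)] p.1) Empty.elim

private theorem qdP_co {E : Type} [Field E] [Algebra k E] (p : Pt E (Fin 4 × D) Empty)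
    (h : ∀ e, p.1 (0, e) * p.1 (1, e) = p.1 (2, e) + p.1 (3, e)) :
    co p = fun j => aeval (fun q : Fin 3 × D => p.1 (q.1.castSucc, q.2)) (qdP k D j) := by
  funext j
  rcases j with ⟨j, e⟩ | j
  · have he := h e
    fin_cases j
    · simp [qdP, co]
    · simp [qdP, co]
    · simp [qdP, co]
    · have h3 : p.1 (3, e) = p.1 (0, e) * p.1 (1, e) - p.1 (2, e) := by
        rw [he]; ring
      simpa [qdP, co] using h3
  · exact j.elim

/-- the generic point -/
private noncomputable def qdG (k : Type) [Field k] (D : Type) :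
    Pt (RatFun (Fin 3 × D) k) (Fin 4 × D) Empty :=
  (fun p => ![rvar k (0, p.2), rvar k (1, p.2), rvar k (2, p.2),
    rvar k (0, p.2) * rvar k (1, p.2) - rvar k (2, p.2)] p.1, Empty.elim)

private theorem qdG_eq (e : D) : (qdG k D).1 (0, e) * (qdG k D).1 (1, e) =
    (qdG k D).1 (2, e) + (qdG k D).1 (3, e) := by
  change rvar k (0, e) * rvar k (1, e) = rvar k (2, e) +
    (rvar k (0, e) * rvar k (1, e) - rvar k (2, e))
  ring

private theorem qd_aeval_rvar (k : Type) [Field k] (U : Type) :
    (aeval (fun i : U => rvar k i) : MvPolynomial U k →ₐ[k] RatFun U k) =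
      IsScalarTower.toAlgHom k (MvPolynomial U k) (RatFun U k) := by
  apply MvPolynomial.algHom_ext
  intro i
  rw [aeval_X]
  rfl

private theorem qd_rvar_indep (k : Type) [Field k] (U : Type) :
    AlgebraicIndependent k (fun i : U => rvar k i) := by
  rw [algebraicIndependent_iff_injective_aeval, qd_aeval_rvar]
  exact IsFractionRing.injective (MvPolynomial U k) (RatFun U k)

private theorem qdG_mem (f : MvPolynomial ((Fin 4 × D) ⊕ Empty) k) :
    f ∈ aloc k (co (qdG k D)) ↔ bind₁ (qdP k D) f = 0 := by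
  have h1 : (fun q : Fin 3 × D => (qdG k D).1 (q.1.castSucc, q.2)) =
      fun i : Fin 3 × D => rvar k i := by
    funext i
    obtain ⟨i, e⟩ := i
    fin_cases i <;> rfl
  rw [mem_aloc, qdP_co (k := k) (qdG k D) qdG_eq, h1, ← aeval_bind₁, qd_aeval_rvar]
  exact map_eq_zero_iff _ (IsFractionRing.injective (MvPolynomial (Fin 3 × D) k)
    (RatFun (Fin 3 × D) k))

/-- the points satisfying the equations are the specialisations of the generic point -/
private theorem qd_key {E : Type} [Field E] [Algebra k E] (p : Pt E (Fin 4 × D) Empty) :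
    aloc k (co (qdG k D)) ≤ aloc k (co p) ↔
      ∀ e, p.1 (0, e) * p.1 (1, e) = p.1 (2, e) + p.1 (3, e) := by
  constructor
  · intro h e
    have h1 : (X (Sum.inl (0, e)) * X (Sum.inl (1, e)) - (X (Sum.inl (2, e)) +
        X (Sum.inl (3, e))) : MvPolynomial ((Fin 4 × D) ⊕ Empty) k) ∈
        aloc k (co (qdG k D)) := by
      rw [qdG_mem]
      simp [qdP]
    have h2 := mem_aloc.mp (h h1)
    rw [map_sub, map_add, map_mul, aeval_X, aeval_X, aeval_X, aeval_X] at h2
    exact sub_eq_zero.mp h2
  · intro h1 f hf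
    rw [qdG_mem] at hf
    rw [mem_aloc, qdP_co (k := k) p h1, ← aeval_bind₁, hf, map_zero]

private theorem qd_main [IsAlgClosed k] [Fintype D] :
    IrrClosed (QD k D) ∧ vanIdeal (QD k D) = aloc k (co (qdG k D)) := by
  obtain ⟨Z, hZ, hZγ⟩ := UM.exists_irrClosed (K := k) (qdG k D)
  have h1 : Z = QD k D := by
    ext p
    rw [UM.mem_iff_le_aloc hZ, hZγ]
    exact qd_key p
  rw [← h1]
  exact ⟨hZ, hZγ⟩

private theorem qd_atd [Fintype D] :
    atd k (co (qdG k D)) = 3 * Fintype.card D := by
  have hcard : Fintype.card (Fin 3 × D) = 3 * Fintype.card D := by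
    rw [Fintype.card_prod, Fintype.card_fin]
  rw [← hcard]
  apply le_antisymm
  · apply atd_le_card_of_algebraic (K := k) (co (qdG k D)) (fun i : Fin 3 × D => rvar k i)
    intro j
    have hX : ∀ i : Fin 3 × D, rvar k i ∈
        Algebra.adjoin k (Set.range (fun i : Fin 3 × D => rvar k i)) :=
      fun i => Algebra.subset_adjoin ⟨i, rfl⟩
    have hmem : co (qdG k D) j ∈
        Algebra.adjoin k (Set.range (fun i : Fin 3 × D => rvar k i)) := by
      rcases j with ⟨j, e⟩ | j
      · fin_cases j
        · exact hX (0, e)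
        · exact hX (1, e)
        · exact hX (2, e)
        · exact sub_mem (mul_mem (hX (0, e)) (hX (1, e))) (hX (2, e))
      · exact j.elim
    exact isAlgebraic_algebraMap
      (⟨_, hmem⟩ : Algebra.adjoin k (Set.range (fun i : Fin 3 × D => rvar k i)))
  · apply le_atd (K := k) (co (qdG k D)) (fun i : Fin 3 × D => rvar k i) (qd_rvar_indep k _)
    intro j
    have hmem : rvar k j ∈ Algebra.adjoin k (Set.range fun i => co (qdG k D) i) := by
      obtain ⟨j, e⟩ := j
      fin_cases j
      · exact Algebra.subset_adjoin ⟨Sum.inl (0, e), rfl⟩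
      · exact Algebra.subset_adjoin ⟨Sum.inl (1, e), rfl⟩
      · exact Algebra.subset_adjoin ⟨Sum.inl (2, e), rfl⟩
    exact isAlgebraic_algebraMap
      (⟨_, hmem⟩ : Algebra.adjoin k (Set.range fun i => co (qdG k D) i))

/-- a point of the threefold with one coordinate `t` and another one `0` -/
private theorem qd_block {L : Type} [Field L] (t : L) (i j : Fin 4) (hij : i ≠ j) :
    ∃ v : Fin 4 → L, v 0 * v 1 = v 2 + v 3 ∧ v j = t ∧ v i = 0 := by
  fin_cases j
  · refine ⟨![t, 0, 0, 0], by simp, rfl, ?_⟩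
    fin_cases i
    · exact absurd rfl hij
    all_goals rfl
  · refine ⟨![0, t, 0, 0], by simp, rfl, ?_⟩
    fin_cases i
    · rfl
    · exact absurd rfl hij
    all_goals rfl
  · by_cases h3 : i = 3
    · subst h3
      exact ⟨![1, t, t, 0], by simp, rfl, rfl⟩
    · refine ⟨![0, 0, t, -t], by simp, rfl, ?_⟩
      fin_cases i
      · rfl
      · rfl
      · exact absurd rfl hij
      · exact absurd rfl h3
  · by_cases h3 : i = 2
    · subst h3
      exact ⟨![1, t, 0, t], by simp, rfl, rfl⟩
    · refine ⟨![0, 0, -t, t], by simp, rfl, ?_⟩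
      fin_cases i
      · rfl
      · rfl
      · exact absurd rfl h3
      · exact absurd rfl hij

private theorem qd_point {L : Type} [Field L] (t : L) (r s : Fin 4 × D) (hrs : r ≠ s) :
    ∃ p : Pt L (Fin 4 × D) Empty, (∀ e, p.1 (0, e) * p.1 (1, e) = p.1 (2, e) + p.1 (3, e)) ∧
      p.1 s = t ∧ p.1 r = 0 := by
  classical
  obtain ⟨i, e⟩ := r
  obtain ⟨j, e'⟩ := s
  have hv : ∃ v : Fin 4 → L, v 0 * v 1 = v 2 + v 3 ∧ v j = t ∧ (e = e' → v i = 0) := by
    by_cases he : e = e'
    · obtain ⟨v, h1, h2, h3⟩ := qd_block t i j fun hij => hrs (by rw [hij, he])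
      exact ⟨v, h1, h2, fun _ => h3⟩
    · obtain ⟨v, h1, h2, -⟩ := qd_block t (j + 1) j (by fin_cases j <;> decide)
      exact ⟨v, h1, h2, fun h => absurd h he⟩
  obtain ⟨v, h1, h2, h3⟩ := hv
  refine ⟨(fun q => if q.2 = e' then v q.1 else 0, Empty.elim), fun d => ?_, ?_, ?_⟩
  · by_cases hd : d = e'
    · simp only [hd, if_true]
      exact h1
    · simp only [hd, if_false]
      ring
  · simp only [if_true]
    exact h2
  · by_cases he : e = e'
    · simp only [he, if_true]
      exact h3 he
    · simp only [he, if_false]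

private theorem qd_ny (h : ModAx) [IsAlgClosed k] [CharZero k] [Fintype D]
    [CharZero (RatFun (Fin 3 × D) k)] : ny (qdG k D).1 = 4 * Fintype.card D := by
  classical
  have hcard : Fintype.card (Fin 4 × D) = 4 * Fintype.card D := by
    rw [Fintype.card_prod, Fintype.card_fin]
  rw [← hcard]
  refine le_antisymm (ny_le h _) ?_
  have : CharZero (RatFun Unit k) :=
    charZero_of_injective_algebraMap (algebraMap k (RatFun Unit k)).injective
  set t : RatFun Unit k := rvar k () with ht
  have hconst : ∀ c : k, algebraMap k (RatFun Unit k) c ≠ t := by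
    intro c hc
    have h1 := rvar_add_rcst_ne_zero (E := k) () (-c)
    apply h1
    have h2 : rcst Unit (-c) = -algebraMap k (RatFun Unit k) c := by
      rw [rcst, map_neg, map_neg, IsScalarTower.algebraMap_apply k (MvPolynomial Unit k)
        (RatFun Unit k)]
      rfl
    rw [h2, ← ht, hc, add_neg_cancel]
  have h1 := card_le_ny h (qdG k D).1 Finset.univ ?_ ?_
  · rwa [Finset.card_univ] at h1
  · intro s _ hcm
    obtain ⟨r, hr⟩ : ∃ r : Fin 4 × D, r ≠ s := by
      obtain ⟨j, e⟩ := s
      have h2 : ∀ i : Fin 4, i + 1 ≠ i := by decide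
      exact ⟨(j + 1, e), fun h => h2 j (congrArg Prod.fst h)⟩
    obtain ⟨p, hp, hps, -⟩ := qd_point t r s hr
    have h2 : IsCM (co p (Sum.inl s)) :=
      isCM_spec (q' := co (qdG k D)) ((qd_key (k := k) p).mpr hp) (i := Sum.inl s) hcm
    rw [show co p (Sum.inl s) = t from hps] at h2
    obtain ⟨c, hc⟩ := exists_of_isCM (k := k) h h2
    exact hconst c hc
  · intro r _ s _ hiso
    by_contra hrs
    obtain ⟨p, hp, hps, hpr⟩ := qd_point t r s hrs
    have h2 : Isog (co p (Sum.inl r)) (co p (Sum.inl s)) :=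
      isog_spec (q' := co (qdG k D)) ((qd_key (k := k) p).mpr hp) (i := Sum.inl r)
        (j := Sum.inl s) hiso
    rw [show co p (Sum.inl s) = t from hps, show co p (Sum.inl r) = 0 from hpr,
      ← map_zero (algebraMap k (RatFun Unit k))] at h2
    obtain ⟨c, hc⟩ := exists_of_isog_algebraMap (k := k) h h2
    exact hconst c hc

end

theorem QD_generic (h : ModAx) (k : Type) [Field k] [IsAlgClosed k] [CharZero k] (D : Type)
    [Fintype D] :
    ∃ (L : Type) (_ : Field L) (_ : CharZero L) (_ : Algebra k L) (γ : Pt L (Fin 4 × D) Empty),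
      aloc k (co γ) = vanIdeal (QD k D) ∧ atd k (co γ) = 3 * Fintype.card D ∧
      ny γ.1 = 4 * Fintype.card D := by
  have hch : CharZero (RatFun (Fin 3 × D) k) :=
    charZero_of_injective_algebraMap (algebraMap k (RatFun (Fin 3 × D) k)).injective
  exact ⟨RatFun (Fin 3 × D) k, inferInstance, hch, inferInstance, qdG k D, qd_main.2.symm, qd_atd,
    qd_ny h⟩

theorem QD_irrClosed (k : Type) [Field k] [IsAlgClosed k] [CharZero k] (D : Type)
    [Fintype D] : IrrClosed (QD k D) := qd_main.1

theorem QD_le_aloc {k L : Type} [Field k] [IsAlgClosed k] [CharZero k] [Field L] [Algebra k L]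
    {D : Type} [Fintype D] (p : Pt L (Fin 4 × D) Empty) :
    vanIdeal (QD k D) ≤ aloc k (co p) ↔
      ∀ e, p.1 (0, e) * p.1 (1, e) = p.1 (2, e) + p.1 (3, e) := by
  rw [qd_main.2]
  exact qd_key p

end Pool.Agent.Lib.MP_a325a5_ag.PM
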