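import Pool.Agent.Lib.MP_a325a5_ag.PM.EDefs
import Pool.Agent.Lib.MP_a325a5_ag.UM.TD

/-! Points of the gates with the identifications of the configuration. -/

set_option autoImplicit false

namespace Pool.Agent.Lib.MP_a325a5_ag.PM

open MvPolynomial UM UL MU

private theorem net_chain {L : Type} [Field L] (n : ℕ) :
    ∀ (g : Fin (n + 1) → L) (f : Fin n → L), (∀ m, g m.castSucc * f m = g m.succ) →
      g (Fin.last n) = g 0 * ∏ i, f i := by
  induction n with
  | zero =>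
    intro g f _
    rw [Fin.prod_univ_zero, mul_one]
    rfl
  | succ n ih =>
    intro g f h
    have h1 := ih (fun m => g m.castSucc) (fun m => f m.castSucc) (fun m => by
      have h2 := h m.castSucc
      rw [Fin.succ_castSucc] at h2
      exact h2)
    rw [Fin.prod_univ_castSucc, ← mul_assoc, ← Fin.succ_last, ← h (Fin.last n)]
    rw [show g (Fin.last n).castSucc = g (Fin.castSucc 0) * ∏ i : Fin n, f i.castSucc from h1]
    rfl

private theorem net_fac_prod {I : Type} [Fintype I] (S : Sys (Fin 3 × I)) {A : Type} [CommRing A]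
    (v : Fin 3 × I → A) (t : TI S) : ∏ i, v (fac S t i) = mon S v t := by
  refine (Fintype.prod_equiv (Fintype.equivFin (Σ j : Fin 3 × I, Fin (S.α t.1 t.2 j))).symm
    (fun i => v (fac S t i))
    (fun σ : Σ j : Fin 3 × I, Fin (S.α t.1 t.2 j) => v σ.1) (fun _ => rfl)).trans ?_
  unfold mon
  rw [Fintype.prod_sigma]
  refine Finset.prod_congr rfl fun j _ => ?_
  change ∏ _y : Fin (S.α t.1 t.2 j), v j = _
  rw [Finset.prod_const, Finset.card_univ, Fintype.card_fin]

theorem exists_of_gates {I : Type} [Fintype I] (S : Sys (Fin 3 × I)) {k L : Type} [Field k]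
    [Field L] [Algebra k L] (τ : Fin 4 × DI S → L)
    (hg : ∀ e, τ (0, e) * τ (1, e) = τ (2, e) + τ (3, e))
    (hsame : ∀ p p', net S p = net S p' → τ p = τ p')
    (h0 : ∀ p, net S p = none → τ p = 0)
    (hv : ∀ p j, net S p = some (Sum.inl (Sum.inr j)) → τ p ≠ 0)
    (hu : ∀ p t, net S p = some (Sum.inr (Sum.inr ⟨t, some 0⟩)) → τ p ≠ 0) :
    ∃ v : Fin 3 × I → Lˣ, (∀ p j, net S p = some (Sum.inl (Sum.inr j)) → τ p = v j) ∧
      (∀ b, S.rel v b = 0) ∧
      atd k τ ≤ td k v + (Fintype.card S.B + Fintype.card (TI S)) := by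
  classical
  -- the values of the wires
  let ω : WI S → L := fun w => if h : ∃ p, net S p = some w then τ h.choose else 0
  have hω : ∀ p w, net S p = some w → τ p = ω w := by
    intro p w hp
    have h : ∃ p, net S p = some w := ⟨p, hp⟩
    change τ p = if h : ∃ p, net S p = some w then τ h.choose else 0
    rw [dif_pos h]
    exact hsame _ _ (hp.trans h.choose_spec.symm)
  have hp3 : ∀ j : Fin 3 × I, ∃ p, net S p = some (Sum.inl (Sum.inr j)) := by
    rintro ⟨j, i⟩
    fin_cases j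
    · exact ⟨(0, Sum.inl i), rfl⟩
    · exact ⟨(2, Sum.inl i), rfl⟩
    · exact ⟨(3, Sum.inl i), rfl⟩
  have hne : ∀ j : Fin 3 × I, ω (Sum.inl (Sum.inr j)) ≠ 0 := by
    intro j
    obtain ⟨p, hp⟩ := hp3 j
    rw [← hω p _ hp]
    exact hv p j hp
  let v : Fin 3 × I → Lˣ := fun j => Units.mk0 (ω (Sum.inl (Sum.inr j))) (hne j)
  -- the gates
  have g1 : ∀ i, (v (0, i) : L) * ω (Sum.inl (Sum.inl i)) = v (1, i) + v (2, i) := by
    intro i
    have h := hg (Sum.inl i)
    rw [hω (0, Sum.inl i) _ rfl, hω (1, Sum.inl i) _ rfl, hω (2, Sum.inl i) _ rfl,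
      hω (3, Sum.inl i) _ rfl] at h
    exact h
  have g2 : ∀ (t : TI S) (m : Fin (dg S t)), ω (Sum.inr (Sum.inr ⟨t, some m.castSucc⟩)) *
      (v (fac S t m) : L) = ω (Sum.inr (Sum.inr ⟨t, some m.succ⟩)) := by
    intro t m
    have h := hg (Sum.inr ⟨t, Sum.inl m⟩)
    rw [hω (0, Sum.inr ⟨t, Sum.inl m⟩) _ rfl, hω (1, Sum.inr ⟨t, Sum.inl m⟩) _ rfl,
      hω (2, Sum.inr ⟨t, Sum.inl m⟩) _ rfl, h0 (3, Sum.inr ⟨t, Sum.inl m⟩) rfl, add_zero] at h
    exact h
  have g3 : ∀ t : TI S, ω (Sum.inr (Sum.inr ⟨t, some 0⟩)) * ω (Sum.inr (Sum.inl (lo S t))) =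
      ω (Sum.inr (Sum.inr ⟨t, none⟩)) := by
    intro t
    have h := hg (Sum.inr ⟨t, Sum.inr 0⟩)
    rw [hω (0, Sum.inr ⟨t, Sum.inr 0⟩) _ rfl, hω (1, Sum.inr ⟨t, Sum.inr 0⟩) _ rfl,
      hω (2, Sum.inr ⟨t, Sum.inr 0⟩) _ rfl, h0 (3, Sum.inr ⟨t, Sum.inr 0⟩) rfl, add_zero] at h
    exact h
  have g4 : ∀ t : TI S, ω (Sum.inr (Sum.inr ⟨t, some 0⟩)) * ω (Sum.inr (Sum.inl (hi S t))) =
      ω (Sum.inr (Sum.inr ⟨t, none⟩)) + ω (Sum.inr (Sum.inr ⟨t, some (Fin.last _)⟩)) := by
    intro t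
    have h := hg (Sum.inr ⟨t, Sum.inr 1⟩)
    rw [hω (0, Sum.inr ⟨t, Sum.inr 1⟩) _ rfl, hω (1, Sum.inr ⟨t, Sum.inr 1⟩) _ rfl,
      hω (2, Sum.inr ⟨t, Sum.inr 1⟩) _ rfl, hω (3, Sum.inr ⟨t, Sum.inr 1⟩) _ rfl] at h
    exact h
  have hune : ∀ t : TI S, ω (Sum.inr (Sum.inr ⟨t, some 0⟩)) ≠ 0 := by
    intro t
    rw [← hω (0, Sum.inr ⟨t, Sum.inr 0⟩) _ rfl]
    exact hu _ t rfl
  have hmon : ∀ t : TI S, ω (Sum.inr (Sum.inl (hi S t))) = ω (Sum.inr (Sum.inl (lo S t))) +
      mon S (fun j => (v j : L)) t := by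
    intro t
    have h1 := net_chain (dg S t) (fun m => ω (Sum.inr (Sum.inr ⟨t, some m⟩)))
      (fun m => (v (fac S t m) : L)) (g2 t)
    rw [net_fac_prod S (fun j => (v j : L)) t] at h1
    have h2 := g4 t
    rw [← g3 t, show ω (Sum.inr (Sum.inr ⟨t, some (Fin.last _)⟩)) = _ from h1, ← mul_add] at h2
    exact mul_left_cancel₀ (hune t) h2
  have hstep : ∀ (b : S.B) (l : Fin (S.m b + 1)), ω (Sum.inr (Sum.inl ⟨b, l + 1⟩)) =
      ω (Sum.inr (Sum.inl ⟨b, l⟩)) + (S.term v b l : L) := by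
    intro b l
    have hterm : (S.term v b l : L) = ((S.ε b l : ℤ) : L) * mon S (fun j => (v j : L)) ⟨b, l⟩ := by
      unfold Sys.term mon
      rw [Units.val_mul, Units.coe_prod]
      rfl
    have h := hmon ⟨b, l⟩
    rw [hterm]
    rcases Int.units_eq_one_or (S.ε b l) with he | he
    · have e1 : lo S ⟨b, l⟩ = ⟨b, l⟩ := by
        unfold lo
        rw [if_pos he]
      have e2 : hi S ⟨b, l⟩ = ⟨b, l + 1⟩ := by
        unfold hi
        rw [if_pos he]
      rw [e1, e2] at h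
      rw [he, h]
      simp
    · have hne1 : ¬ (S.ε b l = 1) := by
        rw [he]
        decide
      have e1 : lo S ⟨b, l⟩ = ⟨b, l + 1⟩ := by
        unfold lo
        rw [if_neg hne1]
      have e2 : hi S ⟨b, l⟩ = ⟨b, l⟩ := by
        unfold hi
        rw [if_neg hne1]
      rw [e1, e2] at h
      rw [he, h]
      simp
  refine ⟨v, ?_, ?_, ?_⟩
  · intro p j hp
    exact hω p _ hp
  · intro b
    unfold Sys.rel
    have h1 : ∀ l, (S.term v b l : L) = ω (Sum.inr (Sum.inl ⟨b, l + 1⟩)) -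
        ω (Sum.inr (Sum.inl ⟨b, l⟩)) := by
      intro l
      rw [hstep, add_sub_cancel_left]
    rw [Finset.sum_congr rfl fun l _ => h1 l, Finset.sum_sub_distrib,
      Fintype.sum_equiv (Equiv.addRight (1 : Fin (S.m b + 1)))
        (fun l => ω (Sum.inr (Sum.inl ⟨b, l + 1⟩))) (fun l => ω (Sum.inr (Sum.inl ⟨b, l⟩)))
        (fun _ => rfl), sub_self]
  · -- the transcendence degree
    obtain ⟨J, -, hJc, hJa⟩ := atd_spec (K := k) (fun j => (v j : L))
    have hcard : td k v + (Fintype.card S.B + Fintype.card (TI S)) =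
        Fintype.card (J ⊕ (S.B ⊕ TI S)) := by
      rw [Fintype.card_sum, Fintype.card_sum, Fintype.card_coe, hJc]
      rfl
    rw [hcard]
    let q : J ⊕ (S.B ⊕ TI S) → L := Sum.elim (fun j => (v j : L))
      (Sum.elim (fun b => ω (Sum.inr (Sum.inl ⟨b, 0⟩)))
        (fun t => ω (Sum.inr (Sum.inr ⟨t, some 0⟩))))
    apply atd_le_card_of_algebraic (K := k) τ q
    have hq : ∀ i, IsAlgebraic (Algebra.adjoin k (Set.range q)) (q i) := fun i =>
      isAlgebraic_algebraMap (⟨q i, Algebra.subset_adjoin ⟨i, rfl⟩⟩ :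
        Algebra.adjoin k (Set.range q))
    have hva : ∀ j, IsAlgebraic (Algebra.adjoin k (Set.range q)) (v j : L) := by
      intro j
      refine UM.isAlgebraic_adjoin_trans ?_ (hJa j)
      rintro _ ⟨i, hi, rfl⟩
      exact hq (Sum.inl ⟨i, hi⟩)
    have hmona : ∀ t, IsAlgebraic (Algebra.adjoin k (Set.range q))
        (mon S (fun j => (v j : L)) t) := by
      intro t
      unfold mon
      exact Finset.prod_induction _ (fun y => IsAlgebraic (Algebra.adjoin k (Set.range q)) y)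
        (fun _ _ => IsAlgebraic.mul) isAlgebraic_one (fun j _ => (hva j).pow _)
    have hsa : ∀ (b : S.B) (l : Fin (S.m b + 1)),
        IsAlgebraic (Algebra.adjoin k (Set.range q)) (ω (Sum.inr (Sum.inl ⟨b, l⟩))) := by
      intro b l
      induction l using Fin.induction with
      | zero => exact hq (Sum.inr (Sum.inl b))
      | succ l ih =>
        have h1 := hstep b l.castSucc
        rw [Fin.coeSucc_eq_succ] at h1
        rw [h1]
        refine ih.add ?_
        unfold Sys.term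
        rw [Units.val_mul, Units.coe_prod]
        refine IsAlgebraic.mul ?_ (hmona ⟨b, l.castSucc⟩)
        exact isAlgebraic_intCast ((S.ε b l.castSucc : ℤˣ) : ℤ)
    have hwa : ∀ (t : TI S) (m : Fin (dg S t + 1)),
        IsAlgebraic (Algebra.adjoin k (Set.range q)) (ω (Sum.inr (Sum.inr ⟨t, some m⟩))) := by
      intro t m
      induction m using Fin.induction with
      | zero => exact hq (Sum.inr (Sum.inr t))
      | succ m ih =>
        rw [← g2 t m]
        exact ih.mul (hva _)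
    intro p
    rcases hn : net S p with _ | w
    · rw [h0 p hn]
      exact isAlgebraic_zero
    · rw [hω p w hn]
      rcases w with (i | j) | (⟨b, l⟩ | ⟨t, _ | m⟩)
      · have h1 : ω (Sum.inl (Sum.inl i)) = ((v (1, i) : L) + v (2, i)) * (v (0, i) : L)⁻¹ := by
          rw [← g1 i, mul_comm, ← mul_assoc, inv_mul_cancel₀ (v (0, i)).ne_zero, one_mul]
        rw [h1]
        exact ((hva _).add (hva _)).mul (IsAlgebraic.inv_iff.mpr (hva _))
      · exact hva j
      · exact hsa b l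
      · rw [← g3 t]
        exact (hwa t 0).mul (hsa _ _)
      · exact hwa t m

end Pool.Agent.Lib.MP_a325a5_ag.PM
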