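import Pool.Agent.Lib.MP_a325a5_ag.PM.Sep
import Pool.Agent.Lib.MP_a325a5_ag.MU.YBasic

/-! No wire is CM, and the wires `y_i`, `a_i`, `b_i`, `z_i` are not isogenous to any other wire: give
one of the new variables the value `t` (a transcendental element) and the others constant values. -/

set_option autoImplicit false

namespace Pool.Agent.Lib.MP_a325a5_ag.PM

open MvPolynomial UM UL MU

section P6

variable {I : Type} [Fintype I] (S : Sys (Fin 3 × I))

private theorem sep1_tr (F : Type) [Field F] : Transcendental F (rvar F () : RatFun Unit F) := by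
  unfold rvar
  have h1 : Transcendental F (X () : MvPolynomial Unit F) := MvPolynomial.transcendental_X F ()
  exact (transcendental_algebraMap_iff (FaithfulSMul.algebraMap_injective _ _)).2 h1

omit [Fintype I] in
private theorem sep1_fv {A B : Type} [CommRing A] [CommRing B] (φ : A →+* B) (y : I → A)
    (c : Fin 2 × I → A) (j : Fin 3 × I) :
    fv (fun i => φ (y i)) (fun q => φ (c q)) j = φ (fv y c j) := by
  obtain ⟨j, i⟩ := j
  fin_cases j <;> simp [fv]

private theorem sep1_mon {A B : Type} [CommRing A] [CommRing B] (φ : A →+* B)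
    (v : Fin 3 × I → A) (t : Σ b : S.B, Fin (S.m b + 1)) :
    mon S (fun j => φ (v j)) t = φ (mon S v t) := by
  simp only [mon, map_prod, map_pow]

private theorem sep1_prt {A B : Type} [CommRing A] [CommRing B] (φ : A →+* B)
    (v : Fin 3 × I → A) (b : S.B) (l : Fin (S.m b + 1)) :
    prt S (fun j => φ (v j)) b l = φ (prt S v b l) := by
  simp only [prt, map_sum, map_mul, map_intCast, sep1_mon]

private theorem sep1_cst {A B : Type} [CommRing A] [CommRing B] (φ : A →+* B) (y : I → A)
    (c : Fin 2 × I → A) (b : S.B) (l : Fin (S.m b + 1)) :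
    prt S (fv (fun i => φ (y i)) (fun q => φ (c q))) b l = φ (prt S (fv y c) b l) := by
  rw [← sep1_prt]
  congr 1
  funext j
  exact sep1_fv φ y c j

variable {F : Type} [Field F] [CharZero F] (y : I → F)

omit [Fintype I] in
/-- Values of `a_i`, `b_i` at which no data wire vanishes. -/
private theorem sep1_ne : ∃ a : Fin 2 × I → F, ∀ j, fv y a j ≠ 0 := by
  classical
  refine ⟨fun q => if q.1 = 0 then 1 else if y q.2 = 1 then 2 else 1, fun j => ?_⟩
  obtain ⟨j, i⟩ := j
  fin_cases j
  · simp [fv]
  · show (if (1 : Fin 2) = 0 then (1 : F) else if y i = 1 then 2 else 1) ≠ 0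
    rw [if_neg (by decide)]
    split_ifs
    · exact two_ne_zero
    · exact one_ne_zero
  · show (if (0 : Fin 2) = 0 then (1 : F) else if y i = 1 then 2 else 1) * y i -
      (if (1 : Fin 2) = 0 then (1 : F) else if y i = 1 then 2 else 1) ≠ 0
    rw [if_pos rfl, if_neg (by decide), one_mul]
    split_ifs with h1
    · rw [h1]
      norm_num
    · exact sub_ne_zero.2 h1

/-- The wires other than the data wires, as affine functions, with constant data wires. -/
private theorem sep1_rest (τ : RatFun Unit F)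
    (x : TI S ⊕ (Σ t : TI S, Option (Fin (dg S t + 1)))) :
    ∃ (a : Fin 2 × I → F) (c : UI S → RatFun Unit F) (α β : F), α ≠ 0 ∧
      (∀ q, c (Sum.inl q) = algebraMap F (RatFun Unit F) (a q)) ∧
      val S (fun i => algebraMap F (RatFun Unit F) (y i)) c (Sum.inr x) =
        algebraMap F (RatFun Unit F) α * τ + algebraMap F (RatFun Unit F) β := by
  classical
  obtain ⟨a, ha⟩ := sep1_ne y
  rcases x with ⟨b, l⟩ | ⟨t, m⟩
  · refine ⟨a, Sum.elim (fun q => algebraMap F (RatFun Unit F) (a q))
      (Sum.elim (fun _ => τ) fun _ => 0), 1, prt S (fv y a) b l, one_ne_zero, fun q => rfl, ?_⟩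
    rw [map_one, one_mul, ← sep1_cst]
    rfl
  · cases m with
    | some m =>
      refine ⟨a, Sum.elim (fun q => algebraMap F (RatFun Unit F) (a q))
        (Sum.elim (fun _ => 0) fun _ => τ), ∏ i ∈ Finset.univ.filter
          (fun i : Fin (dg S t) => i.castSucc < m), fv y a (fac S t i), 0,
        Finset.prod_ne_zero_iff.2 fun i _ => ha _, fun q => rfl, ?_⟩
      rw [map_prod, map_zero, add_zero, mul_comm]
      show τ * _ = τ * _
      congr 1
      refine Finset.prod_congr rfl fun i _ => ?_
      exact sep1_fv (algebraMap F (RatFun Unit F)) y a _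
    | none =>
      refine ⟨a, Sum.elim (fun q => algebraMap F (RatFun Unit F) (a q))
        (Sum.elim (fun _ => algebraMap F (RatFun Unit F) (1 - prt S (fv y a) t.1 (lo S t).2))
          fun _ => τ), 1, 0, one_ne_zero, fun q => rfl, ?_⟩
      have h6 : algebraMap F (RatFun Unit F) (1 - prt S (fv y a) t.1 (lo S t).2) +
          algebraMap F (RatFun Unit F) (prt S (fv y a) t.1 (lo S t).2) = 1 := by
        rw [← map_add, sub_add_cancel, map_one]
      have h7 : algebraMap F (RatFun Unit F) (1 - prt S (fv y a) t.1 (lo S t).2) +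
          prt S (fv (fun i => algebraMap F (RatFun Unit F) (y i))
            (fun q => algebraMap F (RatFun Unit F) (a q))) t.1 (lo S t).2 = 1 :=
        (congrArg (fun x => algebraMap F (RatFun Unit F)
          (1 - prt S (fv y a) t.1 (lo S t).2) + x)
          (sep1_cst S (algebraMap F (RatFun Unit F)) y a t.1 (lo S t).2)).trans h6
      have h8 : τ * (algebraMap F (RatFun Unit F) (1 - prt S (fv y a) t.1 (lo S t).2) +
          prt S (fv (fun i => algebraMap F (RatFun Unit F) (y i))
            (fun q => algebraMap F (RatFun Unit F) (a q))) t.1 (lo S t).2) = τ :=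
        (congrArg (fun x => τ * x) h7).trans (mul_one τ)
      rw [map_one, one_mul, map_zero, add_zero]
      exact h8

open Classical in
/-- One of the variables `a_i`, `b_i` has the value `τ`. -/
private noncomputable def sep1_A (τ : RatFun Unit F) (q₀ : Fin 2 × I) : UI S → RatFun Unit F :=
  Sum.elim (fun q => if q = q₀ then τ else 0) fun _ => 0

private theorem sep1_A0 (τ : RatFun Unit F) (q₀ : Fin 2 × I) (i : I) :
    val S (fun i => algebraMap F (RatFun Unit F) (y i)) (sep1_A S τ q₀)
      (Sum.inl (Sum.inr (0, i))) = open Classical in if (0, i) = q₀ then τ else 0 := rfl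

private theorem sep1_A1 (τ : RatFun Unit F) (q₀ : Fin 2 × I) (i : I) :
    val S (fun i => algebraMap F (RatFun Unit F) (y i)) (sep1_A S τ q₀)
      (Sum.inl (Sum.inr (1, i))) = open Classical in if (1, i) = q₀ then τ else 0 := rfl

private theorem sep1_A2 (τ : RatFun Unit F) (q₀ : Fin 2 × I) (i : I) :
    val S (fun i => algebraMap F (RatFun Unit F) (y i)) (sep1_A S τ q₀)
      (Sum.inl (Sum.inr (2, i))) = open Classical in (if (0, i) = q₀ then τ else 0) *
        algebraMap F (RatFun Unit F) (y i) - (if (1, i) = q₀ then τ else 0) := rfl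

/-- The data wires: one is affine and the other one is `0`. -/
private theorem sep1_data (τ : RatFun Unit F) (hy : ∀ i, y i ≠ 0) (j j' : Fin 3 × I)
    (hj : j ≠ j') : ∃ (q₀ : Fin 2 × I) (α : F), α ≠ 0 ∧
      ((val S (fun i => algebraMap F (RatFun Unit F) (y i)) (sep1_A S τ q₀)
          (Sum.inl (Sum.inr j)) = algebraMap F (RatFun Unit F) α * τ ∧
        val S (fun i => algebraMap F (RatFun Unit F) (y i)) (sep1_A S τ q₀)
          (Sum.inl (Sum.inr j')) = 0) ∨
      (val S (fun i => algebraMap F (RatFun Unit F) (y i)) (sep1_A S τ q₀)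
          (Sum.inl (Sum.inr j')) = algebraMap F (RatFun Unit F) α * τ ∧
        val S (fun i => algebraMap F (RatFun Unit F) (y i)) (sep1_A S τ q₀)
          (Sum.inl (Sum.inr j)) = 0)) := by
  classical
  obtain ⟨j, i⟩ := j
  obtain ⟨j', i'⟩ := j'
  by_cases hi : i = i'
  · subst hi
    have hjj : j ≠ j' := fun h => hj (by rw [h])
    fin_cases j <;> fin_cases j'
    · exact absurd rfl hjj
    · refine ⟨(0, i), 1, one_ne_zero, Or.inl ⟨?_, ?_⟩⟩
      · show val S _ _ (Sum.inl (Sum.inr (0, i))) = _
        rw [sep1_A0]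
        simp
      · show val S _ _ (Sum.inl (Sum.inr (1, i))) = _
        rw [sep1_A1]
        simp
    · refine ⟨(1, i), -1, by norm_num, Or.inr ⟨?_, ?_⟩⟩
      · show val S _ _ (Sum.inl (Sum.inr (2, i))) = _
        rw [sep1_A2]
        simp
      · show val S _ _ (Sum.inl (Sum.inr (0, i))) = _
        rw [sep1_A0]
        simp
    · refine ⟨(0, i), 1, one_ne_zero, Or.inr ⟨?_, ?_⟩⟩
      · show val S _ _ (Sum.inl (Sum.inr (0, i))) = _
        rw [sep1_A0]
        simp
      · show val S _ _ (Sum.inl (Sum.inr (1, i))) = _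
        rw [sep1_A1]
        simp
    · exact absurd rfl hjj
    · refine ⟨(0, i), y i, hy i, Or.inr ⟨?_, ?_⟩⟩
      · show val S _ _ (Sum.inl (Sum.inr (2, i))) = _
        rw [sep1_A2]
        simp [mul_comm]
      · show val S _ _ (Sum.inl (Sum.inr (1, i))) = _
        rw [sep1_A1]
        simp
    · refine ⟨(1, i), -1, by norm_num, Or.inl ⟨?_, ?_⟩⟩
      · show val S _ _ (Sum.inl (Sum.inr (2, i))) = _
        rw [sep1_A2]
        simp
      · show val S _ _ (Sum.inl (Sum.inr (0, i))) = _
        rw [sep1_A0]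
        simp
    · refine ⟨(0, i), y i, hy i, Or.inl ⟨?_, ?_⟩⟩
      · show val S _ _ (Sum.inl (Sum.inr (2, i))) = _
        rw [sep1_A2]
        simp [mul_comm]
      · show val S _ _ (Sum.inl (Sum.inr (1, i))) = _
        rw [sep1_A1]
        simp
    · exact absurd rfl hjj
  · have h0 : ∀ q : Fin 2, val S (fun i => algebraMap F (RatFun Unit F) (y i))
        (sep1_A S τ (q, i)) (Sum.inl (Sum.inr (j', i'))) = 0 := by
      intro q
      have hne : ∀ q' : Fin 2, (q', i') ≠ (q, i) := fun q' h => hi (Prod.ext_iff.1 h).2.symm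
      fin_cases j'
      · show val S _ _ (Sum.inl (Sum.inr (0, i'))) = _
        rw [sep1_A0, if_neg (hne 0)]
      · show val S _ _ (Sum.inl (Sum.inr (1, i'))) = _
        rw [sep1_A1, if_neg (hne 1)]
      · show val S _ _ (Sum.inl (Sum.inr (2, i'))) = _
        rw [sep1_A2, if_neg (hne 0), if_neg (hne 1), zero_mul, sub_zero]
    fin_cases j
    · refine ⟨(0, i), 1, one_ne_zero, Or.inl ⟨?_, h0 0⟩⟩
      show val S _ _ (Sum.inl (Sum.inr (0, i))) = _
      rw [sep1_A0]
      simp
    · refine ⟨(1, i), 1, one_ne_zero, Or.inl ⟨?_, h0 1⟩⟩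
      show val S _ _ (Sum.inl (Sum.inr (1, i))) = _
      rw [sep1_A1]
      simp
    · refine ⟨(1, i), -1, by norm_num, Or.inl ⟨?_, h0 1⟩⟩
      show val S _ _ (Sum.inl (Sum.inr (2, i))) = _
      rw [sep1_A2]
      simp

/-- Every data wire is an affine function. -/
private theorem sep1_one (τ : RatFun Unit F) (j : Fin 3 × I) :
    ∃ (q₀ : Fin 2 × I) (α : F), α ≠ 0 ∧
      val S (fun i => algebraMap F (RatFun Unit F) (y i)) (sep1_A S τ q₀)
          (Sum.inl (Sum.inr j)) = algebraMap F (RatFun Unit F) α * τ := by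
  classical
  obtain ⟨j, i⟩ := j
  fin_cases j
  · refine ⟨(0, i), 1, one_ne_zero, ?_⟩
    show val S _ _ (Sum.inl (Sum.inr (0, i))) = _
    rw [sep1_A0]
    simp
  · refine ⟨(1, i), 1, one_ne_zero, ?_⟩
    show val S _ _ (Sum.inl (Sum.inr (1, i))) = _
    rw [sep1_A1]
    simp
  · refine ⟨(1, i), -1, by norm_num, ?_⟩
    show val S _ _ (Sum.inl (Sum.inr (2, i))) = _
    rw [sep1_A2]
    simp

/-- Sep1: no wire is CM. -/
theorem gval_not_isCM (h : ModAx) (hy : ∀ i, ¬ IsCM (y i)) (w : WI S) :
    ¬ IsCM (gval S y w) := by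
  intro hcm
  rcases w with (i | j) | x
  · exact hy i ((isCM_algebraMap (k := F) (L := F) (y i)).1
      (isCM_val S y _ hcm (M := F) fun _ => 0))
  · obtain ⟨q₀, α, hα, hval⟩ := sep1_one S y (rvar F ()) j
    have h3 := isCM_val S y _ hcm (M := RatFun Unit F) (sep1_A S (rvar F ()) q₀)
    rw [hval] at h3
    refine not_isCM_aff h (rvar F ()) (sep1_tr F) α 0 hα ?_
    rw [map_zero, add_zero]
    exact h3
  · obtain ⟨a, c, α, β, hα, -, hval⟩ := sep1_rest S y (rvar F ()) x
    have h3 := isCM_val S y _ hcm (M := RatFun Unit F) c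
    rw [hval] at h3
    exact not_isCM_aff h (rvar F ()) (sep1_tr F) α β hα h3

/-- Sep1: the wires `y_i`, `a_i`, `b_i`, `z_i` and all others. -/
theorem gval_sep_data (h : ModAx) (hy : ∀ i, ¬ IsCM (y i))
    (hy2 : ∀ i j, Isog (y i) (y j) → i = j) (w : I ⊕ (Fin 3 × I)) (w' : WI S)
    (hw : Isog (gval S y (Sum.inl w)) (gval S y w')) : Sum.inl w = w' := by
  have hy0 : ∀ i, y i ≠ 0 := fun i h0 => hy i (by rw [h0]; exact h.cm_zero F)
  have hconst : ∀ (c : UI S → RatFun Unit F) (i : I),
      val S (fun i => algebraMap F (RatFun Unit F) (y i)) c (Sum.inl (Sum.inl i)) =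
        algebraMap F (RatFun Unit F) (y i) := fun _ _ => rfl
  rcases w with i | j
  · rcases w' with (i' | j') | x
    · have h3 := isog_val S y _ _ hw (M := F) fun _ => 0
      rw [hy2 i i' ((isog_algebraMap (k := F) (L := F) (y i) (y i')).1 h3)]
    · exfalso
      obtain ⟨q₀, α, hα, hval⟩ := sep1_one S y (rvar F ()) j'
      have h3 := isog_val S y _ _ hw (M := RatFun Unit F) (sep1_A S (rvar F ()) q₀)
      rw [hval, hconst] at h3
      refine not_isog_const h (rvar F ()) (sep1_tr F) α 0 (y i) hα ?_
      rw [map_zero, add_zero]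
      exact isog_symm h h3
    · exfalso
      obtain ⟨a, c, α, β, hα, -, hval⟩ := sep1_rest S y (rvar F ()) x
      have h3 := isog_val S y _ _ hw (M := RatFun Unit F) c
      rw [hval, hconst] at h3
      exact not_isog_const h (rvar F ()) (sep1_tr F) α β (y i) hα (isog_symm h h3)
  · rcases w' with (i' | j') | x
    · exfalso
      obtain ⟨q₀, α, hα, hval⟩ := sep1_one S y (rvar F ()) j
      have h3 := isog_val S y _ _ hw (M := RatFun Unit F) (sep1_A S (rvar F ()) q₀)
      rw [hval, hconst] at h3
      refine not_isog_const h (rvar F ()) (sep1_tr F) α 0 (y i') hα ?_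
      rw [map_zero, add_zero]
      exact h3
    · by_cases hj : j = j'
      · rw [hj]
      exfalso
      obtain ⟨q₀, α, hα, hval | hval⟩ := sep1_data S y (rvar F ()) hy0 j j' hj
      · have h3 := isog_val S y _ _ hw (M := RatFun Unit F) (sep1_A S (rvar F ()) q₀)
        rw [hval.1, hval.2] at h3
        refine not_isog_const h (rvar F ()) (sep1_tr F) α 0 0 hα ?_
        rw [map_zero, add_zero]
        exact h3
      · have h3 := isog_val S y _ _ hw (M := RatFun Unit F) (sep1_A S (rvar F ()) q₀)
        rw [hval.1, hval.2] at h3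
        refine not_isog_const h (rvar F ()) (sep1_tr F) α 0 0 hα ?_
        rw [map_zero, add_zero]
        exact isog_symm h h3
    · exfalso
      obtain ⟨a, c, α, β, hα, hc, hval⟩ := sep1_rest S y (rvar F ()) x
      have h3 := isog_val S y _ _ hw (M := RatFun Unit F) c
      have h4 : val S (fun i => algebraMap F (RatFun Unit F) (y i)) c (Sum.inl (Sum.inr j)) =
          algebraMap F (RatFun Unit F) (fv y a j) := by
        rw [← sep1_fv]
        exact congrArg (fun z => fv (fun i => algebraMap F (RatFun Unit F) (y i)) z j) (funext hc)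
      rw [hval, h4] at h3
      exact not_isog_const h (rvar F ()) (sep1_tr F) α β _ hα (isog_symm h h3)

end P6

end Pool.Agent.Lib.MP_a325a5_ag.PM
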