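import Pool.Agent.Lib.MP_a325a5_ag.PM.Sep
import Pool.Agent.Lib.MP_a325a5_ag.MU.YBasic

/-! The partial sums are pairwise not isogenous, and not isogenous to the wires of the chains: give
one of the new variables the value `t` (a transcendental element) and the others constant values. -/

set_option autoImplicit false

namespace Pool.Agent.Lib.MP_a325a5_ag.PM

open MvPolynomial UM UL MU

section P6

variable {I : Type} [Fintype I] (S : Sys (Fin 3 × I))

private theorem sep2_tr (F : Type) [Field F] : Transcendental F (rvar F () : RatFun Unit F) := by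
  unfold rvar
  have h1 : Transcendental F (X () : MvPolynomial Unit F) := MvPolynomial.transcendental_X F ()
  exact (transcendental_algebraMap_iff (FaithfulSMul.algebraMap_injective _ _)).2 h1

omit [Fintype I] in
private theorem sep2_fv {A B : Type} [CommRing A] [CommRing B] (φ : A →+* B) (y : I → A)
    (c : Fin 2 × I → A) (j : Fin 3 × I) :
    fv (fun i => φ (y i)) (fun q => φ (c q)) j = φ (fv y c j) := by
  obtain ⟨j, i⟩ := j
  fin_cases j <;> simp [fv]

private theorem sep2_mon {A B : Type} [CommRing A] [CommRing B] (φ : A →+* B)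
    (v : Fin 3 × I → A) (t : Σ b : S.B, Fin (S.m b + 1)) :
    mon S (fun j => φ (v j)) t = φ (mon S v t) := by
  simp only [mon, map_prod, map_pow]

private theorem sep2_prt {A B : Type} [CommRing A] [CommRing B] (φ : A →+* B)
    (v : Fin 3 × I → A) (b : S.B) (l : Fin (S.m b + 1)) :
    prt S (fun j => φ (v j)) b l = φ (prt S v b l) := by
  simp only [prt, map_sum, map_mul, map_intCast, sep2_mon]

/-- Constant values. -/
private theorem sep2_cst {A B : Type} [CommRing A] [CommRing B] (φ : A →+* B) (y : I → A)
    (c : Fin 2 × I → A) (b : S.B) (l : Fin (S.m b + 1)) :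
    prt S (fv (fun i => φ (y i)) (fun q => φ (c q))) b l = φ (prt S (fv y c) b l) := by
  rw [← sep2_prt]
  congr 1
  funext j
  exact sep2_fv φ y c j

/-- The partial sums as polynomials. -/
private theorem sep2_part {F : Type} [Field F] (y : I → F) (b : S.B) (l : Fin (S.m b + 1)) :
    S.part (fyu y) b l = algebraMap (MvPolynomial (Fin 2 × I) F) (RatFun (Fin 2 × I) F)
      (prt S (fv (fun i => C (y i)) X) b l) := by
  rw [← sep2_cst]
  unfold Sys.part prt
  refine Finset.sum_congr rfl fun l' _ => ?_
  unfold Sys.term sgnUnit mon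
  rw [Units.val_mul, Units.coe_prod]
  rfl

variable {F : Type} [Field F] [CharZero F] (y : I → F)

/-- Sep2: the partial sums. -/
theorem gval_sep_sum (h : ModAx) (h2 : ModAx2)
    (hdist : ∀ b l l', S.part (fyu y) b l = S.part (fyu y) b l' → l = l')
    (t t' : TI S) (hw : Isog (gval S y (Sum.inr (Sum.inl t))) (gval S y (Sum.inr (Sum.inl t')))) :
    t = t' := by
  classical
  obtain ⟨b, l⟩ := t
  obtain ⟨b', l'⟩ := t'
  obtain ⟨τ, hτ⟩ : ∃ τ : RatFun Unit F, τ = rvar F () := ⟨_, rfl⟩
  have hτt : Transcendental F τ := by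
    rw [hτ]
    exact sep2_tr F
  by_cases hb : b = b'
  · subst hb
    by_cases hl : l = l'
    · rw [hl]
    exfalso
    obtain ⟨a, ha⟩ : ∃ a : Fin 2 × I → F, prt S (fv y a) b l ≠ prt S (fv y a) b l' := by
      by_contra! hall
      apply hl
      apply hdist b l l'
      rw [sep2_part, sep2_part]
      congr 1
      apply MvPolynomial.funext
      intro a
      have h1 : ∀ l, eval a (prt S (fv (fun i => C (y i)) X) b l) = prt S (fv y a) b l := by
        intro l
        rw [← sep2_cst]
        simp only [eval_C, eval_X]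
      rw [h1, h1, hall a]
    have h3 := isog_val S y _ _ hw (M := RatFun Unit F)
      (Sum.elim (fun q => algebraMap F (RatFun Unit F) (a q)) (Sum.elim (fun _ => τ) fun _ => 0))
    refine not_isog_aff h2 τ hτt 1 (prt S (fv y a) b l) 1 (prt S (fv y a) b l') one_ne_zero
      one_ne_zero (fun h4 => ha h4.2) ?_
    rw [map_one, one_mul, ← sep2_cst, ← sep2_cst]
    exact h3
  · exfalso
    have h3 := isog_val S y _ _ hw (M := RatFun Unit F)
      (Sum.elim (fun q => algebraMap F (RatFun Unit F) 0)
        (Sum.elim (fun b₀ => if b₀ = b then τ else 0) fun _ => 0))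
    refine not_isog_const h τ hτt 1 (prt S (fv y fun _ => 0) b l) (prt S (fv y fun _ => 0) b' l')
      one_ne_zero ?_
    rw [map_one, one_mul, ← sep2_cst, ← sep2_cst]
    have h4 : ∀ b₀ l₀, val S (fun i => algebraMap F (RatFun Unit F) (y i))
        (Sum.elim (fun q => algebraMap F (RatFun Unit F) 0)
        (Sum.elim (fun b₀ => if b₀ = b then τ else 0) fun _ => 0)) (Sum.inr (Sum.inl ⟨b₀, l₀⟩)) =
        (if b₀ = b then τ else 0) + prt S (fv (fun i => algebraMap F (RatFun Unit F) (y i))
          (fun _ => algebraMap F (RatFun Unit F) 0)) b₀ l₀ := fun _ _ => rfl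
    rw [h4, h4, if_pos rfl, if_neg (Ne.symm hb), zero_add] at h3
    exact h3

/-- Sep2: a partial sum and a wire of a chain. -/
theorem gval_sep_mixed (h : ModAx) (t : TI S) (t' : Σ t : TI S, Option (Fin (dg S t + 1))) :
    ¬ Isog (gval S y (Sum.inr (Sum.inl t))) (gval S y (Sum.inr (Sum.inr t'))) := by
  classical
  intro hw
  obtain ⟨b, l⟩ := t
  obtain ⟨t', m⟩ := t'
  obtain ⟨τ, hτ⟩ : ∃ τ : RatFun Unit F, τ = rvar F () := ⟨_, rfl⟩
  have hτt : Transcendental F τ := by
    rw [hτ]
    exact sep2_tr F
  -- the values of `a_i`, `b_i`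
  obtain ⟨a, ha⟩ : ∃ a : Fin 2 × I → F, ∀ j, fv y a j ≠ 0 := by
    refine ⟨fun q => if q.1 = 0 then 1 else if y q.2 = 1 then 2 else 1, fun j => ?_⟩
    obtain ⟨j, i⟩ := j
    fin_cases j
    · simp [fv]
    · show (if (1 : Fin 2) = 0 then (1 : F) else if y i = 1 then 2 else 1) ≠ 0
      rw [if_neg (by decide)]
      split_ifs
      · exact two_ne_zero
      · exact one_ne_zero
    · show (if (0 : Fin 2) = 0 then (1 : F) else if y i = 1 then 2 else 1) * y i -
        (if (1 : Fin 2) = 0 then (1 : F) else if y i = 1 then 2 else 1) ≠ 0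
      rw [if_pos rfl, if_neg (by decide), one_mul]
      split_ifs with h1
      · rw [h1]
        norm_num
      · exact sub_ne_zero.2 h1
  obtain ⟨σ, hσ⟩ : ∃ σ : F, σ = 1 - prt S (fv y a) t'.1 (lo S t').2 := ⟨_, rfl⟩
  have h3 := isog_val S y _ _ hw (M := RatFun Unit F)
    (Sum.elim (fun q => algebraMap F (RatFun Unit F) (a q))
      (Sum.elim (fun _ => algebraMap F (RatFun Unit F) σ) fun _ => τ))
  have h4 : val S (fun i => algebraMap F (RatFun Unit F) (y i))
      (Sum.elim (fun q => algebraMap F (RatFun Unit F) (a q))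
      (Sum.elim (fun _ => algebraMap F (RatFun Unit F) σ) fun _ => τ)) (Sum.inr (Sum.inl ⟨b, l⟩)) =
      algebraMap F (RatFun Unit F) (σ + prt S (fv y a) b l) := by
    rw [map_add, ← sep2_cst]
    rfl
  rw [h4] at h3
  cases m with
  | some m =>
    have h5 : val S (fun i => algebraMap F (RatFun Unit F) (y i))
        (Sum.elim (fun q => algebraMap F (RatFun Unit F) (a q))
        (Sum.elim (fun _ => algebraMap F (RatFun Unit F) σ) fun _ => τ))
        (Sum.inr (Sum.inr ⟨t', some m⟩)) =
        algebraMap F (RatFun Unit F) (∏ i ∈ Finset.univ.filter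
          (fun i : Fin (dg S t') => i.castSucc < m), fv y a (fac S t' i)) * τ +
          algebraMap F (RatFun Unit F) 0 := by
      rw [map_prod, map_zero, add_zero, mul_comm]
      show τ * _ = τ * _
      congr 1
      refine Finset.prod_congr rfl fun i _ => ?_
      exact sep2_fv (algebraMap F (RatFun Unit F)) y a _
    rw [h5] at h3
    exact not_isog_const h τ hτt _ _ _ (Finset.prod_ne_zero_iff.2 fun i _ => ha _)
      (isog_symm h h3)
  | none =>
    have h5 : val S (fun i => algebraMap F (RatFun Unit F) (y i))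
        (Sum.elim (fun q => algebraMap F (RatFun Unit F) (a q))
        (Sum.elim (fun _ => algebraMap F (RatFun Unit F) σ) fun _ => τ))
        (Sum.inr (Sum.inr ⟨t', none⟩)) =
        algebraMap F (RatFun Unit F) 1 * τ + algebraMap F (RatFun Unit F) 0 := by
      have h6 : algebraMap F (RatFun Unit F) σ +
          algebraMap F (RatFun Unit F) (prt S (fv y a) t'.1 (lo S t').2) = 1 := by
        rw [← map_add, hσ, sub_add_cancel, map_one]
      have h7 : algebraMap F (RatFun Unit F) σ + prt S (fv (fun i => algebraMap F (RatFun Unit F) (y i))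
        (fun q => algebraMap F (RatFun Unit F) (a q))) t'.1 (lo S t').2 = 1 :=
        (congrArg (fun x => algebraMap F (RatFun Unit F) σ + x)
          (sep2_cst S (algebraMap F (RatFun Unit F)) y a t'.1 (lo S t').2)).trans h6
      have h8 : τ * (algebraMap F (RatFun Unit F) σ +
        prt S (fv (fun i => algebraMap F (RatFun Unit F) (y i))
        (fun q => algebraMap F (RatFun Unit F) (a q))) t'.1 (lo S t').2) = τ :=
        (congrArg (fun x => τ * x) h7).trans (mul_one τ)
      rw [map_one, one_mul, map_zero, add_zero]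
      exact h8
    rw [h5] at h3
    exact not_isog_const h τ hτt _ _ _ one_ne_zero (isog_symm h h3)

end P6

end Pool.Agent.Lib.MP_a325a5_ag.PM
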