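import Pool.Agent.Lib.MP_a325a5_ag.PM.Sep

/-! P6c: the wires of the chains are pairwise not isogenous. -/

set_option autoImplicit false

namespace Pool.Agent.Lib.MP_a325a5_ag.PM

open MvPolynomial UM UL MU

section P6c

variable {I : Type} [Fintype I] (S : Sys (Fin 3 × I)) {F : Type} [Field F] [CharZero F] (y : I → F)

omit [Fintype I] in
private theorem sc_fv {A B : Type} [CommRing A] [CommRing B] (φ : A →+* B) (y : I → A)
    (c : Fin 2 × I → A) (j : Fin 3 × I) :
    fv (fun i => φ (y i)) (fun q => φ (c q)) j = φ (fv y c j) := by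
  obtain ⟨j, i⟩ := j
  fin_cases j
  · rfl
  · rfl
  · show φ (c (0, i)) * φ (y i) - φ (c (1, i)) = φ (c (0, i) * y i - c (1, i))
    rw [map_sub, map_mul]

private theorem sc_prt {A B : Type} [CommRing A] [CommRing B] (φ : A →+* B)
    (v : Fin 3 × I → A) (b : S.B) (l : Fin (S.m b + 1)) :
    prt S (fun j => φ (v j)) b l = φ (prt S v b l) := by
  unfold prt mon
  rw [map_sum]
  refine Finset.sum_congr rfl fun l' _ => ?_
  rw [map_mul, map_intCast, map_prod]
  congr 1
  refine Finset.prod_congr rfl fun j _ => ?_
  rw [map_pow]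

/-- values of `a_i`, `b_i`: `s` and `s β_i` -/
private def scc (s : F) (β : I → F) (q : Fin 2 × I) : F := ![s, s * β q.2] q.1

omit [Fintype I] [CharZero F] in
private theorem scc_fv (s : F) (β : I → F) (j : Fin 3 × I) :
    fv y (scc s β) j = s * ![1, β j.2, y j.2 - β j.2] j.1 := by
  obtain ⟨j, i⟩ := j
  fin_cases j
  · show s = s * 1
    ring
  · rfl
  · show s * y i - s * β i = s * (y i - β i)
    ring

omit [Fintype I] in
private theorem sc_base : ∃ β : I → F, ∀ i, β i ≠ 0 ∧ y i - β i ≠ 0 := by
  classical
  refine ⟨fun i => if y i = 1 then 2 else 1, fun i => ?_⟩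
  by_cases h : y i = 1
  · simp only [h, if_true]
    refine ⟨two_ne_zero, ?_⟩
    norm_num
  · simp only [h, if_false]
    exact ⟨one_ne_zero, sub_ne_zero.mpr h⟩

/-- the values of `a, b`: constants; of `s`: the element `σ`; of `u`: the function `μ` -/
private noncomputable def sca {M : Type} [Field M] [Algebra F M] (c : Fin 2 × I → F)
    (σ : M) (μ : TI S → M) : UI S → M
  | Sum.inl q => algebraMap F M (c q)
  | Sum.inr (Sum.inl _) => σ
  | Sum.inr (Sum.inr t) => μ t

omit [CharZero F] in
private theorem sca_some {M : Type} [Field M] [Algebra F M] (c : Fin 2 × I → F) (σ : M)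
    (μ : TI S → M) (t : TI S) (m : Fin (dg S t + 1)) :
    val S (fun i => algebraMap F M (y i)) (sca S c σ μ) (Sum.inr (Sum.inr ⟨t, some m⟩)) =
      μ t * algebraMap F M (∏ i ∈ Finset.univ.filter (fun i : Fin (dg S t) => i.castSucc < m),
        fv y c (fac S t i)) := by
  show μ t * ∏ i ∈ Finset.univ.filter (fun i : Fin (dg S t) => i.castSucc < m),
        fv (fun i => algebraMap F M (y i)) (fun q => algebraMap F M (c q)) (fac S t i) = _
  rw [map_prod]
  congr 1
  refine Finset.prod_congr rfl fun i _ => ?_
  exact sc_fv (algebraMap F M) y c _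

omit [CharZero F] in
private theorem sca_none {M : Type} [Field M] [Algebra F M] (c : Fin 2 × I → F) (σ : M)
    (μ : TI S → M) (t : TI S) :
    val S (fun i => algebraMap F M (y i)) (sca S c σ μ) (Sum.inr (Sum.inr ⟨t, none⟩)) =
      μ t * (σ + algebraMap F M (prt S (fv y c) t.1 (lo S t).2)) := by
  have e : (fv (fun i => algebraMap F M (y i)) (fun q => algebraMap F M (c q))) =
      fun j => algebraMap F M (fv y c j) := funext fun j => sc_fv (algebraMap F M) y c j
  have h : prt S (fv (fun i => algebraMap F M (y i)) (fun q => algebraMap F M (c q)))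
      t.1 (lo S t).2 = algebraMap F M (prt S (fv y c) t.1 (lo S t).2) := by
    rw [e]
    exact sc_prt S (algebraMap F M) (fv y c) t.1 (lo S t).2
  exact congrArg (fun x => μ t * (σ + x)) h

omit [CharZero F] in
private theorem sc_tr : Transcendental F (rvar F () : RatFun Unit F) := by
  unfold rvar
  rw [transcendental_algebraMap_iff (IsFractionRing.injective (MvPolynomial Unit F)
    (RatFun Unit F))]
  exact MvPolynomial.transcendental_X F ()

/-- Sep3: the wires of the chains. -/
theorem gval_sep_chain (h : ModAx) (h2 : ModAx2) (hy : ∀ i, ¬ IsCM (y i))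
    (t t' : Σ t : TI S, Option (Fin (dg S t + 1)))
    (hw : Isog (gval S y (Sum.inr (Sum.inr t))) (gval S y (Sum.inr (Sum.inr t')))) : t = t' := by
  classical
  clear hy
  have : CharZero (RatFun Unit F) := charZero_of_injective_algebraMap
    (algebraMap F (RatFun Unit F)).injective
  obtain ⟨β, hβ⟩ := sc_base y
  have htr := sc_tr (F := F)
  set X : RatFun Unit F := rvar F () with hX
  have hne : ∀ s : F, s ≠ 0 → ∀ j, fv y (scc s β) j ≠ 0 := by
    intro s hs j
    rw [scc_fv]
    refine mul_ne_zero hs ?_
    obtain ⟨j, i⟩ := j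
    fin_cases j
    · exact one_ne_zero
    · exact (hβ i).1
    · exact (hβ i).2
  have hP : ∀ (s : F), s ≠ 0 → ∀ (t : TI S) (m : Fin (dg S t + 1)),
      ∏ i ∈ Finset.univ.filter (fun i : Fin (dg S t) => i.castSucc < m),
        fv y (scc s β) (fac S t i) ≠ 0 := fun s hs t m =>
    Finset.prod_ne_zero_iff.mpr fun i _ => hne s hs _
  obtain ⟨t, o⟩ := t
  obtain ⟨t', o'⟩ := t'
  by_cases htt : t = t'
  · subst htt
    -- the same chain
    have hsame : ∀ m : Fin (dg S t + 1),
        ¬ Isog (gval S y (Sum.inr (Sum.inr ⟨t, none⟩))) (gval S y (Sum.inr (Sum.inr ⟨t, some m⟩))) := by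
      intro m hw
      have h1 := isog_val S y _ _ hw (sca S (scc 1 β) X (fun _ => 1))
      rw [sca_none, sca_some, one_mul, one_mul] at h1
      refine not_isog_const h X htr 1 (prt S (fv y (scc 1 β)) t.1 (lo S t).2)
        (∏ i ∈ Finset.univ.filter (fun i : Fin (dg S t) => i.castSucc < m),
          fv y (scc 1 β) (fac S t i)) one_ne_zero ?_
      rw [map_one, one_mul]
      exact h1
    have hlt : ∀ m m' : Fin (dg S t + 1), m < m' →
        ¬ Isog (gval S y (Sum.inr (Sum.inr ⟨t, some m⟩)))
          (gval S y (Sum.inr (Sum.inr ⟨t, some m'⟩))) := by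
      intro m m' hm hw
      -- a good scaling factor
      obtain ⟨s, hs, hsm⟩ : ∃ s : F, s ≠ 0 ∧
          ∏ i ∈ Finset.univ.filter (fun i : Fin (dg S t) => i.castSucc < m),
            fv y (scc s β) (fac S t i) ≠
          ∏ i ∈ Finset.univ.filter (fun i : Fin (dg S t) => i.castSucc < m'),
            fv y (scc s β) (fac S t i) := by
        by_contra hcon
        push Not at hcon
        have e1 := hcon 1 one_ne_zero
        have e2 := hcon 2 two_ne_zero
        simp only [scc_fv, Finset.prod_mul_distrib, Finset.prod_const, one_mul] at e1 e2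
        rw [← e1] at e2
        have hn : ∏ i ∈ Finset.univ.filter (fun i : Fin (dg S t) => i.castSucc < m),
            ![1, β (fac S t i).2, y (fac S t i).2 - β (fac S t i).2] (fac S t i).1 ≠ 0 := by
          have h3 := hP 1 one_ne_zero t m
          simp only [scc_fv, one_mul] at h3
          exact h3
        have e3 := mul_right_cancel₀ hn e2
        have e4 : ((2 ^ (Finset.univ.filter
            (fun i : Fin (dg S t) => i.castSucc < m)).card : ℕ) : F) =
            ((2 ^ (Finset.univ.filter
            (fun i : Fin (dg S t) => i.castSucc < m')).card : ℕ) : F) := by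
          push_cast
          exact e3
        have e5 := Nat.pow_right_injective (le_refl 2) (Nat.cast_injective e4)
        have e6 : (Finset.univ.filter (fun i : Fin (dg S t) => i.castSucc < m)).card <
            (Finset.univ.filter (fun i : Fin (dg S t) => i.castSucc < m')).card := by
          apply Finset.card_lt_card
          rw [Finset.ssubset_iff_of_subset]
          · have h4 : (m : ℕ) < dg S t := by
              have h5 := m'.2
              have h6 : (m : ℕ) < (m' : ℕ) := hm
              omega
            refine ⟨⟨m, h4⟩, ?_, ?_⟩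
            · rw [Finset.mem_filter]
              exact ⟨Finset.mem_univ _, hm⟩
            · rw [Finset.mem_filter]
              rintro ⟨_, h7⟩
              exact lt_irrefl (m : ℕ) h7
          · intro i hi
            rw [Finset.mem_filter] at hi ⊢
            exact ⟨hi.1, hi.2.trans hm⟩
        exact absurd e5 (ne_of_lt e6)
      have h1 := isog_val S y _ _ hw (sca S (scc s β) 0 (fun _ => X))
      rw [sca_some, sca_some] at h1
      refine not_isog_aff h2 X htr _ 0 _ 0 (hP s hs t m) (hP s hs t m') (fun h => hsm h.1) ?_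
      rw [map_zero, add_zero, add_zero, mul_comm, mul_comm _ X]
      exact h1
    rcases o with _ | m
    · rcases o' with _ | m'
      · rfl
      · exact absurd hw (hsame m')
    · rcases o' with _ | m'
      · exact absurd (isog_symm h hw) (hsame m)
      · rcases lt_trichotomy m m' with hm | hm | hm
        · exact absurd hw (hlt m m' hm)
        · rw [hm]
        · exact absurd (isog_symm h hw) (hlt m' m hm)
  · exfalso
    -- different chains
    set σ : F := 1 - prt S (fv y (scc 1 β)) t.1 (lo S t).2 with hσ
    set μ : TI S → RatFun Unit F := fun t'' => if t'' = t then X else 1 with hμ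
    have hμ1 : μ t = X := if_pos rfl
    have hμ2 : μ t' = 1 := if_neg (fun e => htt e.symm)
    have h1 := isog_val S y _ _ hw (sca S (scc 1 β) (algebraMap F _ σ) μ)
    obtain ⟨a, ha, hva⟩ : ∃ a : F, a ≠ 0 ∧
        val S (fun i => algebraMap F (RatFun Unit F) (y i))
          (sca S (scc 1 β) (algebraMap F _ σ) μ) (Sum.inr (Sum.inr ⟨t, o⟩)) =
          algebraMap F _ a * X + algebraMap F _ 0 := by
      rcases o with _ | m
      · refine ⟨1, one_ne_zero, ?_⟩
        rw [sca_none, hμ1, hσ, ← map_add, sub_add_cancel, map_one, map_zero]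
        ring
      · refine ⟨_, hP 1 one_ne_zero t m, ?_⟩
        rw [sca_some, hμ1, map_zero]
        ring
    obtain ⟨c, hvc⟩ : ∃ c : F,
        val S (fun i => algebraMap F (RatFun Unit F) (y i))
          (sca S (scc 1 β) (algebraMap F _ σ) μ) (Sum.inr (Sum.inr ⟨t', o'⟩)) =
          algebraMap F _ c := by
      rcases o' with _ | m
      · refine ⟨σ + prt S (fv y (scc 1 β)) t'.1 (lo S t').2, ?_⟩
        rw [sca_none, hμ2, map_add, one_mul]
      · refine ⟨∏ i ∈ Finset.univ.filter (fun i : Fin (dg S t') => i.castSucc < m),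
            fv y (scc 1 β) (fac S t' i), ?_⟩
        rw [sca_some, hμ2, one_mul]
    rw [hva, hvc] at h1
    exact not_isog_const h X htr a 0 c ha h1

end P6c

end Pool.Agent.Lib.MP_a325a5_ag.PM
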