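import Pool.Agent.Lib.MP_a325a5_ag.PM.Val
import Pool.Agent.Lib.MP_a325a5_ag.PM.Sep1
import Pool.Agent.Lib.MP_a325a5_ag.PM.Sep2
import Pool.Agent.Lib.MP_a325a5_ag.PM.Sep3
import Pool.Agent.Lib.MP_a325a5_ag.MU.YCls

/-! P7: the number of isogeny classes of the generic configuration (helper51). -/

set_option autoImplicit false

namespace Pool.Agent.Lib.MP_a325a5_ag.PM

open MvPolynomial UM UL MU


section P7

variable {I : Type} [Fintype I] (S : Sys (Fin 3 × I))

private theorem nyt_rcst {U E : Type} [Field E] (c : E) :
    rcst U c = algebraMap E (RatFun U E) c := by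
  unfold rcst
  rw [← MvPolynomial.algebraMap_eq, ← IsScalarTower.algebraMap_apply]

private theorem nyt_none {E : Type} [Field E] (y : I → E) {p : Fin 4 × DI S}
    (hp : net S p = none) : (thp S y).1 p = 0 := by
  show (net S p).elim 0 (gval S y) = 0
  rw [hp]
  rfl

private theorem nyt_some {E : Type} [Field E] (y : I → E) {p : Fin 4 × DI S} {w : WI S}
    (hp : net S p = some w) : (thp S y).1 p = gval S y w := by
  show (net S p).elim 0 (gval S y) = gval S y w
  rw [hp]
  rfl

/-- Upper bound, for all data. -/
theorem ny_thp_le (h : ModAx) {E : Type} [Field E] [CharZero E] (y : I → E) :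
    ny (thp S y).1 + Fintype.card I ≤ ny y + Fintype.card (WI S) := by
  classical
  obtain ⟨R, hR, -, -, h3⟩ := ny_spec h y
  choose pos hpos using net_surj S
  let g : R ⊕ ((Fin 3 × I) ⊕ (TI S ⊕ (Σ t : TI S, Option (Fin (dg S t + 1))))) →
      Fin 4 × DI S := fun r => pos (Sum.elim (fun r : R => Sum.inl (Sum.inl r.1))
        (Sum.elim (fun j => Sum.inl (Sum.inr j)) Sum.inr) r)
  have h4 := ny_le_card h (thp S y).1 (Finset.univ.image g) (by
    intro p hp
    rcases hnp : net S p with _ | w
    · rw [nyt_none S y hnp] at hp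
      exact absurd (h.cm_zero _) hp
    · rcases w with (i | j) | w
      · have hv : (thp S y).1 p = algebraMap E _ (y i) := by
          rw [nyt_some S y hnp]
          exact nyt_rcst _
        rw [hv, isCM_algebraMap] at hp
        obtain ⟨r, hr, hri⟩ := h3 i hp
        refine ⟨g (Sum.inl ⟨r, hr⟩), Finset.mem_image_of_mem _ (Finset.mem_univ _), ?_⟩
        have hw : (thp S y).1 (g (Sum.inl ⟨r, hr⟩)) = algebraMap E _ (y r) := by
          have h7 := nyt_some S y (p := g (Sum.inl ⟨r, hr⟩)) (hpos (Sum.inl (Sum.inl r)))
          rw [h7]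
          exact nyt_rcst _
        rw [hv, hw, isog_algebraMap]
        exact hri
      · refine ⟨g (Sum.inr (Sum.inl j)), Finset.mem_image_of_mem _ (Finset.mem_univ _), ?_⟩
        have h7 := nyt_some S y (p := g (Sum.inr (Sum.inl j))) (hpos (Sum.inl (Sum.inr j)))
        rw [nyt_some S y hnp, h7]
        exact isog_refl h _
      · refine ⟨g (Sum.inr (Sum.inr w)), Finset.mem_image_of_mem _ (Finset.mem_univ _), ?_⟩
        have h7 := nyt_some S y (p := g (Sum.inr (Sum.inr w))) (hpos (Sum.inr w))
        rw [nyt_some S y hnp, h7]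
        exact isog_refl h _)
  have h5 : (Finset.univ.image g).card ≤
      Fintype.card (R ⊕ ((Fin 3 × I) ⊕ (TI S ⊕ (Σ t : TI S, Option (Fin (dg S t + 1)))))) := by
    refine Finset.card_image_le.trans ?_
    rw [Finset.card_univ]
  have h6 : Fintype.card (WI S) =
      (Fintype.card I + Fintype.card (Fin 3 × I)) +
        Fintype.card (TI S ⊕ (Σ t : TI S, Option (Fin (dg S t + 1)))) := by
    unfold WI
    rw [Fintype.card_sum, Fintype.card_sum]
  rw [Fintype.card_sum, Fintype.card_sum, Fintype.card_coe, hR] at h5
  omega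

/-- Equality, for good data. -/
theorem ny_thp (h : ModAx) (h2 : ModAx2) {F : Type} [Field F] [CharZero F] (y : I → F)
    (hy : ∀ i, ¬ IsCM (y i)) (hy2 : ∀ i j, Isog (y i) (y j) → i = j)
    (hdist : ∀ b l l', S.part (fyu y) b l = S.part (fyu y) b l' → l = l') :
    ny (thp S y).1 = Fintype.card (WI S) := by
  classical
  choose pos hpos using net_surj S
  have hinj : Function.Injective pos := by
    intro w w' hw
    have h3 := hpos w
    rw [hw, hpos w'] at h3
    exact (Option.some.inj h3).symm
  have hsep : ∀ w w' : WI S, Isog (gval S y w) (gval S y w') → w = w' := by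
    intro w w' hw
    rcases w with w | w | w
    · exact gval_sep_data S y h hy hy2 w w' hw
    · rcases w' with w' | w' | w'
      · exact (gval_sep_data S y h hy hy2 w' _ (isog_symm h hw)).symm
      · rw [gval_sep_sum S y h h2 hdist w w' hw]
      · exact absurd hw (gval_sep_mixed S y h w w')
    · rcases w' with w' | w' | w'
      · exact (gval_sep_data S y h hy hy2 w' _ (isog_symm h hw)).symm
      · exact absurd (isog_symm h hw) (gval_sep_mixed S y h w' w)
      · rw [gval_sep_chain S y h h2 hy w w' hw]
  apply le_antisymm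
  · have h4 := ny_le_card h (thp S y).1 (Finset.univ.image pos) (by
      intro p hp
      rcases hnp : net S p with _ | w
      · rw [nyt_none S y hnp] at hp
        exact absurd (h.cm_zero _) hp
      · refine ⟨pos w, Finset.mem_image_of_mem _ (Finset.mem_univ _), ?_⟩
        rw [nyt_some S y hnp, nyt_some S y (hpos w)]
        exact isog_refl h _)
    rwa [Finset.card_image_of_injective _ hinj, Finset.card_univ] at h4
  · have h4 := card_le_ny h (thp S y).1 (Finset.univ.image pos) (by
      intro p hp
      obtain ⟨w, -, rfl⟩ := Finset.mem_image.1 hp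
      rw [nyt_some S y (hpos w)]
      exact gval_not_isCM S y h hy w) (by
      intro p hp p' hp' hpp
      obtain ⟨w, -, rfl⟩ := Finset.mem_image.1 hp
      obtain ⟨w', -, rfl⟩ := Finset.mem_image.1 hp'
      rw [nyt_some S y (hpos w), nyt_some S y (hpos w')] at hpp
      rw [hsep w w' hpp])
    rwa [Finset.card_image_of_injective _ hinj, Finset.card_univ] at h4

end P7

end Pool.Agent.Lib.MP_a325a5_ag.PM
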