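import Pool.Agent.Lib.MP_a325a5_ag.PM.Val
import Pool.Agent.Lib.MP_a325a5_ag.UM.RatTd

/-! PM, row P2: the transcendence degrees of the generic configuration and of the units
`a_i`, `b_i`, `z_i`. -/

set_option autoImplicit false

namespace Pool.Agent.Lib.MP_a325a5_ag.PM

open MvPolynomial UM UL MU

section P2

variable {I : Type} [Fintype I] (S : Sys (Fin 3 × I)) {k E : Type} [Field k] [Field E] [Algebra k E]

/-- elements of the subalgebra are algebraic -/
private theorem Td_alg {L : Type} [Field L] [Algebra k L] {T : Set L} {x : L}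
    (hx : x ∈ Algebra.adjoin k T) : IsAlgebraic (Algebra.adjoin k T) x :=
  isAlgebraic_algebraMap (⟨x, hx⟩ : Algebra.adjoin k T)

private theorem Td_fv_mem {L : Type} [Field L] [Algebra k L] (A : Subalgebra k L) {J : Type}
    (y : J → L) (c : Fin 2 × J → L) (hy : ∀ i, y i ∈ A) (hc : ∀ q, c q ∈ A) (j : Fin 3 × J) :
    fv y c j ∈ A := by
  obtain ⟨j, i⟩ := j
  fin_cases j
  · exact hc (0, i)
  · exact hc (1, i)
  · exact sub_mem (mul_mem (hc (0, i)) (hy i)) (hc (1, i))

private theorem Td_prt_mem {L : Type} [Field L] [Algebra k L] (A : Subalgebra k L)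
    (v : Fin 3 × I → L) (hv : ∀ j, v j ∈ A) (b : S.B) (l : Fin (S.m b + 1)) :
    prt S v b l ∈ A := by
  unfold prt
  refine sum_mem fun l' _ => mul_mem (intCast_mem A _) ?_
  unfold mon
  exact prod_mem fun j _ => pow_mem (hv j) _

private theorem Td_val_mem {L : Type} [Field L] [Algebra k L] (A : Subalgebra k L)
    (y : I → L) (c : UI S → L) (hy : ∀ i, y i ∈ A) (hc : ∀ q, c q ∈ A) (w : WI S) :
    val S y c w ∈ A := by
  have hf : ∀ j, fv y (fun q => c (Sum.inl q)) j ∈ A :=
    fun j => Td_fv_mem A y _ hy (fun q => hc _) j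
  rcases w with (i | j) | (t | ⟨t, m | m⟩)
  · exact hy i
  · exact hf j
  · exact add_mem (hc _) (Td_prt_mem S A _ hf _ _)
  · exact mul_mem (hc _) (add_mem (hc _) (Td_prt_mem S A _ hf _ _))
  · exact mul_mem (hc _) (prod_mem fun i _ => hf _)

theorem atd_thp (y : I → E) : atd k (co (thp S y)) = atd k y + Fintype.card (UI S) := by
  classical
  rw [← atd_ratFun (k := k) (U := UI S) y]
  have hval : ∀ p, co (thp S y) (Sum.inl p) =
      cfg S (fun i => rcst (UI S) (y i)) (rvar E) p := fun p => rfl
  apply le_antisymm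
  · apply atd_le_of_algebraic
    have hmem : ∀ j, Sum.elim (fun j => rcst (UI S) (y j)) (fun u : UI S => rvar E u) j ∈
        Algebra.adjoin k (Set.range fun j =>
          Sum.elim (fun j => rcst (UI S) (y j)) (fun u : UI S => rvar E u) j) :=
      fun j => Algebra.subset_adjoin ⟨j, rfl⟩
    rintro (p | p)
    · refine Td_alg ?_
      rw [hval]
      unfold cfg
      cases h : net S p with
      | none => exact zero_mem _
      | some w =>
        exact Td_val_mem S _ _ _ (fun i => hmem (Sum.inl i)) (fun u => hmem (Sum.inr u)) w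
    · exact p.elim
  · apply atd_le_of_algebraic
    have hmem : ∀ w : WI S, val S (fun i => rcst (UI S) (y i)) (rvar E) w ∈
        Algebra.adjoin k (Set.range fun j => co (thp S y) j) := by
      intro w
      obtain ⟨p, hp⟩ := net_surj S w
      have h1 : co (thp S y) (Sum.inl p) = val S (fun i => rcst (UI S) (y i)) (rvar E) w := by
        rw [hval]
        unfold cfg
        rw [hp]
        rfl
      rw [← h1]
      exact Algebra.subset_adjoin ⟨Sum.inl p, rfl⟩
    rintro (i | u)
    · exact Td_alg (hmem (Sum.inl (Sum.inl i)))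
    · refine Td_alg ?_
      rcases u with ⟨j, i⟩ | (b | t)
      · have h2 : rvar E (Sum.inl (j, i) : UI S) =
            val S (fun i => rcst (UI S) (y i)) (rvar E)
              (Sum.inl (Sum.inr (j.castSucc, i))) := by
          fin_cases j
          · rfl
          · rfl
        change rvar E (Sum.inl (j, i) : UI S) ∈ _
        rw [h2]
        exact hmem _
      · have h2 : rvar E (Sum.inr (Sum.inl b) : UI S) =
            val S (fun i => rcst (UI S) (y i)) (rvar E)
              (Sum.inr (Sum.inl ⟨b, 0⟩)) := by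
          change _ = rvar E (Sum.inr (Sum.inl b) : UI S) + prt S _ b 0
          unfold prt
          rw [Finset.filter_false_of_mem (fun l' _ => Fin.not_lt_zero l'), Finset.sum_empty,
            add_zero]
        change rvar E (Sum.inr (Sum.inl b) : UI S) ∈ _
        rw [h2]
        exact hmem _
      · have h2 : rvar E (Sum.inr (Sum.inr t) : UI S) =
            val S (fun i => rcst (UI S) (y i)) (rvar E)
              (Sum.inr (Sum.inr ⟨t, some 0⟩)) := by
          change _ = rvar E (Sum.inr (Sum.inr t) : UI S) * ∏ i ∈ Finset.univ.filter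
            (fun i : Fin (dg S t) => i.castSucc < 0), _
          rw [Finset.filter_false_of_mem (fun l' _ => Fin.not_lt_zero _), Finset.prod_empty,
            mul_one]
        change rvar E (Sum.inr (Sum.inr t) : UI S) ∈ _
        rw [h2]
        exact hmem _

theorem td_fyu (y : I → E) : td k (fyu y) = atd k y + 2 * Fintype.card I := by
  classical
  have hcard : 2 * Fintype.card I = Fintype.card (Fin 2 × I) := by
    rw [Fintype.card_prod, Fintype.card_fin]
  rw [hcard, ← atd_ratFun (k := k) (U := Fin 2 × I) y, ul_td]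
  have hval : ∀ j, ((fyu y j : (RatFun (Fin 2 × I) E)ˣ) : RatFun (Fin 2 × I) E) =
      fv (fun i => rcst (Fin 2 × I) (y i)) (rvar E) j := fun j => rfl
  apply le_antisymm
  · apply atd_le_of_algebraic
    have hmem : ∀ j, Sum.elim (fun j => rcst (Fin 2 × I) (y j)) (fun u : Fin 2 × I => rvar E u) j ∈
        Algebra.adjoin k (Set.range fun j =>
          Sum.elim (fun j => rcst (Fin 2 × I) (y j)) (fun u : Fin 2 × I => rvar E u) j) :=
      fun j => Algebra.subset_adjoin ⟨j, rfl⟩
    intro j
    refine Td_alg ?_
    rw [hval]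
    exact Td_fv_mem _ _ _ (fun i => hmem (Sum.inl i)) (fun u => hmem (Sum.inr u)) j
  · apply atd_le_of_algebraic
    set A := Algebra.adjoin k (Set.range fun j =>
      ((fyu y j : (RatFun (Fin 2 × I) E)ˣ) : RatFun (Fin 2 × I) E)) with hA
    have hmem : ∀ j, fv (fun i => rcst (Fin 2 × I) (y i)) (rvar E) j ∈ A :=
      fun j => Algebra.subset_adjoin ⟨j, rfl⟩
    have ha : ∀ i, rvar E (0, i) ∈ A := fun i => hmem (0, i)
    have hb : ∀ i, rvar E (1, i) ∈ A := fun i => hmem (1, i)
    rintro (i | ⟨j, i⟩)
    · change IsAlgebraic A (rcst (Fin 2 × I) (y i))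
      have hz : rvar E (0, i) * rcst (Fin 2 × I) (y i) - rvar E (1, i) ∈ A := hmem (2, i)
      have hz2 : rvar E (0, i) * rcst (Fin 2 × I) (y i) ∈ A := by
        have h := add_mem hz (hb i)
        rwa [sub_add_cancel] at h
      refine ⟨Polynomial.C (⟨_, ha i⟩ : A) * Polynomial.X - Polynomial.C (⟨_, hz2⟩ : A), ?_, ?_⟩
      · intro h
        have h1 := congrArg (fun q : Polynomial A => q.coeff 1) h
        simp only [Polynomial.coeff_sub, Polynomial.coeff_C_mul, Polynomial.coeff_X_one, mul_one,
          Polynomial.coeff_C_succ, sub_zero, Polynomial.coeff_zero] at h1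
        have h2 := congrArg Subtype.val h1
        exact rvar_ne_zero (L := E) ((0, i) : Fin 2 × I) h2
      · rw [map_sub, map_mul, Polynomial.aeval_X, Polynomial.aeval_C, Polynomial.aeval_C]
        exact sub_self _
    · refine Td_alg ?_
      fin_cases j
      · exact ha i
      · exact hb i

end P2

end Pool.Agent.Lib.MP_a325a5_ag.PM
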