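import Pool.Agent.Lib.MP_a325a5_ag.PM.Val
import Pool.Agent.Lib.MP_a325a5_ag.PM.Td
import Pool.Agent.Lib.MP_a325a5_ag.PM.Sep1
import Pool.Agent.Lib.MP_a325a5_ag.PM.NyT
import Pool.Agent.Lib.MP_a325a5_ag.PM.Gen
import Pool.Agent.Lib.MP_a325a5_ag.PM.Net
import Pool.Agent.Lib.MP_a325a5_ag.MU.YCls
import Pool.Agent.Lib.MP_a325a5_ag.MU.YTyp
import Pool.Agent.Lib.MP_a325a5_ag.MU.YLeast
import Pool.Agent.Lib.MP_a325a5_ag.UM.Comp

/-! The generic configuration lies on no atypical subvariety of `V^D` (helper51). -/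

set_option autoImplicit false

namespace Pool.Agent.Lib.MP_a325a5_ag.PM

open MvPolynomial UM UL MU


section

variable {I : Type} [Fintype I] (S : Sys (Fin 3 × I)) {F : Type} [Field F]

/-- the polynomials `a_i`, `b_i`, `z_i` -/
private noncomputable def iso_P (y : I → F) (j : Fin 3 × I) : MvPolynomial (Fin 2 × I) F :=
  fv (fun i => C (y i)) X j

omit [Fintype I] in
private theorem iso_fv {A B : Type} [CommRing A] [CommRing B] (φ : A →+* B) (y : I → A)
    (c : Fin 2 × I → A) (j : Fin 3 × I) :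
    φ (fv y c j) = fv (fun i => φ (y i)) (fun q => φ (c q)) j := by
  obtain ⟨j, i⟩ := j
  fin_cases j
  · rfl
  · rfl
  · show φ (c (0, i) * y i - c (1, i)) = φ (c (0, i)) * φ (y i) - φ (c (1, i))
    rw [map_sub, map_mul]

omit [Fintype I] in
private theorem iso_fyu (y : I → F) (j : Fin 3 × I) :
    ((fyu y j : (RatFun (Fin 2 × I) F)ˣ) : RatFun (Fin 2 × I) F) =
      algebraMap (MvPolynomial (Fin 2 × I) F) (RatFun (Fin 2 × I) F) (iso_P y j) := by
  rw [iso_P, iso_fv]
  rfl

private theorem iso_gval (y : I → F) (j : Fin 3 × I) :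
    gval S y (Sum.inl (Sum.inr j)) =
      algebraMap (MvPolynomial (UI S) F) (RatFun (UI S) F) (rename Sum.inl (iso_P y j)) := by
  have h1 : (rename (Sum.inl : Fin 2 × I → UI S) (iso_P y j) : MvPolynomial (UI S) F) =
      fv (fun i => C (y i)) (fun q => X (Sum.inl q)) j := by
    have h2 := iso_fv (rename (Sum.inl : Fin 2 × I → UI S) :
      MvPolynomial (Fin 2 × I) F →ₐ[F] MvPolynomial (UI S) F).toRingHom (fun i => C (y i))
      (X : Fin 2 × I → MvPolynomial (Fin 2 × I) F) j
    simp only [AlgHom.toRingHom_eq_coe, RingHom.coe_coe, rename_C, rename_X] at h2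
    exact h2
  rw [h1, iso_fv]
  rfl

private theorem iso_locus {k : Type} [Field k] [Algebra k F] (y : I → F)
    (f : MvPolynomial (Fin 3 × I) k)
    (hf : aeval (fun j => gval S y (Sum.inl (Sum.inr j))) f = 0) : f ∈ locus k (fyu y) := by
  have h1 : aeval (fun j => gval S y (Sum.inl (Sum.inr j))) f =
      algebraMap (MvPolynomial (UI S) F) (RatFun (UI S) F)
        (rename Sum.inl (aeval (iso_P y) f)) := by
    have h2 : (aeval (fun j => gval S y (Sum.inl (Sum.inr j))) :
        MvPolynomial (Fin 3 × I) k →ₐ[k] RatFun (UI S) F) =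
        ((IsScalarTower.toAlgHom k (MvPolynomial (UI S) F) (RatFun (UI S) F)).comp
          ((rename (Sum.inl : Fin 2 × I → UI S) :
            MvPolynomial (Fin 2 × I) F →ₐ[F] MvPolynomial (UI S) F).restrictScalars k)).comp
          (aeval (iso_P y)) := by
      apply MvPolynomial.algHom_ext
      intro j
      rw [aeval_X, AlgHom.comp_apply, aeval_X, iso_gval]
      rfl
    rw [h2]
    rfl
  rw [h1, map_eq_zero_iff _ (IsFractionRing.injective (MvPolynomial (UI S) F)
    (RatFun (UI S) F)), map_eq_zero_iff _ (rename_injective _ Sum.inl_injective)] at hf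
  rw [mem_locus]
  have h3 : (aeval (fun j => ((fyu y j : (RatFun (Fin 2 × I) F)ˣ) : RatFun (Fin 2 × I) F)) :
      MvPolynomial (Fin 3 × I) k →ₐ[k] RatFun (Fin 2 × I) F) =
      (IsScalarTower.toAlgHom k (MvPolynomial (Fin 2 × I) F) (RatFun (Fin 2 × I) F)).comp
        (aeval (iso_P y)) := by
    apply MvPolynomial.algHom_ext
    intro j
    rw [aeval_X, AlgHom.comp_apply, aeval_X, iso_fyu]
    rfl
  rw [h3, AlgHom.comp_apply, hf, map_zero]

/-- the coordinates of the configuration are its wires -/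
private theorem iso_thp (y : I → F) (p : Fin 4 × DI S) (w : WI S) (hp : net S p = some w) :
    (thp S y).1 p = gval S y w := by
  show (net S p).elim 0 (val S _ _) = _
  rw [hp]
  rfl

private theorem iso_thp0 (y : I → F) (p : Fin 4 × DI S) (hp : net S p = none) :
    (thp S y).1 p = 0 := by
  show (net S p).elim 0 (val S _ _) = _
  rw [hp]
  rfl

end

theorem generic_not_mem (h : ModAx) (h2 : ModAx2) {I : Type} [Fintype I]
    (S : Sys (Fin 3 × I)) {k F : Type} [Field k] [IsAlgClosed k] [CharZero k] [Field F]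
    [CharZero F] [Algebra k F] (y : I → F) (hrel : ∀ b, S.rel (fyu y) b = 0)
    (hy : ∀ i, ¬ IsCM (y i)) (hy2 : ∀ i j, Isog (y i) (y j) → i = j)
    (hdist : ∀ b l l', S.part (fyu y) b l = S.part (fyu y) b l' → l = l')
    (hcard : Fintype.card S.B + td k (fyu y) = Fintype.card (Fin 3 × I))
    (hiso : ∀ (L' : Type) [Field L'] [Algebra k L'] (y' : Fin 3 × I → L'ˣ),
      locus k y' ≤ locus k (fyu y) → (∀ b, S.rel y' b = 0) → td k y' ≤ td k (fyu y))
    (Z : Set (Pt k (Fin 4 × DI S) Empty))
    (hZ : UM.Atypical (YSpecial k (Fin 4 × DI S)) (QD k (DI S)) Z) :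
    ¬ vanIdeal Z ≤ aloc k (co (thp S y)) := by
  intro hle
  have hZ' := hZ
  obtain ⟨⟨hZirr, hZsub, hZc, -⟩, -⟩ := hZ'
  obtain ⟨L₁, i1, i2, γ, hγ⟩ := UM.exists_generic Z hZirr
  have c1 : CharZero L₁ := charZero_of_injective_algebraMap (algebraMap k L₁).injective
  obtain ⟨L₂, i3, c2, i4, γl, hγl, htdl, hnyl⟩ := QD_generic h k (DI S)
  obtain ⟨TX, hTX, hdX⟩ := exists_yleast (k := k) h γl.1
  obtain ⟨TZ, hTZ, hdZ⟩ := exists_yleast (k := k) h γ.1
  have hA := UM.atypical_lt (yfamily h k (Fin 4 × DI S)) (QD k (DI S)) Z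
    (QD_irrClosed k (DI S)) hZ γl γ hγl hγ TX TZ hTX hTZ
  have hspec : aloc k (co γ) ≤ aloc k (co (thp S y)) := hγ.le.trans hle
  have hmr : ∀ (M : Type) [Field M] (p : Empty → Mˣ), mr p = 0 := by
    intro M _ p
    have := mr_le_card p
    simpa using this
  have hne : ∀ w : WI S, gval S y w ≠ 0 := by
    intro w hw
    apply gval_not_isCM S y h hy w
    rw [hw]
    exact h.cm_zero _
  have key := mixed_typical h γ (thp S y) hspec (by
    intro L' _ _ _ τ' h1 h2' h3 hsat
    have hgate := (QD_le_aloc (k := k) τ').mp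
      (((UM.vanIdeal_anti hZsub).trans hγ.ge).trans h1)
    have hτne : ∀ p, (thp S y).1 p ≠ 0 → τ'.1 p ≠ 0 := by
      intro p hp h0
      apply hp
      have h5 : (X (Sum.inl p) : MvPolynomial ((Fin 4 × DI S) ⊕ Empty) k) ∈ aloc k (co τ') := by
        rw [mem_aloc, aeval_X]
        exact h0
      have h6 := mem_aloc.mp (h2' h5)
      rw [aeval_X] at h6
      exact h6
    have hsame : ∀ p p', net S p = net S p' → τ'.1 p = τ'.1 p' := by
      intro p p' hpp
      apply h2.one L'
      apply hsat.1 p p' 1 le_rfl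
      have h5 : (thp S y).1 p = (thp S y).1 p' := by
        show (net S p).elim 0 (val S _ _) = (net S p').elim 0 (val S _ _)
        rw [hpp]
      rw [h5]
      exact h.refl _ _
    have h0 : ∀ p, net S p = none → τ'.1 p = 0 := by
      intro p hp
      have h5 := hsat.2 p 0 (h.cm_zero k) (by
        rw [map_zero]
        exact iso_thp0 S y p hp)
      rw [map_zero] at h5
      exact h5
    obtain ⟨v, hv1, hv2, hv3⟩ := exists_of_gates S (k := k) τ'.1 hgate hsame h0
      (fun p j hp => hτne p (by rw [iso_thp S y p _ hp]; exact hne _))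
      (fun p t hp => hτne p (by rw [iso_thp S y p _ hp]; exact hne _))
    have hloc : locus k v ≤ locus k (fyu y) := by
      choose pj hpj using fun j : Fin 3 × I => net_surj S (Sum.inl (Sum.inr j))
      intro f hf
      apply iso_locus S
      have h5 : rename (fun j => (Sum.inl (pj j) : (Fin 4 × DI S) ⊕ Empty)) f ∈
          aloc k (co τ') := by
        rw [mem_aloc, aeval_rename]
        have e : (co τ' ∘ fun j => (Sum.inl (pj j) : (Fin 4 × DI S) ⊕ Empty)) =
            fun j => (v j : L') := by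
          funext j
          exact hv1 (pj j) j (hpj j)
        rw [e]
        exact mem_locus.mp hf
      have h6 := mem_aloc.mp (h2' h5)
      rw [aeval_rename] at h6
      have e : (co (thp S y) ∘ fun j => (Sum.inl (pj j) : (Fin 4 × DI S) ⊕ Empty)) =
          fun j => gval S y (Sum.inl (Sum.inr j)) := by
        funext j
        exact iso_thp S y (pj j) _ (hpj j)
      rw [e] at h6
      exact h6
    have h7 := hiso L' v hloc hv2
    have h8 : atd k (co τ') ≤ atd k τ'.1 := by
      apply UM.atd_le_of_algebraic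
      rintro (i | i)
      · exact isAlgebraic_algebraMap (⟨τ'.1 i, Algebra.subset_adjoin ⟨i, rfl⟩⟩ :
          Algebra.adjoin k (Set.range fun j => τ'.1 j))
      · exact i.elim
    rw [atd_thp, card_UI]
    rw [td_fyu] at h7
    omega)
  rw [hmr, hmr, atd_thp, card_UI, ny_thp S h h2 y hy hy2 hdist, card_WI] at key
  rw [hdX, hdZ, htdl, hnyl, hmr, hmr] at hA
  rw [td_fyu, Fintype.card_prod, Fintype.card_fin] at hcard
  omega

end Pool.Agent.Lib.MP_a325a5_ag.PM
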