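import Pool.Agent.Lib.MP_a325a5_ag.PM.EDefs

/-! Specialisation of the units `a_i`, `b_i`, `z_i` and of the family of coordinates and constants. -/

set_option autoImplicit false

namespace Pool.Agent.Lib.MP_a325a5_ag.PM

open MvPolynomial UM UL MU

private theorem loc_fv_map {A B I : Type} [CommRing A] [CommRing B] (φ : A →+* B) (y : I → A)
    (c : Fin 2 × I → A) (j : Fin 3 × I) :
    φ (fv y c j) = fv (fun i => φ (y i)) (fun q => φ (c q)) j := by
  obtain ⟨j, i⟩ := j
  fin_cases j
  · rfl
  · rfl
  · show φ (c (0, i) * y i - c (1, i)) = φ (c (0, i)) * φ (y i) - φ (c (1, i))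
    rw [map_sub, map_mul]

/-- a polynomial in the units is a polynomial in the variables with coefficients in `k[y]` -/
private theorem loc_aeval {k E I : Type} [Field k] [Field E] [Algebra k E] (y : I → E)
    (f : MvPolynomial (Fin 3 × I) k) :
    aeval (fun j => (fyu y j : RatFun (Fin 2 × I) E)) f =
      algebraMap (MvPolynomial (Fin 2 × I) E) (RatFun (Fin 2 × I) E)
        (MvPolynomial.map ((aeval y : MvPolynomial I k →ₐ[k] E) : MvPolynomial I k →+* E)
          (aeval (fun j => fv (fun i => C (X i)) X j :
            Fin 3 × I → MvPolynomial (Fin 2 × I) (MvPolynomial I k)) f)) := by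
  induction f using MvPolynomial.induction_on with
  | C c =>
    rw [aeval_C, aeval_C]
    have h1 : algebraMap k (MvPolynomial (Fin 2 × I) (MvPolynomial I k)) c = C (C c) := rfl
    rw [h1, map_C]
    have h2 : ((aeval y : MvPolynomial I k →ₐ[k] E) : MvPolynomial I k →+* E) (C c) =
        algebraMap k E c := aeval_C _ c
    rw [h2]
    rfl
  | add f g hf hg => rw [map_add, map_add, map_add, map_add, hf, hg]
  | mul_X f j hf =>
    rw [map_mul, map_mul, map_mul, map_mul, hf, aeval_X, aeval_X]
    congr 1
    rw [loc_fv_map, loc_fv_map]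
    show fv (fun i => rcst (Fin 2 × I) (y i)) (rvar E) j = _
    congr 1
    · funext i
      rw [map_C]
      have h2 : ((aeval y : MvPolynomial I k →ₐ[k] E) : MvPolynomial I k →+* E) (X i) = y i :=
        aeval_X _ i
      rw [h2]
      rfl
    · funext q
      rw [map_X]
      rfl

theorem locus_fyu_le {k E E' : Type} [Field k] [Field E] [Field E'] [Algebra k E] [Algebra k E']
    {I : Type} (y : I → E) (y' : I → E') (hs : aloc k y ≤ aloc k y') :
    locus k (fyu y) ≤ locus k (fyu y') := by
  intro f hf
  rw [mem_locus, loc_aeval, map_eq_zero_iff _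
    (IsFractionRing.injective (MvPolynomial (Fin 2 × I) E) (RatFun (Fin 2 × I) E))] at hf
  rw [mem_locus, loc_aeval]
  have h1 : MvPolynomial.map ((aeval y' : MvPolynomial I k →ₐ[k] E') : MvPolynomial I k →+* E')
      (aeval (fun j => fv (fun i => C (X i)) X j :
        Fin 3 × I → MvPolynomial (Fin 2 × I) (MvPolynomial I k)) f) = 0 := by
    apply MvPolynomial.ext
    intro m
    have h2 := congrArg (coeff m) hf
    rw [coeff_map, coeff_zero] at h2
    rw [coeff_map, coeff_zero]
    exact mem_aloc.1 (hs (mem_aloc.2 h2))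
  rw [h1, map_zero]

theorem aloc_fam_le {k K F L : Type} [Field k] [Field K] [Field F] [Algebra k K] [Algebra K F]
    [Algebra k F] [IsScalarTower k K F] [Field L] [Algebra K L] [Algebra k L]
    [IsScalarTower k K L] {α : Type} {e : ℕ} (c : Fin e → K) (I : Finset (α ⊕ Fin e))
    (γ : Pt F α Empty) (x : Pt L α Empty) (hs : aloc K (co γ) ≤ aloc K (co x)) :
    aloc k (fun i : I => fam c γ i) ≤ aloc k (fun i : I => fam c x i) := by
  let σ : α ⊕ Fin e → MvPolynomial (α ⊕ Empty) K :=
    Sum.elim (fun r => X (Sum.inl r)) (fun j => C (c j))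
  have key : ∀ (M : Type) [Field M] [Algebra K M] [Algebra k M] [IsScalarTower k K M]
      (z : Pt M α Empty) (f : MvPolynomial I k),
      aeval (co z) (aeval (fun i : I => σ i) f) = aeval (fun i : I => fam c z i) f := by
    intro M _ _ _ _ z f
    have h1 : ((aeval (co z) : MvPolynomial (α ⊕ Empty) K →ₐ[K] M).restrictScalars k).comp
        (aeval (fun i : I => σ i) : MvPolynomial I k →ₐ[k] MvPolynomial (α ⊕ Empty) K) =
        aeval (fun i : I => fam c z i) := by
      apply MvPolynomial.algHom_ext
      intro i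
      rw [AlgHom.comp_apply, aeval_X, aeval_X, AlgHom.restrictScalars_apply]
      obtain ⟨i, hi⟩ := i
      rcases i with r | j
      · exact aeval_X _ _
      · exact aeval_C _ _
    exact congrArg (fun g : MvPolynomial I k →ₐ[k] M => g f) h1
  intro f hf
  rw [mem_aloc] at hf ⊢
  rw [← key F γ] at hf
  rw [← key L x]
  exact mem_aloc.1 (hs (mem_aloc.2 hf))

end Pool.Agent.Lib.MP_a325a5_ag.PM
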