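import Pool.Agent.Lib.MP_a325a5_ag.PM.EDefs
import Pool.Agent.Lib.MP_a325a5_ag.MU.YCls
import Pool.Agent.Lib.MP_a325a5_ag.UM.TD

/-! P9: adding constants. Adapted from MU/Seed.lean: from the point `γ` of `Y(1)^α` over `K` to the
small field `k`, by the coordinates and finitely many constants. -/

set_option autoImplicit false

namespace Pool.Agent.Lib.MP_a325a5_ag.PM

open MvPolynomial UM UL MU

section
variable {k K F : Type} [Field k] [Field K] [Field F] [Algebra k K] [Algebra K F] [Algebra k F]
  [IsScalarTower k K F]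

/-- finitely many constants suffice for one algebraic equation -/
private theorem seedP_one {J : Type} (g : J → F) (hg : AlgebraicIndependent K g) (x : F)
    (hx : IsAlgebraic (Algebra.adjoin K (Set.range g)) x) :
    ∃ T : Finset Kˣ, IsAlgebraic (Algebra.adjoin k
      (((fun u : Kˣ => algebraMap K F (u : K)) '' (T : Set Kˣ)) ∪ Set.range g)) x := by
  classical
  have hnot : ¬ AlgebraicIndependent K (fun o : Option J => o.elim x g) := by
    intro h
    exact (AlgebraicIndependent.option_iff.mp h).2 hx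
  rw [algebraicIndependent_iff] at hnot
  push Not at hnot
  obtain ⟨P, hP1, hP2⟩ := hnot
  set T : Finset Kˣ := P.support.attach.image
    (fun m => Units.mk0 (P.coeff m.1) (MvPolynomial.mem_support_iff.mp m.2)) with hT
  refine ⟨T, ?_⟩
  set TK : Set K := (fun u : Kˣ => (u : K)) '' (T : Set Kˣ) with hTK
  set k1 : Subalgebra k K := Algebra.adjoin k TK with hk1
  have hcoef : ∀ m, P.coeff m ∈ k1 := by
    intro m
    by_cases hm : m ∈ P.support
    · refine Algebra.subset_adjoin ⟨Units.mk0 (P.coeff m) (MvPolynomial.mem_support_iff.mp hm), ?_, rfl⟩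
      rw [Finset.mem_coe, hT, Finset.mem_image]
      exact ⟨⟨m, hm⟩, Finset.mem_attach _ _, rfl⟩
    · rw [MvPolynomial.notMem_support_iff.mp hm]
      exact k1.zero_mem
  -- the polynomial over `k1`
  obtain ⟨P1, hP1'⟩ : ∃ P1 : MvPolynomial (Option J) k1, MvPolynomial.map (algebraMap k1 K) P1 = P := by
    refine MvPolynomial.mem_range_map_iff_coeffs_subset.mpr ?_
    intro a ha
    obtain ⟨m, _, rfl⟩ := MvPolynomial.mem_coeffs_iff.mp ha
    exact ⟨⟨P.coeff m, hcoef m⟩, rfl⟩
  have hinj : Function.Injective (algebraMap k1 K) := Subtype.val_injective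
  have hg1 : AlgebraicIndependent k1 g := hg.restrictScalars hinj
  have halg1 : IsAlgebraic (Algebra.adjoin k1 (Set.range g)) x := by
    by_contra hcon
    have h1 : AlgebraicIndependent k1 (fun o : Option J => o.elim x g) :=
      AlgebraicIndependent.option_iff.mpr ⟨hg1, hcon⟩
    rw [algebraicIndependent_iff] at h1
    apply hP2
    rw [← hP1']
    rw [h1 P1, map_zero]
    rw [← hP1, ← hP1', MvPolynomial.aeval_map_algebraMap]
  -- compare the two algebras
  set S2 : Subalgebra k F := Algebra.adjoin k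
      (((fun u : Kˣ => algebraMap K F (u : K)) '' (T : Set Kˣ)) ∪ Set.range g) with hS2
  have hle : (Algebra.adjoin k1 (Set.range g)).restrictScalars k ≤ S2 := by
    intro z hz
    rw [Subalgebra.mem_restrictScalars] at hz
    induction hz using Algebra.adjoin_induction with
    | mem y hy => exact Algebra.subset_adjoin (Or.inr hy)
    | algebraMap r =>
      have h2 : algebraMap k1 F r = (IsScalarTower.toAlgHom k K F) r.1 := rfl
      rw [h2]
      have h3 : (IsScalarTower.toAlgHom k K F) r.1 ∈ k1.map (IsScalarTower.toAlgHom k K F) :=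
        ⟨r.1, r.2, rfl⟩
      have h4 : k1.map (IsScalarTower.toAlgHom k K F) ≤ S2 := by
        rw [hk1, AlgHom.map_adjoin]
        refine Algebra.adjoin_mono ?_
        rintro _ ⟨_, ⟨u, hu, rfl⟩, rfl⟩
        exact Or.inl ⟨u, hu, rfl⟩
      exact h4 h3
    | add _ _ _ _ ha hb => exact S2.add_mem ha hb
    | mul _ _ _ _ ha hb => exact S2.mul_mem ha hb
  have halg2 : IsAlgebraic ((Algebra.adjoin k1 (Set.range g)).restrictScalars k) x := halg1
  obtain ⟨p, hp1, hp2⟩ := halg2
  refine ⟨p.map (Subalgebra.inclusion hle).toRingHom, ?_, ?_⟩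
  · intro h
    apply hp1
    exact (Polynomial.map_eq_zero_iff (Subalgebra.inclusion_injective hle)).mp h
  · rw [← hp2, Polynomial.aeval_def, Polynomial.aeval_def, Polynomial.eval₂_map]
    rfl


/-- Finitely many constants: the transcendence degree over `k` of `(q, c)` is at most that of `q`
over `K` plus that of `c` over `k`. -/
private theorem seedP_constants {ι : Type} [Fintype ι] (q : ι → F) :
    ∃ (e : ℕ) (c : Fin e → Kˣ),
      atd k (Sum.elim q (fun j => algebraMap K F ((c j : Kˣ) : K))) ≤
        atd K q + atd k (fun j => ((c j : Kˣ) : K)) := by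
  classical
  obtain ⟨J, hJ1, hJ2, hJ3⟩ := atd_spec (K := K) q
  have h1 : ∀ i, ∃ T : Finset Kˣ, IsAlgebraic (Algebra.adjoin k
      (((fun u : Kˣ => algebraMap K F (u : K)) '' (T : Set Kˣ)) ∪
        Set.range (fun j : J => (q j : F)))) (q i) := by
    intro i
    refine seedP_one (k := k) (fun j : J => (q j : F)) hJ1 _ ?_
    have h2 := hJ3 i
    rw [Set.image_eq_range] at h2
    exact h2
  choose T hT using h1
  set TU : Finset Kˣ := Finset.univ.biUnion T with hTU
  refine ⟨TU.card, fun j => (TU.equivFin.symm j : Kˣ), ?_⟩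
  set c : Fin TU.card → Kˣ := fun j => (TU.equivFin.symm j : Kˣ) with hc
  have hcr : ∀ u ∈ TU, ∃ j, c j = u := by
    intro u hu
    refine ⟨TU.equivFin ⟨u, hu⟩, ?_⟩
    rw [hc]
    simp
  obtain ⟨J', hJ'1, hJ'2, hJ'3⟩ := atd_spec (K := k) (fun j => ((c j : Kˣ) : K))
  rw [← hJ2, ← hJ'2]
  set r : J ⊕ J' → F := Sum.elim (fun j => q j)
    (fun j => algebraMap K F ((c j : Kˣ) : K)) with hr
  have hcalg : ∀ j, IsAlgebraic (Algebra.adjoin k (Set.range r)) (algebraMap K F ((c j : Kˣ) : K)) := by
    intro j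
    obtain ⟨p, hp1, hp2⟩ := hJ'3 j
    have hle : (Algebra.adjoin k ((fun j => ((c j : Kˣ) : K)) '' (J' : Set (Fin TU.card)))).map
        (IsScalarTower.toAlgHom k K F) ≤ Algebra.adjoin k (Set.range r) := by
      rw [AlgHom.map_adjoin]
      refine Algebra.adjoin_mono ?_
      rintro _ ⟨_, ⟨l, hl, rfl⟩, rfl⟩
      exact ⟨Sum.inr ⟨l, hl⟩, rfl⟩
    let φ : Algebra.adjoin k ((fun j => ((c j : Kˣ) : K)) '' (J' : Set (Fin TU.card))) →+*
        Algebra.adjoin k (Set.range r) :=
      { toFun := fun a => ⟨algebraMap K F a.1, hle ⟨a.1, a.2, rfl⟩⟩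
        map_one' := Subtype.ext (map_one _)
        map_mul' := fun a b => Subtype.ext (map_mul _ _ _)
        map_zero' := Subtype.ext (map_zero _)
        map_add' := fun a b => Subtype.ext (map_add _ _ _) }
    have hφ : Function.Injective φ := by
      intro a b hab
      apply Subtype.ext
      apply (algebraMap K F).injective
      exact congrArg (fun z => z.1) hab
    refine ⟨p.map φ, ?_, ?_⟩
    · intro h
      apply hp1
      exact (Polynomial.map_eq_zero_iff hφ).mp h
    · rw [Polynomial.aeval_def, Polynomial.eval₂_map]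
      have h2 : (algebraMap (Algebra.adjoin k (Set.range r)) F).comp φ =
          (algebraMap K F).comp (algebraMap (Algebra.adjoin k
            ((fun j => ((c j : Kˣ) : K)) '' (J' : Set (Fin TU.card)))) K) := rfl
      rw [h2, ← Polynomial.hom_eval₂, ← Polynomial.aeval_def, hp2, map_zero]
  have hle := atd_le_card_of_algebraic (K := k)
    (Sum.elim q (fun j => algebraMap K F ((c j : Kˣ) : K))) r ?_
  · rwa [Fintype.card_sum, Fintype.card_coe, Fintype.card_coe] at hle
  · rintro (i | j)
    · refine IsAlgebraic.adjoin_of_forall_isAlgebraic (s := (((fun u : Kˣ => algebraMap K F (u : K)) ''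
        (T i : Set Kˣ)) ∪ Set.range (fun j : J => (q j : F)))) ?_ (hT i)
      rintro z ⟨hz | hz, hz2⟩
      · obtain ⟨u, hu, rfl⟩ := hz
        obtain ⟨j, hj⟩ := hcr u (Finset.mem_biUnion.mpr ⟨i, Finset.mem_univ i, hu⟩)
        rw [← hj]
        exact hcalg j
      · obtain ⟨j, rfl⟩ := hz
        exact absurd ⟨Sum.inl j, rfl⟩ hz2
    · exact hcalg j

/-- Additivity (lower bound). -/
private theorem seedP_add {ι κ : Type} [Fintype ι] [Fintype κ] (q : ι → F) (c : κ → K) :
    atd K q + atd k c ≤ atd k (Sum.elim q (fun j => algebraMap K F (c j))) := by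
  obtain ⟨J, hJ1, hJ2, -⟩ := atd_spec (K := K) q
  obtain ⟨J', hJ'1, hJ'2, -⟩ := atd_spec (K := k) c
  have h1 : AlgebraicIndependent k (Sum.elim (fun j : J => q j)
      (algebraMap K F ∘ fun j : J' => c j)) := hJ'1.sumElim_comp hJ1
  have h2 := le_atd (K := k) (Sum.elim q (fun j => algebraMap K F (c j)))
    (Sum.elim (fun j : J => q j) (algebraMap K F ∘ fun j : J' => c j)) h1 (fun j => by
      rcases j with j | j
      · exact isAlgebraic_algebraMap (⟨q j, Algebra.subset_adjoin ⟨Sum.inl j.1, rfl⟩⟩ :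
          Algebra.adjoin k (Set.range (Sum.elim q (fun j => algebraMap K F (c j)))))
      · exact isAlgebraic_algebraMap (⟨algebraMap K F (c j),
          Algebra.subset_adjoin ⟨Sum.inr j.1, rfl⟩⟩ :
          Algebra.adjoin k (Set.range (Sum.elim q (fun j => algebraMap K F (c j))))))
  rw [Fintype.card_sum, Fintype.card_coe, Fintype.card_coe, hJ2, hJ'2] at h2
  exact h2

end


private theorem seedP_aloc {K F L : Type} [Field K] [Field F] [Field L] [Algebra K F]
    [Algebra K L] {α : Type} {e : ℕ} (c : Fin e → K) (γ : Pt F α Empty) (x : Pt L α Empty)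
    (hs : aloc K (co γ) ≤ aloc K (co x)) : aloc K (fam c γ) ≤ aloc K (fam c x) := by
  have key : ∀ (M : Type) [Field M] [Algebra K M] (y : Pt M α Empty)
      (f : MvPolynomial (α ⊕ Fin e) K),
      aeval (fam c y) f = aeval (co y) (aeval (Sum.elim (fun a => X (Sum.inl a))
        (fun j => C (c j)) : α ⊕ Fin e → MvPolynomial (α ⊕ Empty) K) f) := by
    intro M _ _ y f
    rw [← AlgHom.comp_apply, comp_aeval]
    congr 2
    funext j
    rcases j with j | j
    · show y.1 j = aeval (co y) (X (Sum.inl j) : MvPolynomial (α ⊕ Empty) K)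
      rw [aeval_X]
      rfl
    · show algebraMap K M (c j) = aeval (co y) (C (c j) : MvPolynomial (α ⊕ Empty) K)
      rw [aeval_C]
  intro f hf
  rw [mem_aloc, key] at hf ⊢
  exact mem_aloc.mp (hs (mem_aloc.mpr hf))

theorem exists_seed (h : ModAx) {k K F : Type} [Field k] [IsAlgClosed k] [CharZero k] [Field K]
    [CharZero K] [Field F] [CharZero F] [Algebra k K] [Algebra K F] [Algebra k F]
    [IsScalarTower k K F] {α : Type} [Fintype α] (γ : Pt F α Empty) :
    ∃ (e : ℕ) (c : Fin e → K) (I : Finset (α ⊕ Fin e)),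
      (∀ i ∈ I, ¬ IsCM (fam c γ i)) ∧
      (∀ i ∈ I, ∀ j ∈ I, Isog (fam c γ i) (fam c γ j) → i = j) ∧
      ∀ (L : Type) [Field L] [CharZero L] [Algebra K L] [Algebra k L] [IsScalarTower k K L]
        (x : Pt L α Empty), aloc K (co γ) ≤ aloc K (co x) →
        ny (fun i : I => fam c x i) + atd k (fun i : I => fam c γ i) + ny γ.1 + atd K (co x) ≤
          I.card + atd k (fun i : I => fam c x i) + ny x.1 + atd K (co γ) := by
  classical
  obtain ⟨e, c₀, hc⟩ := seedP_constants (k := k) (K := K) (co γ)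
  set c : Fin e → K := fun j => ((c₀ j : Kˣ) : K) with hcdef
  set Γ : α ⊕ Fin e → F := fam c γ with hΓ
  obtain ⟨I, hI0, hI1, hI2, hI3⟩ := ny_spec h Γ
  refine ⟨e, c, I, hI1, hI2, fun L _ _ _ _ _ x hγx => ?_⟩
  set W : α ⊕ Fin e → L := fam c x with hW
  have hsp : aloc K Γ ≤ aloc K W := seedP_aloc c γ x hγx
  have hWc : ∀ j, W (Sum.inr j) = algebraMap K L (c j) := fun j => rfl
  have hΓc : ∀ j, Γ (Sum.inr j) = algebraMap K F (c j) := fun j => rfl
  -- classes
  have e1 : ny γ.1 + ny W ≤ ny Γ + ny x.1 := by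
    obtain ⟨R, hR0, hR1, hR2, -⟩ := ny_spec h W
    obtain ⟨S, hS0, hS1, hS2, -⟩ := ny_spec h γ.1
    let R1 := R.filter fun r => ∃ i : α, Isog (W r) (x.1 i)
    let R2 := R.filter fun r => ¬ ∃ i : α, Isog (W r) (x.1 i)
    have hR12 : R1.card + R2.card = R.card := Finset.card_filter_add_card_filter_not _
    have hR1' : R1.card ≤ ny x.1 := by
      have hex : ∀ r : R1, ∃ i : α, Isog (W r) (x.1 i) := fun r => (Finset.mem_filter.1 r.2).2
      choose f hf using hex
      have hinj : Function.Injective f := by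
        intro r s hrs
        apply Subtype.ext
        refine hR2 r (Finset.mem_filter.1 r.2).1 s (Finset.mem_filter.1 s.2).1 ?_
        refine isog_trans h (hf r) ?_
        rw [hrs]
        exact isog_symm h (hf s)
      have h4 := card_le_ny h x.1 (Finset.univ.image f) (by
        intro i hi
        obtain ⟨r, -, rfl⟩ := Finset.mem_image.1 hi
        intro hcm
        exact hR1 r (Finset.mem_filter.1 r.2).1 (isCM_of_isog h (isog_symm h (hf r)) hcm)) (by
        intro i hi j hj hij
        obtain ⟨r, -, rfl⟩ := Finset.mem_image.1 hi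
        obtain ⟨s, -, rfl⟩ := Finset.mem_image.1 hj
        have h5 : (r : α ⊕ Fin e) = s :=
          hR2 r (Finset.mem_filter.1 r.2).1 s (Finset.mem_filter.1 s.2).1
            (isog_trans h (hf r) (isog_trans h hij (isog_symm h (hf s))))
        rw [Subtype.ext h5])
      rwa [Finset.card_image_of_injective _ hinj, Finset.card_univ, Fintype.card_coe] at h4
    have hR2' : ny γ.1 + R2.card ≤ ny Γ := by
      have hcst : ∀ r ∈ R2, ∃ j, r = Sum.inr j := by
        intro r hr
        rcases r with i | j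
        · exact absurd ⟨i, isog_refl h _⟩ (Finset.mem_filter.1 hr).2
        · exact ⟨j, rfl⟩
      have hdisj : Disjoint (S.map (Function.Embedding.inl : α ↪ α ⊕ Fin e)) R2 := by
        rw [Finset.disjoint_left]
        intro r hr hr2
        obtain ⟨i, -, rfl⟩ := Finset.mem_map.1 hr
        obtain ⟨j, hj⟩ := hcst _ hr2
        exact absurd hj (by simp)
      have hmix : ∀ i, ∀ r ∈ R2, ¬ Isog (Γ r) (γ.1 i) := by
        intro i r hr hir
        have h5 : Isog (W r) (W (Sum.inl i)) :=
          isog_spec (k := K) hsp (i := r) (j := Sum.inl i) hir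
        exact (Finset.mem_filter.1 hr).2 ⟨i, h5⟩
      have h4 := card_le_ny h Γ (S.map (Function.Embedding.inl : α ↪ α ⊕ Fin e) ∪ R2) (by
        intro r hr
        rcases Finset.mem_union.1 hr with hr | hr
        · obtain ⟨i, hi, rfl⟩ := Finset.mem_map.1 hr
          exact hS1 i hi
        · obtain ⟨j, rfl⟩ := hcst r hr
          rw [hΓc, isCM_algebraMap, ← isCM_algebraMap (L := L), ← hWc]
          exact hR1 _ (Finset.mem_filter.1 hr).1) (by
        intro r hr s hs hrs
        rcases Finset.mem_union.1 hr with hr | hr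
        · obtain ⟨i, hi, rfl⟩ := Finset.mem_map.1 hr
          rcases Finset.mem_union.1 hs with hs | hs
          · obtain ⟨j, hj, rfl⟩ := Finset.mem_map.1 hs
            exact congrArg Sum.inl (hS2 i hi j hj hrs)
          · exact absurd (isog_symm h hrs) (hmix i s hs)
        · rcases Finset.mem_union.1 hs with hs | hs
          · obtain ⟨j, hj, rfl⟩ := Finset.mem_map.1 hs
            exact absurd hrs (hmix j r hr)
          · obtain ⟨a, rfl⟩ := hcst r hr
            obtain ⟨b, rfl⟩ := hcst s hs
            rw [hΓc, hΓc, isog_algebraMap, ← isog_algebraMap (L := L), ← hWc, ← hWc] at hrs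
            exact hR2 _ (Finset.mem_filter.1 hr).1 _ (Finset.mem_filter.1 hs).1 hrs)
      rw [Finset.card_union_of_disjoint hdisj, Finset.card_map, hS0] at h4
      exact h4
    omega
  have e2 : ny (fun i : I => W i) ≤ ny W := by
    obtain ⟨R, hR0, hR1, hR2, -⟩ := ny_spec h fun i : I => W i
    have h4 := card_le_ny h W (R.map (Function.Embedding.subtype _)) (by
      intro r hr
      obtain ⟨t, ht, rfl⟩ := Finset.mem_map.1 hr
      exact hR1 t ht) (by
      intro r hr t ht hrt
      obtain ⟨a, ha, rfl⟩ := Finset.mem_map.1 hr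
      obtain ⟨b, hb, rfl⟩ := Finset.mem_map.1 ht
      rw [hR2 a ha b hb hrt])
    rwa [Finset.card_map, hR0] at h4
  have e3 : atd k (fun i : I => Γ i) ≤
      atd k (Sum.elim (co γ) (fun j => algebraMap K F ((c₀ j : Kˣ) : K))) := by
    refine atd_le_of_algebraic (K := k) _ _ fun i => ?_
    set A := Algebra.adjoin k (Set.range fun j =>
      (Sum.elim (co γ) (fun j => algebraMap K F ((c₀ j : Kˣ) : K)) j : F)) with hA
    obtain ⟨i, hi⟩ := i
    rcases i with i | i
    · exact isAlgebraic_algebraMap (⟨γ.1 i, Algebra.subset_adjoin ⟨Sum.inl (Sum.inl i), rfl⟩⟩ : A)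
    · exact isAlgebraic_algebraMap (⟨algebraMap K F ((c₀ i : Kˣ) : K),
        Algebra.subset_adjoin ⟨Sum.inr i, rfl⟩⟩ : A)
  have e4 := seedP_add (k := k) (K := K) (co x) c
  have e5 : atd k (Sum.elim (co x) (fun j => algebraMap K L (c j))) ≤
      atd k (fun i : I => W i) := by
    refine atd_le_of_algebraic (K := k) _ _ fun i => ?_
    have hWalg : ∀ i, IsAlgebraic (Algebra.adjoin k (Set.range fun i : I => W i)) (W i) := by
      intro i
      by_cases hi : IsCM (Γ i)
      · obtain ⟨d, hd⟩ := exists_of_isCM (k := k) h (isCM_spec hsp hi)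
        rw [← hd]
        exact isAlgebraic_algebraMap (⟨algebraMap k L d, Subalgebra.algebraMap_mem _ d⟩ :
          Algebra.adjoin k (Set.range fun i : I => W i))
      · obtain ⟨r, hr, hri⟩ := hI3 i hi
        refine UM.isAlgebraic_adjoin_trans (S := {W r}) ?_
          (isAlgebraic_of_isog h (isog_spec hsp hri))
        rintro z rfl
        exact isAlgebraic_algebraMap (⟨W r, Algebra.subset_adjoin ⟨⟨r, hr⟩, rfl⟩⟩ :
          Algebra.adjoin k (Set.range fun i : I => W i))
    rcases i with (i | i) | i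
    · exact hWalg (Sum.inl i)
    · exact i.elim
    · exact hWalg (Sum.inr i)
  change ny (fun i : I => W i) + atd k (fun i : I => Γ i) + ny γ.1 + atd K (co x) ≤
    I.card + atd k (fun i : I => W i) + ny x.1 + atd K (co γ)
  omega

end Pool.Agent.Lib.MP_a325a5_ag.PM
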