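import Pool.Agent.Lib.MP_a325a5_ag.PM.Val
import Pool.Agent.Lib.MP_a325a5_ag.PM.Td
import Pool.Agent.Lib.MP_a325a5_ag.PM.Loc
import Pool.Agent.Lib.MP_a325a5_ag.PM.Coef
import Pool.Agent.Lib.MP_a325a5_ag.PM.NyT
import Pool.Agent.Lib.MP_a325a5_ag.PM.Gen
import Pool.Agent.Lib.MP_a325a5_ag.PM.Seed
import Pool.Agent.Lib.MP_a325a5_ag.PM.Iso
import Pool.Agent.Lib.MP_a325a5_ag.MU.YLeast
import Pool.Agent.Lib.MP_a325a5_ag.MU.YCls
import Pool.Agent.Lib.MP_a325a5_ag.UM.Comp
import Pool.Agent.Lib.MP_a325a5_ag.UL.Sel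

/-! Finiteness for all powers `V^D` over `k` implies Zilber-Pink for `Y(1)^α` over `K`.

`γ` a generic point of `X`, `HLatyp` dense.  `exists_seed` gives `c`, `I`; `y = fam c γ` restricted to
`I`; `exists_system` for the units `fyu y`; `generic_not_mem`; `G = ∏ f_Z` over the finitely many
maximal atypical `Z`; `exists_coeffs` gives a polynomial `g` with `g(γ) ≠ 0`, not in `vanIdeal` of some
atypical `Z₀` in `X`; `x` generic in `Z₀`; `G` does not vanish at the configuration `thp` over the point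
`fam c x`; the count of defects shows that it lies on an atypical subvariety: contradiction. -/

set_option autoImplicit false

namespace Pool.Agent.Lib.MP_a325a5_ag.PM

open MvPolynomial UM UL MU

private theorem PMBwd_rel {J : Type} [Fintype J] (S : Sys J) {k : Type} [Field k] (b : S.B) :
    ∃ P : MvPolynomial J k, ∀ (E : Type) [Field E] [Algebra k E] (y : J → Eˣ),
      aeval (fun i => (y i : E)) P = S.rel y b := by
  refine ⟨∑ l, C (((S.ε b l : ℤˣ) : ℤ) : k) * ∏ i, (X i : MvPolynomial J k) ^ S.α b l i, ?_⟩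
  intro E _ _ y
  unfold Sys.rel Sys.term sgnUnit
  rw [map_sum]
  refine Finset.sum_congr rfl fun l _ => ?_
  rw [map_mul, map_prod]
  simp

theorem backward (h : ModAx) (h2 : ModAx2) {k K : Type} [Field k] [IsAlgClosed k] [CharZero k]
    [Algebra.IsAlgebraic ℚ k] [Field K] [IsAlgClosed K] [CharZero K] [Algebra k K]
    (hfin : ∀ (D : Type) [Fintype D],
      (UM.MaxAtypical (YSpecial k (Fin 4 × D)) (QD k D)).Finite)
    (α : Type) [Fintype α] (X : Set (Pt K α Empty)) (hX : IrrClosed X) :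
    ¬ DenseIn (UM.HLatyp (YSpecial k α) X) X := by
  classical
  intro hd
  have hF := yfamily h k α
  obtain ⟨F, iF, iA, γ, hγ⟩ := UM.exists_generic X hX
  let iAk : Algebra k F := ((algebraMap K F).comp (algebraMap k K)).toAlgebra
  have iT : IsScalarTower k K F := IsScalarTower.of_algebraMap_eq' rfl
  have iCF : CharZero F := charZero_of_injective_algebraMap (algebraMap K F).injective
  obtain ⟨e, c, I, hcm, hne, hseed⟩ := PM.exists_seed h (k := k) (K := K) γ
  set y : I → F := fun i => fam c γ i with hy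
  obtain ⟨S, hrel, hdist, hcard, hiso⟩ := UL.exists_system (k := k) (fyu y)
  have hcm' : ∀ i, ¬ IsCM (y i) := fun i => hcm i i.2
  have hne' : ∀ i j, Isog (y i) (y j) → i = j := fun i j hij =>
    Subtype.ext (hne i i.2 j j.2 hij)
  have hnot := PM.generic_not_mem h h2 S (k := k) y hrel hcm' hne' hdist hcard hiso
  have hfinD := hfin (DI S)
  have hch : ∀ Z ∈ UM.MaxAtypical (YSpecial k (Fin 4 × DI S)) (QD k (DI S)), ∃ f ∈ vanIdeal Z,
      f ∉ aloc k (co (thp S y)) := by
    intro Z hZ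
    have := hnot Z hZ.1
    rw [SetLike.not_le_iff_exists] at this
    exact this
  choose! f hfZ hfn using hch
  set G : MvPolynomial ((Fin 4 × DI S) ⊕ Empty) k := ∏ Z ∈ hfinD.toFinset, f Z with hG
  have hGn : G ∉ aloc k (co (thp S y)) := by
    rw [hG, Ideal.IsPrime.prod_mem_iff]
    rintro ⟨Z, hZ, hZf⟩
    exact hfn Z (hfinD.mem_toFinset.mp hZ) hZf
  obtain ⟨𝒯, h𝒯⟩ := PM.exists_coeffs S G
  obtain ⟨g, hg𝒯, hg⟩ := (h𝒯 F y).mp hGn
  -- the polynomial `g` in the coordinates of `γ`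
  let sub : α ⊕ Fin e → MvPolynomial (α ⊕ Empty) K :=
    Sum.elim (fun i => MvPolynomial.X (Sum.inl i)) (fun j => C (c j))
  set g' : MvPolynomial (α ⊕ Empty) K := aeval (fun i : I => sub i) g with hg'
  have hg'e : ∀ (M : Type) [Field M] [Algebra K M] [Algebra k M] [IsScalarTower k K M]
      (x : Pt M α Empty), aeval (co x) g' = aeval (fun i : I => fam c x i) g := by
    intro M _ _ _ _ x
    have h1 : ((aeval (R := K) (co x)).restrictScalars k).comp
        (aeval (R := k) (fun i : I => sub i)) = aeval (R := k) (fun i : I => fam c x i) := by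
      apply MvPolynomial.algHom_ext
      intro i
      rw [AlgHom.comp_apply, aeval_X, aeval_X, AlgHom.restrictScalars_apply]
      rcases hi : (i : α ⊕ Fin e) with a | j
      · show aeval (co x) (MvPolynomial.X (Sum.inl a)) = fam c x (Sum.inl a)
        rw [aeval_X]
        rfl
      · show aeval (co x) (C (c j)) = fam c x (Sum.inr j)
        rw [aeval_C]
        rfl
    exact DFunLike.congr_fun h1 g
  have hgX : g' ∉ vanIdeal X := by
    rw [← hγ, mem_aloc, hg'e]
    exact hg
  have hex : ∃ Z₀, UM.Atypical (YSpecial k α) X Z₀ ∧ g' ∉ vanIdeal Z₀ := by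
    by_contra hcon
    push Not at hcon
    apply hgX
    apply hd
    rintro z ⟨Z, hZ, hz⟩
    exact hcon Z hZ z hz
  obtain ⟨Z₀, hZ₀, hgZ₀⟩ := hex
  obtain ⟨L, iL, iKL, x, hx⟩ := UM.exists_generic Z₀ hZ₀.1.1
  let iAL : Algebra k L := ((algebraMap K L).comp (algebraMap k K)).toAlgebra
  have iTL : IsScalarTower k K L := IsScalarTower.of_algebraMap_eq' rfl
  have iCL : CharZero L := charZero_of_injective_algebraMap (algebraMap K L).injective
  have hspec : aloc K (co γ) ≤ aloc K (co x) := by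
    rw [hγ, hx]
    exact UM.vanIdeal_anti hZ₀.1.2.1
  have hgx : aeval (fun i : I => fam c x i) g ≠ 0 := by
    intro h0
    apply hgZ₀
    rw [← hx, mem_aloc, hg'e]
    exact h0
  have hsx := hseed L x hspec
  set yx : I → L := fun i => fam c x i with hyx
  have hspecy : aloc k y ≤ aloc k yx := aloc_fam_le c I γ x hspec
  have hrelx : ∀ b, S.rel (fyu yx) b = 0 := by
    intro b
    obtain ⟨P, hP⟩ := PMBwd_rel S (k := k) b
    have h1 : locus k (fyu y) ≤ locus k (fyu yx) := locus_fyu_le y yx hspecy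
    have h3 : P ∈ locus k (fyu y) := by
      rw [mem_locus, hP]
      exact hrel b
    have h4 := mem_locus.mp (h1 h3)
    rw [hP] at h4
    exact h4
  have hGx : G ∉ aloc k (co (thp S yx)) := (h𝒯 L yx).mpr ⟨g, hg𝒯, hgx⟩
  have hΘ : vanIdeal (QD k (DI S)) ≤ aloc k (co (thp S yx)) := by
    rw [QD_le_aloc]
    exact cfg_gate S _ _ (fun b => rl_eq_zero S yx hrelx (A := RatFun (UI S) L) _ b)
  obtain ⟨LV, _, _, _, γV, hγV, htdV, hnyV⟩ := QD_generic h k (DI S)
  have hVirr := QD_irrClosed k (DI S)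
  have hFV := yfamily h k (Fin 4 × DI S)
  obtain ⟨TV, hTV, hTVd⟩ := exists_yleast h (k := k) γV.1
  obtain ⟨TΘ, hTΘ, hTΘd⟩ := exists_yleast h (k := k) (thp S yx).1
  obtain ⟨Tγ, hTγ, hTγd⟩ := exists_yleast h (k := k) γ.1
  obtain ⟨Tx, hTx, hTxd⟩ := exists_yleast h (k := k) x.1
  have hlt := UM.atypical_lt hF X Z₀ hX hZ₀ γ x hγ hx Tγ Tx hTγ hTx
  obtain ⟨Z, hZ, hZl⟩ := UM.exists_atypical hFV (QD k (DI S)) hVirr (by
      intro q _ f' hf'
      have h1 := hf' q.1 (Set.mem_univ _)
      exact mem_aloc.mp (mem_aloc_self.mpr h1))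
    γV hγV (thp S yx) hΘ TV TΘ hTV hTΘ (by
      have hmr : ∀ {M : Type} [Field M] (q : Empty → Mˣ), mr q = 0 := fun q =>
        Nat.le_zero.mp ((UL.mr_le_card q).trans (by simp))
      have h3 := ny_thp_le S h yx
      have h4 := atd_thp S (k := k) yx
      have h5 := td_fyu (k := k) y
      have h6 := card_WI S
      have h7 := card_UI S
      have h8 : Fintype.card (Fin 3 × I) = 3 * Fintype.card I := by simp
      have h9 : Fintype.card I = I.card := Fintype.card_coe I
      rw [hmr, hmr] at hlt ⊢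
      omega)
  obtain ⟨W, hW, hZW⟩ := UM.exists_maxAtypical _ Z hZ
  apply hGx
  rw [hG, Ideal.IsPrime.prod_mem_iff]
  exact ⟨W, hfinD.mem_toFinset.mpr hW, hZl (UM.vanIdeal_anti hZW (hfZ W hW))⟩

end Pool.Agent.Lib.MP_a325a5_ag.PM
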