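import Pool.Agent.Lib.MP_a325a5_ag.MU.Defs

/-! Zilber-Pink for the powers `Y(1)^n` of the modular curve: the powers of the quadric threefold. -/

set_option autoImplicit false

namespace Pool.Agent.Lib.MP_a325a5_ag.PM

open UM

/-- The product `V^D` of copies of the quadric threefold `V = {(x, y, z, w) : x y = z + w}` in
`Y(1)^4`, as a subset of `Y(1)^(4 D)` (the torus part of the ambient space is trivial). -/
def QD (k : Type) [Field k] (D : Type) : Set (Pt k (Fin 4 × D) Empty) :=
  {p | ∀ e, p.1 (0, e) * p.1 (1, e) = p.1 (2, e) + p.1 (3, e)}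

end Pool.Agent.Lib.MP_a325a5_ag.PM
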