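import Pool.Agent.Lib.MP_a325a5_ag.PM.Bwd
import Pool.Agent.Lib.MP_a325a5_ag.PM.Fwd
import Pool.Agent.Lib.MP_a325a5_ag.MU.Atyp
import Pool.Agent.Lib.MP_a325a5_ag.MU.YBase

/-! Universality for the Zilber-Pink conjecture for the powers `Y(1)^n`: assembly. -/

set_option autoImplicit false

namespace Pool.Agent.Lib.MP_a325a5_ag.PM

open MvPolynomial UM UL MU

theorem universality (h : ModAx) (h2 : ModAx2) :
    (∀ (α : Type) [Fintype α] (X : Set (Pt ℂ α Empty)), IrrClosed X →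
      ¬ DenseIn (MU.HLatyp (YSpecial ℂ α) X) X) ↔
    ∀ (D : Type) [Fintype D],
      (MU.MaxAtypical (YSpecial (AlgebraicClosure ℚ) (Fin 4 × D))
        (QD (AlgebraicClosure ℚ) D)).Finite := by
  have : Algebra.IsAlgebraic ℚ (AlgebraicClosure ℚ) := AlgebraicClosure.isAlgebraic ℚ
  let _ : Algebra (AlgebraicClosure ℚ) ℂ :=
    (IsAlgClosed.lift (R := ℚ) (S := AlgebraicClosure ℚ) (M := ℂ)).toRingHom.toAlgebra
  constructor
  · intro hZP D _
    rw [maxAtypical_eq h _ (QD_irrClosed _ D)]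
    refine PM.forward (K := ℂ) h D ?_
    intro X hX
    rw [← hlatyp_eq h X hX, ← hlatyp_base h (AlgebraicClosure ℚ) X]
    exact hZP _ X hX
  · intro hfin α _ X hX
    rw [hlatyp_base h (AlgebraicClosure ℚ) X, hlatyp_eq h X hX]
    refine PM.backward h h2 ?_ α X hX
    intro D _
    rw [← maxAtypical_eq h _ (QD_irrClosed _ D)]
    exact hfin D

end Pool.Agent.Lib.MP_a325a5_ag.PM
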