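import Pool.Agent.Lib.MP_a325a5_ag.PM.Val
import Pool.Agent.Lib.MP_a325a5_ag.MU.YBasic

/-! Substitution in isogenies; affine functions of a transcendental element. -/

set_option autoImplicit false

namespace Pool.Agent.Lib.MP_a325a5_ag.PM

open MvPolynomial UM UL MU

section P5

private theorem sep_hom {R S : Type} [CommRing R] [CommRing S] (P : Polynomial (Polynomial ℚ))
    (f : ℚ →+* R) (g : ℚ →+* S) (φ : R →+* S) (x y : R) :
    φ (P.eval₂ (Polynomial.eval₂RingHom f x) y) =
      P.eval₂ (Polynomial.eval₂RingHom g (φ x)) (φ y) := by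
  have h : φ.comp f = g := Subsingleton.elim _ _
  subst h
  rw [Polynomial.hom_eval₂]
  have h2 : φ.comp (Polynomial.eval₂RingHom f x) =
      Polynomial.eval₂RingHom (φ.comp f) (φ x) :=
    RingHom.ext fun p => Polynomial.hom_eval₂ p f φ x
  rw [h2]

variable {F M : Type} [Field F] [CharZero F] [Field M] [CharZero M] [Algebra F M]

private theorem sep_phi {U : Type} (N : ℕ) (p q : MvPolynomial U F)
    (hpq : phi N (algebraMap (MvPolynomial U F) (RatFun U F) p)
      (algebraMap (MvPolynomial U F) (RatFun U F) q) = 0) (c : U → M) :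
    phi N (aeval c p) (aeval c q) = 0 := by
  let f : ℚ →+* MvPolynomial U F := (C : F →+* MvPolynomial U F).comp (Rat.castHom F)
  have h1 := sep_hom (modPoly N) f (Rat.castHom (RatFun U F))
    (algebraMap (MvPolynomial U F) (RatFun U F)) p q
  have h2 : (algebraMap (MvPolynomial U F) (RatFun U F))
      ((modPoly N).eval₂ (Polynomial.eval₂RingHom f p) q) = 0 := by
    rw [h1]
    exact hpq
  rw [map_eq_zero_iff _ (IsFractionRing.injective (MvPolynomial U F) (RatFun U F))] at h2
  have h3 := sep_hom (modPoly N) f (Rat.castHom M)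
    (aeval c : MvPolynomial U F →ₐ[F] M).toRingHom p q
  rw [h2, map_zero] at h3
  exact h3.symm

/-- Values of polynomials in new variables: substitute elements of an extension field. -/
theorem isog_subst {U : Type} (p q : MvPolynomial U F)
    (hpq : Isog (algebraMap (MvPolynomial U F) (RatFun U F) p)
      (algebraMap (MvPolynomial U F) (RatFun U F) q)) (c : U → M) :
    Isog (aeval c p) (aeval c q) := by
  obtain ⟨N, hN, h1⟩ := hpq
  exact ⟨N, hN, sep_phi N p q h1 c⟩

theorem isCM_subst {U : Type} (p : MvPolynomial U F)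
    (hp : IsCM (algebraMap (MvPolynomial U F) (RatFun U F) p)) (c : U → M) :
    IsCM (aeval c p) := by
  obtain ⟨N, hN, h1⟩ := hp
  exact ⟨N, hN, sep_phi N p p h1 c⟩

omit [CharZero F] in
private theorem sep_val {I : Type} [Fintype I] (S : Sys (Fin 3 × I)) (y : I → F) (w : WI S) :
    algebraMap (MvPolynomial (UI S) F) (RatFun (UI S) F)
      (val S (fun i => (C (y i) : MvPolynomial (UI S) F)) (fun u => X u) w) =
      val S (fun i => rcst (UI S) (y i)) (rvar F) w :=
  val_map S (algebraMap (MvPolynomial (UI S) F) (RatFun (UI S) F)) _ _ w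

omit [CharZero F] [CharZero M] in
private theorem sep_val' {I : Type} [Fintype I] (S : Sys (Fin 3 × I)) (y : I → F)
    (c : UI S → M) (w : WI S) :
    aeval c (val S (fun i => (C (y i) : MvPolynomial (UI S) F)) (fun u => X u) w) =
      val S (fun i => algebraMap F M (y i)) c w := by
  have h := val_map S (aeval c : MvPolynomial (UI S) F →ₐ[F] M).toRingHom
    (fun i => (C (y i) : MvPolynomial (UI S) F)) (fun u => X u) w
  simp only [AlgHom.toRingHom_eq_coe, RingHom.coe_coe, aeval_X, aeval_C] at h
  exact h

/-- The same for the wires. -/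
theorem isog_val {I : Type} [Fintype I] (S : Sys (Fin 3 × I)) (y : I → F) (w w' : WI S)
    (hw : Isog (val S (fun i => rcst (UI S) (y i)) (rvar F) w)
      (val S (fun i => rcst (UI S) (y i)) (rvar F) w')) (c : UI S → M) :
    Isog (val S (fun i => algebraMap F M (y i)) c w)
      (val S (fun i => algebraMap F M (y i)) c w') := by
  rw [← sep_val, ← sep_val] at hw
  have h := isog_subst _ _ hw c
  rwa [sep_val', sep_val'] at h

theorem isCM_val {I : Type} [Fintype I] (S : Sys (Fin 3 × I)) (y : I → F) (w : WI S)
    (hw : IsCM (val S (fun i => rcst (UI S) (y i)) (rvar F) w)) (c : UI S → M) :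
    IsCM (val S (fun i => algebraMap F M (y i)) c w) := by
  rw [← sep_val] at hw
  have h := isCM_subst _ hw c
  rwa [sep_val'] at h

omit [CharZero F] [CharZero M] in
private theorem sep_trans {t : M} (ht : Transcendental F t) {a : F} (b : F) (ha : a ≠ 0) :
    Transcendental F (algebraMap F M a * t + algebraMap F M b) := by
  intro h1
  apply ht
  have h2 : IsAlgebraic F (algebraMap F M a * t) := by
    have h3 := h1.sub (isAlgebraic_algebraMap (R := F) (A := M) b)
    rwa [add_sub_cancel_right] at h3
  have h4 := (isAlgebraic_algebraMap (R := F) (A := M) a⁻¹).mul h2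
  rwa [← mul_assoc, ← map_mul, inv_mul_cancel₀ ha, map_one, one_mul] at h4

/-- CM points are algebraic. -/
private theorem sep_alg_of_isCM (h : ModAx) {x : M} (hx : IsCM x) : IsAlgebraic F x := by
  obtain ⟨N, hN, h1⟩ := hx
  have h2 : (((modPoly N).eval Polynomial.X).map (Rat.castHom F)) ≠ 0 := by
    rw [Ne, Polynomial.map_eq_zero_iff (Rat.castHom F).injective]
    exact h.diag N hN
  refine ⟨_, h2, ?_⟩
  rw [Polynomial.aeval_def, Polynomial.eval₂_map]
  have h3 : (algebraMap F M).comp (Rat.castHom F) = Rat.castHom M := Subsingleton.elim _ _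
  rw [h3]
  have h4 := Polynomial.hom_eval₂ (modPoly N) (RingHom.id (Polynomial ℚ))
    (Polynomial.eval₂RingHom (Rat.castHom M) x) Polynomial.X
  rw [Polynomial.eval₂_id, RingHom.comp_id, Polynomial.coe_eval₂RingHom, Polynomial.eval₂_X]
    at h4
  rw [h4]
  exact h1

private theorem sep_alg_of_isog (h : ModAx) {x : F} {y : M} (hxy : Isog (algebraMap F M x) y) :
    IsAlgebraic F y := by
  obtain ⟨N, hN, h1⟩ := hxy
  apply IsIntegral.isAlgebraic
  refine ⟨(modPoly N).map (Polynomial.eval₂RingHom (Rat.castHom F) x),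
    (h.monic N hN).map _, ?_⟩
  rw [Polynomial.eval₂_map]
  have h2 : (algebraMap F M).comp (Polynomial.eval₂RingHom (Rat.castHom F) x) =
      Polynomial.eval₂RingHom (Rat.castHom M) (algebraMap F M x) := by
    refine RingHom.ext fun p => ?_
    have h3 := Polynomial.hom_eval₂ p (Rat.castHom F) (algebraMap F M) x
    have h4 : (algebraMap F M).comp (Rat.castHom F) = Rat.castHom M := Subsingleton.elim _ _
    rw [h4] at h3
    exact h3
  rw [h2]
  exact h1

/-- An affine function of a transcendental element is neither CM nor isogenous to a constant. -/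
theorem not_isCM_aff (h : ModAx) (t : M) (ht : Transcendental F t) (a b : F) (ha : a ≠ 0) :
    ¬ IsCM (algebraMap F M a * t + algebraMap F M b) :=
  fun h1 => sep_trans ht b ha (sep_alg_of_isCM h h1)

theorem not_isog_const (h : ModAx) (t : M) (ht : Transcendental F t) (a b c : F) (ha : a ≠ 0) :
    ¬ Isog (algebraMap F M a * t + algebraMap F M b) (algebraMap F M c) :=
  fun h1 => sep_trans ht b ha (sep_alg_of_isog h (isog_symm h h1))

theorem not_isog_aff (h2 : ModAx2) (t : M) (ht : Transcendental F t) (a b a' b' : F)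
    (ha : a ≠ 0) (ha' : a' ≠ 0) (hne : ¬ (a = a' ∧ b = b')) :
    ¬ Isog (algebraMap F M a * t + algebraMap F M b)
      (algebraMap F M a' * t + algebraMap F M b') := by
  intro h1
  apply hne
  have h3 := h2.aff F M _ (sep_trans ht b ha) (a' / a) (b' - a' / a * b)
    (div_ne_zero ha' ha) (by
      have e : algebraMap F M (a' / a) * (algebraMap F M a * t + algebraMap F M b) +
          algebraMap F M (b' - a' / a * b) = algebraMap F M a' * t + algebraMap F M b' := by
        have e1 : algebraMap F M (a' / a) * algebraMap F M a = algebraMap F M a' := by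
          rw [← map_mul, div_mul_cancel₀ _ ha]
        rw [map_sub, map_mul, mul_add, ← mul_assoc, e1]
        ring
      rw [e]
      exact h1)
  obtain ⟨h4, h5⟩ := h3
  rw [div_eq_one_iff_eq ha] at h4
  subst h4
  rw [div_self ha, one_mul, sub_eq_zero] at h5
  exact ⟨rfl, h5.symm⟩

end P5

end Pool.Agent.Lib.MP_a325a5_ag.PM
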