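import Pool.Agent.Lib.MP_a325a5_ag.PM.EDefs

/-! Elementary properties of the configuration. -/

set_option autoImplicit false

namespace Pool.Agent.Lib.MP_a325a5_ag.PM

open MvPolynomial UM UL MU

section P1

private theorem mon_map {J : Type} [Fintype J] (S : Sys J) {A B : Type} [CommRing A] [CommRing B]
    (φ : A →+* B) (v : J → A) (t : Σ b : S.B, Fin (S.m b + 1)) :
    φ (mon S v t) = mon S (fun j => φ (v j)) t := by
  unfold mon
  rw [map_prod]
  exact Finset.prod_congr rfl fun j _ => map_pow φ _ _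

private theorem prt_map {J : Type} [Fintype J] (S : Sys J) {A B : Type} [CommRing A] [CommRing B]
    (φ : A →+* B) (v : J → A) (b : S.B) (l : Fin (S.m b + 1)) :
    φ (prt S v b l) = prt S (fun j => φ (v j)) b l := by
  unfold prt
  rw [map_sum]
  refine Finset.sum_congr rfl fun l' _ => ?_
  rw [map_mul, map_intCast, mon_map]

private theorem rl_map {J : Type} [Fintype J] (S : Sys J) {A B : Type} [CommRing A] [CommRing B]
    (φ : A →+* B) (v : J → A) (b : S.B) :
    φ (rl S v b) = rl S (fun j => φ (v j)) b := by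
  unfold rl
  rw [map_sum]
  refine Finset.sum_congr rfl fun l' _ => ?_
  rw [map_mul, map_intCast, mon_map]

private theorem fv_map {I A B : Type} [CommRing A] [CommRing B] (φ : A →+* B) (y : I → A)
    (c : Fin 2 × I → A) (j : Fin 3 × I) :
    φ (fv y c j) = fv (fun i => φ (y i)) (fun q => φ (c q)) j := by
  obtain ⟨j, i⟩ := j
  fin_cases j
  · rfl
  · rfl
  · show φ (c (0, i) * y i - c (1, i)) = φ (c (0, i)) * φ (y i) - φ (c (1, i))
    rw [map_sub, map_mul]

variable {I : Type} [Fintype I] (S : Sys (Fin 3 × I))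

theorem val_map {A B : Type} [CommRing A] [CommRing B] (φ : A →+* B) (y : I → A) (c : UI S → A)
    (w : WI S) : φ (val S y c w) = val S (fun i => φ (y i)) (fun u => φ (c u)) w := by
  rcases w with (i | j) | (t | ⟨t, _ | m⟩)
  · rfl
  · show φ (fv y (fun q => c (Sum.inl q)) j) =
      fv (fun i => φ (y i)) (fun q => φ (c (Sum.inl q))) j
    exact fv_map φ _ _ j
  · show φ (c (Sum.inr (Sum.inl t.1)) + prt S (fv y fun q => c (Sum.inl q)) t.1 t.2) =
      φ (c (Sum.inr (Sum.inl t.1))) +
        prt S (fv (fun i => φ (y i)) fun q => φ (c (Sum.inl q))) t.1 t.2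
    rw [map_add, prt_map]
    simp only [fv_map]
  · show φ (c (Sum.inr (Sum.inr t)) * (c (Sum.inr (Sum.inl t.1)) +
      prt S (fv y fun q => c (Sum.inl q)) t.1 (lo S t).2)) =
      φ (c (Sum.inr (Sum.inr t))) * (φ (c (Sum.inr (Sum.inl t.1))) +
        prt S (fv (fun i => φ (y i)) fun q => φ (c (Sum.inl q))) t.1 (lo S t).2)
    rw [map_mul, map_add, prt_map]
    simp only [fv_map]
  · show φ (c (Sum.inr (Sum.inr t)) *
      ∏ i ∈ Finset.univ.filter (fun i : Fin (dg S t) => i.castSucc < m),
        fv y (fun q => c (Sum.inl q)) (fac S t i)) =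
      φ (c (Sum.inr (Sum.inr t))) *
      ∏ i ∈ Finset.univ.filter (fun i : Fin (dg S t) => i.castSucc < m),
        fv (fun i => φ (y i)) (fun q => φ (c (Sum.inl q))) (fac S t i)
    rw [map_mul, map_prod]
    simp only [fv_map]

theorem cfg_map {A B : Type} [CommRing A] [CommRing B] (φ : A →+* B) (y : I → A) (c : UI S → A)
    (p : Fin 4 × DI S) : φ (cfg S y c p) = cfg S (fun i => φ (y i)) (fun u => φ (c u)) p := by
  unfold cfg
  rcases net S p with _ | w
  · exact map_zero φ
  · exact val_map S φ y c w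

omit [Fintype I] in
private theorem fin3_cases (w : Fin 3 × I) :
    w = (0, w.2) ∨ w = (1, w.2) ∨ w = (2, w.2) := by
  obtain ⟨j, i⟩ := w
  fin_cases j
  · exact Or.inl rfl
  · exact Or.inr (Or.inl rfl)
  · exact Or.inr (Or.inr rfl)

theorem net_surj (w : WI S) : ∃ p, net S p = some w := by
  rcases w with (i | j) | (t | ⟨t, _ | m⟩)
  · exact ⟨(1, Sum.inl i), rfl⟩
  · rcases fin3_cases j with h | h | h
    · exact ⟨(0, Sum.inl j.2), by rw [h]; rfl⟩
    · exact ⟨(2, Sum.inl j.2), by rw [h]; rfl⟩
    · exact ⟨(3, Sum.inl j.2), by rw [h]; rfl⟩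
  · by_cases h : S.ε t.1 t.2 = 1
    · refine ⟨(1, Sum.inr ⟨t, Sum.inr 0⟩), ?_⟩
      show some (Sum.inr (Sum.inl (lo S t))) = _
      unfold lo
      rw [if_pos h]
    · refine ⟨(1, Sum.inr ⟨t, Sum.inr 1⟩), ?_⟩
      show some (Sum.inr (Sum.inl (hi S t))) = _
      unfold hi
      rw [if_neg h]
  · exact ⟨(2, Sum.inr ⟨t, Sum.inr 0⟩), rfl⟩
  · rcases Fin.eq_zero_or_eq_succ m with h | ⟨m', h⟩
    · exact ⟨(0, Sum.inr ⟨t, Sum.inr 0⟩), by rw [h]; rfl⟩
    · exact ⟨(2, Sum.inr ⟨t, Sum.inl m'⟩), by rw [h]; rfl⟩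

/-- The factors of a term. -/
theorem fac_prod {A : Type} [CommRing A] (v : Fin 3 × I → A) (t : TI S) :
    ∏ i, v (fac S t i) = mon S v t := by
  have h : ∏ i, v (fac S t i) = ∏ x : (Σ j : Fin 3 × I, Fin (S.α t.1 t.2 j)), v x.1 :=
    Fintype.prod_equiv (Fintype.equivFin (Σ j : Fin 3 × I, Fin (S.α t.1 t.2 j))).symm _ _
      fun i => rfl
  rw [h, Fintype.prod_sigma]
  unfold mon
  refine Finset.prod_congr rfl fun j _ => ?_
  show ∏ _x : Fin (S.α t.1 t.2 j), v j = v j ^ S.α t.1 t.2 j
  rw [Finset.prod_const, Finset.card_univ, Fintype.card_fin]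

private theorem rel_eq {J : Type} [Fintype J] (S : Sys J) {A : Type} [CommRing A] (v : J → Aˣ)
    (b : S.B) : S.rel v b = rl S (fun j => (v j : A)) b := by
  unfold Sys.rel rl
  refine Finset.sum_congr rfl fun l _ => ?_
  unfold Sys.term mon sgnUnit
  rw [Units.val_mul, Units.coe_prod]
  simp only [Units.val_pow_eq_pow_val]
  rfl

/-- The relations are identities in the variables `a_i`, `b_i`. -/
theorem rl_eq_zero {E A : Type} [Field E] [CommRing A] [Algebra E A] (y : I → E)
    (hy : ∀ b, S.rel (fyu y) b = 0) (c : Fin 2 × I → A) (b : S.B) :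
    rl S (fv (fun i => algebraMap E A (y i)) c) b = 0 := by
  have h0 : rl S (fv (fun i => (C (y i) : MvPolynomial (Fin 2 × I) E)) X) b = 0 := by
    have h1 := hy b
    rw [rel_eq] at h1
    have h2 : algebraMap (MvPolynomial (Fin 2 × I) E) (RatFun (Fin 2 × I) E)
        (rl S (fv (fun i => (C (y i) : MvPolynomial (Fin 2 × I) E)) X) b) = 0 := by
      rw [rl_map, ← h1]
      congr 1
      funext j
      exact fv_map (algebraMap (MvPolynomial (Fin 2 × I) E) (RatFun (Fin 2 × I) E)) _ _ j
    exact (map_eq_zero_iff _ (IsFractionRing.injective (MvPolynomial (Fin 2 × I) E)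
      (RatFun (Fin 2 × I) E))).1 h2
  have h3 := congrArg (aeval c).toRingHom h0
  rw [map_zero, rl_map] at h3
  rw [← h3]
  congr 1
  funext j
  rw [fv_map]
  congr 1
  · funext i
    exact (aeval_C c (y i)).symm
  · funext q
    exact (aeval_X c q).symm

private theorem prt_succ {J : Type} [Fintype J] (S : Sys J) {A : Type} [CommRing A] (v : J → A)
    (hrl : ∀ b, rl S v b = 0) (b : S.B) (l : Fin (S.m b + 1)) :
    prt S v b (l + 1) = prt S v b l + ((S.ε b l : ℤ) : A) * mon S v ⟨b, l⟩ := by
  have h1 : prt S v b l + ((S.ε b l : ℤ) : A) * mon S v ⟨b, l⟩ =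
      ∑ l' ∈ Finset.univ.filter (fun l' => l' ≤ l), ((S.ε b l' : ℤ) : A) * mon S v ⟨b, l'⟩ := by
    unfold prt
    have e : Finset.univ.filter (fun l' : Fin (S.m b + 1) => l' ≤ l) =
        insert l (Finset.univ.filter (fun l' => l' < l)) := by
      ext x
      simp only [Finset.mem_filter, Finset.mem_univ, true_and, Finset.mem_insert]
      exact le_iff_eq_or_lt
    rw [e, Finset.sum_insert (by simp), add_comm]
  rw [h1]
  by_cases hl : l = Fin.last _
  · have e1 : l + 1 = 0 := by
      rw [hl]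
      exact Fin.last_add_one _
    have e2 : prt S v b (l + 1) = 0 := by
      rw [e1]
      unfold prt
      rw [Finset.filter_false_of_mem, Finset.sum_empty]
      intro x _
      exact Fin.not_lt_zero x
    rw [e2, ← hrl b]
    unfold rl
    rw [Finset.filter_true_of_mem]
    intro x _
    rw [hl]
    exact Fin.le_last x
  · unfold prt
    congr 1
    ext x
    simp only [Finset.mem_filter, Finset.mem_univ, true_and]
    rw [Fin.lt_def, Fin.le_def, Fin.val_add_one_of_lt (Fin.lt_last_iff_ne_last.2 hl)]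
    exact Nat.lt_succ_iff

private theorem prt_hi {J : Type} [Fintype J] (S : Sys J) {A : Type} [CommRing A] (v : J → A)
    (hrl : ∀ b, rl S v b = 0) (b : S.B) (l : Fin (S.m b + 1)) :
    prt S v b (if S.ε b l = 1 then l + 1 else l) =
      prt S v b (if S.ε b l = 1 then l else l + 1) + mon S v ⟨b, l⟩ := by
  have hp := prt_succ S v hrl b l
  rcases Int.units_eq_one_or (S.ε b l) with h | h
  · rw [if_pos h, if_pos h, hp, h]
    simp
  · have h' : ¬ S.ε b l = 1 := by
      rw [h]
      decide
    rw [if_neg h', if_neg h', hp, h]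
    simp

/-- The gates, in any ring in which the relations hold. -/
theorem cfg_gate {A : Type} [CommRing A] (y : I → A) (c : UI S → A)
    (hrl : ∀ b, rl S (fv y fun q => c (Sum.inl q)) b = 0) (e : DI S) :
    cfg S y c (0, e) * cfg S y c (1, e) = cfg S y c (2, e) + cfg S y c (3, e) := by
  rcases e with i | ⟨t, m | r⟩
  · show c (Sum.inl (0, i)) * y i = c (Sum.inl (1, i)) +
      (c (Sum.inl (0, i)) * y i - c (Sum.inl (1, i)))
    ring
  · show (c (Sum.inr (Sum.inr t)) *
      ∏ i ∈ Finset.univ.filter (fun i : Fin (dg S t) => i.castSucc < m.castSucc),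
        fv y (fun q => c (Sum.inl q)) (fac S t i)) *
        fv y (fun q => c (Sum.inl q)) (fac S t m) = (c (Sum.inr (Sum.inr t)) *
      ∏ i ∈ Finset.univ.filter (fun i : Fin (dg S t) => i.castSucc < m.succ),
        fv y (fun q => c (Sum.inl q)) (fac S t i)) + 0
    have e : Finset.univ.filter (fun i : Fin (dg S t) => i.castSucc < m.succ) =
        insert m (Finset.univ.filter (fun i : Fin (dg S t) => i.castSucc < m.castSucc)) := by
      ext x
      simp only [Finset.mem_filter, Finset.mem_univ, true_and, Finset.mem_insert,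
        Fin.castSucc_lt_castSucc_iff, Fin.castSucc_lt_succ_iff]
      exact le_iff_eq_or_lt
    rw [e, Finset.prod_insert (by simp)]
    ring
  · have hu : (∏ i ∈ Finset.univ.filter (fun i : Fin (dg S t) => i.castSucc < 0),
        fv y (fun q => c (Sum.inl q)) (fac S t i)) = 1 := by
      rw [Finset.filter_false_of_mem, Finset.prod_empty]
      intro x _
      exact Fin.not_lt_zero _
    fin_cases r
    · show (c (Sum.inr (Sum.inr t)) *
        ∏ i ∈ Finset.univ.filter (fun i : Fin (dg S t) => i.castSucc < 0),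
          fv y (fun q => c (Sum.inl q)) (fac S t i)) *
          (c (Sum.inr (Sum.inl t.1)) + prt S (fv y fun q => c (Sum.inl q)) t.1 (lo S t).2) =
        c (Sum.inr (Sum.inr t)) * (c (Sum.inr (Sum.inl t.1)) +
          prt S (fv y fun q => c (Sum.inl q)) t.1 (lo S t).2) + 0
      rw [hu]
      ring
    · show (c (Sum.inr (Sum.inr t)) *
        ∏ i ∈ Finset.univ.filter (fun i : Fin (dg S t) => i.castSucc < 0),
          fv y (fun q => c (Sum.inl q)) (fac S t i)) *
          (c (Sum.inr (Sum.inl t.1)) + prt S (fv y fun q => c (Sum.inl q)) t.1 (hi S t).2) =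
        c (Sum.inr (Sum.inr t)) * (c (Sum.inr (Sum.inl t.1)) +
          prt S (fv y fun q => c (Sum.inl q)) t.1 (lo S t).2) + (c (Sum.inr (Sum.inr t)) *
        ∏ i ∈ Finset.univ.filter (fun i : Fin (dg S t) => i.castSucc < Fin.last _),
          fv y (fun q => c (Sum.inl q)) (fac S t i))
      have hm : (∏ i ∈ Finset.univ.filter (fun i : Fin (dg S t) => i.castSucc < Fin.last _),
          fv y (fun q => c (Sum.inl q)) (fac S t i)) =
          mon S (fv y fun q => c (Sum.inl q)) t := by
        rw [Finset.filter_true_of_mem (fun x _ => Fin.castSucc_lt_last x), fac_prod]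
      have hkey : prt S (fv y fun q => c (Sum.inl q)) t.1 (hi S t).2 =
          prt S (fv y fun q => c (Sum.inl q)) t.1 (lo S t).2 +
            mon S (fv y fun q => c (Sum.inl q)) t :=
        prt_hi S (fv y fun q => c (Sum.inl q)) hrl t.1 t.2
      rw [hu, hm, hkey]
      ring

theorem card_WI : Fintype.card (WI S) =
    3 * Fintype.card I + Fintype.card (TI S) + Fintype.card (DI S) := by
  simp only [Fintype.card_sum, Fintype.card_prod, Fintype.card_fin, Fintype.card_sigma,
    Fintype.card_option]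
  ring

theorem card_UI : Fintype.card (UI S) =
    2 * Fintype.card I + (Fintype.card S.B + Fintype.card (TI S)) := by
  simp only [Fintype.card_sum, Fintype.card_prod, Fintype.card_fin]

end P1

end Pool.Agent.Lib.MP_a325a5_ag.PM
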